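import Mathlib

/-!
# The operator `X d/dX` and exponentials of power series
-/

set_option autoImplicit false
open PowerSeries

namespace Run7.h131.LL

/-- `X * U'` -/
noncomputable def th {R : Type*} [CommRing R] (U : R⟦X⟧) : R⟦X⟧ := X * d⁄dX R U

section ring
variable {R : Type*} [CommRing R]

lemma coeff_th (U : R⟦X⟧) (n : ℕ) : coeff n (th U) = n * coeff n U := by
  unfold th
  cases n with
  | zero => simp
  | succ n =>
    rw [coeff_succ_X_mul, coeff_derivative]
    push_cast; ring

lemma th_mul (U V : R⟦X⟧) : th (U * V) = th U * V + U * th V := by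
  unfold th
  rw [Derivation.leibniz]
  simp only [smul_eq_mul]; ring

lemma th_add (U V : R⟦X⟧) : th (U + V) = th U + th V := by
  unfold th; rw [map_add, mul_add]

lemma th_sub (U V : R⟦X⟧) : th (U - V) = th U - th V := by
  unfold th; rw [map_sub, mul_sub]

lemma th_zero : th (0 : R⟦X⟧) = 0 := by unfold th; rw [map_zero, mul_zero]

lemma th_C (c : R) : th (C c : R⟦X⟧) = 0 := by unfold th; rw [derivative_C, mul_zero]

lemma th_C_mul (c : R) (U : R⟦X⟧) : th (C c * U) = C c * th U := by
  rw [th_mul, th_C, zero_mul, zero_add]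

lemma th_sum {ι : Type*} (s : Finset ι) (U : ι → R⟦X⟧) :
    th (∑ i ∈ s, U i) = ∑ i ∈ s, th (U i) := by
  unfold th; rw [map_sum, Finset.mul_sum]

lemma th_X_pow (n : ℕ) : th ((X : R⟦X⟧) ^ n) = C (n : R) * X ^ n := by
  ext m
  rw [coeff_th, coeff_C_mul, coeff_X_pow]
  split_ifs with h
  · rw [h]
  · simp

lemma th_pow_succ (U : R⟦X⟧) (n : ℕ) : th (U ^ (n + 1)) = C ((n : R) + 1) * U ^ n * th U := by
  induction n with
  | zero => simp
  | succ n ih =>
    rw [pow_succ, th_mul, ih]
    push_cast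
    simp only [map_add, map_one]
    ring

/-- `X^m` divides `th U` if it divides `U` -/
lemma dvd_th {U : R⟦X⟧} {m : ℕ} (h : X ^ m ∣ U) : X ^ m ∣ th U := by
  rw [X_pow_dvd_iff] at h ⊢
  intro i hi
  rw [coeff_th, h i hi, mul_zero]

lemma X_dvd_th (U : R⟦X⟧) : X ∣ th U := Dvd.intro _ rfl

end ring

section field
variable {k : Type*} [Field k] [CharZero k]

lemma dvd_of_th {U : k⟦X⟧} {m : ℕ} (h0 : constantCoeff U = 0) (h : X ^ m ∣ th U) : X ^ m ∣ U := by
  rw [X_pow_dvd_iff] at h ⊢
  intro i hi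
  cases i with
  | zero => simpa using h0
  | succ i =>
    have h1 := h _ hi
    rw [coeff_th] at h1
    refine (mul_eq_zero.1 h1).resolve_left ?_
    exact_mod_cast Nat.succ_ne_zero i

lemma eq_zero_of_th {U : k⟦X⟧} (h0 : constantCoeff U = 0) (h : th U = 0) : U = 0 := by
  ext i
  have h1 : X ^ (i + 1) ∣ U := dvd_of_th h0 (by rw [h]; exact dvd_zero _)
  rw [X_pow_dvd_iff] at h1
  rw [h1 i (Nat.lt_succ_self i), map_zero]

lemma eq_of_th {U V : k⟦X⟧} (h0 : constantCoeff U = constantCoeff V) (h : th U = th V) : U = V := by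
  rw [← sub_eq_zero]
  apply eq_zero_of_th
  · rw [map_sub, h0, sub_self]
  · rw [th_sub, h, sub_self]

/-- uniqueness for `th y = y * w` with `X ∣ w` -/
lemma zero_of_th_eq {y w : k⟦X⟧} (h0 : constantCoeff y = 0) (hw : X ∣ w) (h : th y = y * w) :
    y = 0 := by
  have key : ∀ m : ℕ, X ^ m ∣ y := by
    intro m
    induction m with
    | zero => rw [pow_zero]; exact one_dvd _
    | succ m ih =>
      apply dvd_of_th h0
      rw [h, pow_succ]
      exact mul_dvd_mul ih hw
  ext i
  have h1 := key (i + 1)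
  rw [X_pow_dvd_iff] at h1
  rw [h1 i (Nat.lt_succ_self i), map_zero]

/-- the truncated exponential -/
noncomputable def eS (S : ℕ) (g : k⟦X⟧) : k⟦X⟧ := ∑ i ∈ Finset.range S, C ((i.factorial : k)⁻¹) * g ^ i

lemma th_eS (S : ℕ) (g : k⟦X⟧) : th (eS (S + 1) g) = eS S g * th g := by
  unfold eS
  rw [th_sum, Finset.sum_range_succ', Finset.sum_mul]
  rw [Nat.factorial_zero, pow_zero, mul_one, th_C, add_zero]
  refine Finset.sum_congr rfl fun i _ => ?_
  rw [th_C_mul, th_pow_succ, ← mul_assoc, ← mul_assoc, ← map_mul]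
  congr 3
  have h1 : ((i.factorial : ℕ) : k) ≠ 0 := by exact_mod_cast i.factorial_ne_zero
  have h2 : ((i : k) + 1) ≠ 0 := by exact_mod_cast Nat.succ_ne_zero i
  rw [Nat.factorial_succ]
  push_cast
  field_simp

lemma constantCoeff_eS {S : ℕ} {g : k⟦X⟧} (hS : 0 < S) (hg : constantCoeff g = 0) :
    constantCoeff (eS S g) = 1 := by
  unfold eS
  obtain ⟨S, rfl⟩ := Nat.exists_eq_succ_of_ne_zero hS.ne'
  rw [map_sum, Finset.sum_range_succ', Finset.sum_eq_zero]
  · simp
  · intro i _
    rw [map_mul, map_pow, hg, zero_pow (Nat.succ_ne_zero i), mul_zero]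

/-- a solution of `th y = y th g` is the exponential of `g`, truncated version -/
lemma expo {y g : k⟦X⟧} {q S : ℕ} (hq : 0 < q) (hS : 0 < S) (hg : X ^ q ∣ g)
    (h : th y = y * th g) : X ^ (q * S) ∣ y - C (constantCoeff y) * eS S g := by
  obtain ⟨S, rfl⟩ := Nat.exists_eq_succ_of_ne_zero hS.ne'
  have hg0 : constantCoeff g = 0 := by
    rw [X_pow_dvd_iff] at hg
    simpa using hg 0 hq
  set W := y - C (constantCoeff y) * eS (S + 1) g with hW
  have hW0 : constantCoeff W = 0 := by
    rw [hW, map_sub, map_mul, constantCoeff_C, constantCoeff_eS (Nat.succ_pos _) hg0, mul_one,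
      sub_self]
  have hth : th W = W * th g + C (constantCoeff y) * (C ((S.factorial : k)⁻¹) * g ^ S) * th g := by
    have h1 : eS (S + 1) g = eS S g + C ((S.factorial : k)⁻¹) * g ^ S := by
      unfold eS; rw [Finset.sum_range_succ]
    rw [hW, th_sub, th_C_mul, th_eS, h, h1]
    ring
  have hthg : X ^ q ∣ th g := dvd_th hg
  have key : ∀ i : ℕ, i ≤ S + 1 → X ^ (q * i) ∣ W := by
    intro i
    induction i with
    | zero => intro _; rw [mul_zero, pow_zero]; exact one_dvd _
    | succ i ih =>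
      intro hi
      apply dvd_of_th hW0
      rw [hth]
      apply dvd_add
      · have := mul_dvd_mul (ih (by omega)) hthg
        rwa [← pow_add, ← Nat.mul_succ] at this
      · have h1 : X ^ (q * S) ∣ g ^ S := by
          rw [pow_mul]; exact pow_dvd_pow_of_dvd hg S
        have h2 := mul_dvd_mul h1 hthg
        rw [← pow_add, ← Nat.mul_succ] at h2
        have h3 : (X : k⟦X⟧) ^ (q * (i + 1)) ∣ X ^ (q * S.succ) :=
          pow_dvd_pow _ (Nat.mul_le_mul_left _ (by omega))
        refine h3.trans (h2.trans ?_)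
        rw [mul_assoc, mul_assoc]
        exact Dvd.dvd.mul_left (Dvd.dvd.mul_left dvd_rfl _) _
  exact key (S + 1) le_rfl

end field

end Run7.h131.LL
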