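import Mathlib
import Pool.Agent.H497R2.Rel

/-!
# Unramified places and Frobenius elements
-/

set_option autoImplicit false
open NumberField IsDedekindDomain Filter H497R2

namespace Run7.h131.LL

variable {K : Type*} [Field K] [NumberField K]

/-- `v` is unramified over `ℚ` -/
def Unr (v : HeightOneSpectrum (𝓞 K)) : Prop :=
  ∀ x : K, v.valuation K x < 1 → v.valuation K x ≤ v.valuation K (rc v : K)

lemma under_eq (v : HeightOneSpectrum (𝓞 K)) :
    v.asIdeal.under ℤ = Ideal.span {((rc v : ℕ) : ℤ)} := by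
  ext n
  rw [Ideal.mem_comap, Ideal.mem_span_singleton]
  rw [← Int.natAbs_dvd_natAbs, Int.natAbs_natCast, ← natCast_mem_iff v n.natAbs]
  rcases Int.natAbs_eq n with h | h
  · conv_lhs => rw [h]
    simp
  · conv_lhs => rw [h]
    rw [map_neg, neg_mem_iff]; simp

lemma lt_one_le {x : WithZero (Multiplicative ℤ)} (h : x < 1) : x ≤ WithZero.exp (-1) := by
  by_cases hx : x = 0
  · rw [hx]; exact zero_le
  · rw [← WithZero.exp_log hx] at h ⊢
    rw [← WithZero.exp_zero, WithZero.exp_lt_exp] at h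
    rw [WithZero.exp_le_exp]
    omega

lemma lt_exp_le {x : WithZero (Multiplicative ℤ)} (h : x < WithZero.exp (-1)) :
    x ≤ WithZero.exp (-((2 : ℕ) : ℤ)) := by
  by_cases hx : x = 0
  · rw [hx]; exact zero_le
  · rw [← WithZero.exp_log hx] at h ⊢
    rw [WithZero.exp_lt_exp] at h
    rw [WithZero.exp_le_exp]
    push_cast
    omega

lemma ev_unr : ∀ᶠ v : HeightOneSpectrum (𝓞 K) in cofinite, Unr v := by
  set D : ℕ := (discr K).natAbs with hD
  have hD0 : D ≠ 0 := by rw [hD, Int.natAbs_ne_zero]; exact discr_ne_zero K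
  filter_upwards [ev_rc_gt (K := K) D] with v hv
  have hPp := v.isPrime
  have hpr : Prime ((rc v : ℕ) : ℤ) := Nat.prime_iff_prime_int.1 (rc_prime v)
  have hnd : ¬ ((rc v : ℕ) : ℤ) ∣ discr K := by
    intro hdv
    have h1 : rc v ∣ D := by
      have := Int.natAbs_dvd_natAbs.2 hdv
      simpa using this
    have := Nat.le_of_dvd (Nat.pos_of_ne_zero hD0) h1
    omega
  have hun := (not_dvd_discr_iff_forall_mem K (𝓞 K) hpr).1 hnd
  have hmem : (((rc v : ℕ) : ℤ) : 𝓞 K) ∈ v.asIdeal := by simpa using rc_mem v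
  have hunv : Algebra.IsUnramifiedAt ℤ v.asIdeal := hun v.asIdeal hPp hmem
  have he : v.asIdeal.ramificationIdx ℤ = 1 := Ideal.ramificationIdx_eq_one_of_isUnramifiedAt
  have hunder := under_eq v
  have hnot : ((rc v : ℕ) : 𝓞 K) ∉ v.asIdeal ^ 2 := by
    intro h2
    have hne : v.asIdeal.under ℤ ≠ ⊥ := by
      rw [hunder, Ne, Ideal.span_singleton_eq_bot]
      exact_mod_cast (rc_prime v).ne_zero
    have h3 := Ideal.ramificationIdx'_eq_ramificationIdx (v.asIdeal.under ℤ) v.asIdeal hne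
    rw [he] at h3
    have h4 : (v.asIdeal.under ℤ).map (algebraMap ℤ (𝓞 K)) ≤ v.asIdeal := Ideal.map_comap_le
    refine (Ideal.ramificationIdx'_ne_one_iff h4).2 ?_ h3
    rw [hunder, Ideal.map_span, Set.image_singleton, Ideal.span_singleton_le_iff_mem]
    simpa using h2
  have h1 : ¬ v.valuation K ((rc v : ℕ) : K) ≤ WithZero.exp (-((2 : ℕ) : ℤ)) := by
    intro h
    apply hnot
    rw [← v.intValuation_le_pow_iff_mem, ← v.valuation_of_algebraMap (K := K)]
    simpa using h
  intro x hx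
  have hx1 : v.valuation K x ≤ WithZero.exp (-1) := lt_one_le hx
  have hp1 : WithZero.exp (-1) ≤ v.valuation K ((rc v : ℕ) : K) := by
    by_contra hlt
    exact h1 (lt_exp_le (not_le.1 hlt))
  exact hx1.trans hp1

/-- `τ` preserves the valuation if it is a Frobenius element -/
lemma frob_val {τ : K ≃ₐ[ℚ] K} {v : HeightOneSpectrum (𝓞 K)} (h : FrobAt τ v) {x : K}
    (hx : v.valuation K x ≤ 1) :
    v.valuation K (τ x) ≤ 1 ∧ v.valuation K (τ x - x ^ (rc v)) < 1 := by
  obtain ⟨n, d, hnd⟩ := v.exists_primeCompl_mul_eq_of_integer (K := K) x hx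
  set n' : K := algebraMap (𝓞 K) K n with hn'
  set d' : K := algebraMap (𝓞 K) K (d : 𝓞 K) with hd'
  have hd1 : v.valuation K d' = 1 := by
    rw [hd', v.valuation_of_algebraMap]
    exact (v.intValuation_eq_one_iff_mem_primeCompl _).2 d.2
  have hn1 : v.valuation K n' ≤ 1 := v.valuation_le_one n
  have hd0 : d' ≠ 0 := by
    intro h0; rw [h0, map_zero] at hd1; exact zero_ne_one hd1
  have hx' : x = n' / d' := by rw [eq_div_iff hd0]; exact hnd
  have hFn : v.valuation K (τ n' - n' ^ rc v) < 1 := h _ (RingOfIntegers.isIntegral_coe n)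
  have hFd : v.valuation K (τ d' - d' ^ rc v) < 1 := h _ (RingOfIntegers.isIntegral_coe _)
  have hτn : v.valuation K (τ n') ≤ 1 := by
    have : τ n' = (τ n' - n' ^ rc v) + n' ^ rc v := by ring
    rw [this]
    refine Valuation.map_add_le _ hFn.le ?_
    rw [map_pow]; exact pow_le_one' hn1 _
  have hτd : v.valuation K (τ d') = 1 := by
    have h1 : v.valuation K (d' ^ rc v) = 1 := by rw [map_pow, hd1, one_pow]
    have h2 : τ d' = d' ^ rc v + (τ d' - d' ^ rc v) := by ring
    rw [h2, Valuation.map_add_eq_of_lt_left _ (by rw [h1]; exact hFd), h1]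
  have hτd0 : τ d' ≠ 0 := (map_ne_zero τ).2 hd0
  constructor
  · rw [hx', map_div₀, map_div₀, hτd, div_one]; exact hτn
  · have e : τ x - x ^ rc v = ((τ n' - n' ^ rc v) * d' ^ rc v - n' ^ rc v * (τ d' - d' ^ rc v)) /
        (τ d' * d' ^ rc v) := by
      have h3 : d' ^ rc v ≠ 0 := pow_ne_zero _ hd0
      rw [hx', map_div₀, div_pow]
      field_simp
      ring
    rw [e, map_div₀, map_mul, map_pow, hτd, hd1, one_pow, mul_one, div_one]
    refine Valuation.map_sub_lt _ ?_ ?_
    · rw [map_mul, map_pow, hd1, one_pow, mul_one]; exact hFn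
    · rw [map_mul, map_pow]
      calc v.valuation K n' ^ rc v * v.valuation K (τ d' - d' ^ rc v)
          ≤ 1 * v.valuation K (τ d' - d' ^ rc v) := by gcongr; exact pow_le_one' hn1 _
        _ < 1 := by rw [one_mul]; exact hFd

end Run7.h131.LL
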