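import Mathlib
import Pool.Agent.Run7.h131.LL.Th
import Pool.Agent.Run7.h131.LL.Unr

/-!
# Dwork's lemma for exponentials of power series over number fields
-/

set_option autoImplicit false
open NumberField IsDedekindDomain Filter PowerSeries
open H497R2 (rc FrobAt rc_prime val_rc_lt val_nat_le val_nat_eq_one)

namespace Run7.h131.LL

section exp

variable {k : Type*} [Field k] [CharZero k]

/-- the exponential of a power series without constant term -/
noncomputable def Ex (g : k⟦X⟧) : k⟦X⟧ := (PowerSeries.exp k).subst g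

lemma th_Ex {g : k⟦X⟧} (hg : constantCoeff g = 0) : th (Ex g) = Ex g * th g := by
  have h1 : HasSubst g := HasSubst.of_constantCoeff_zero' hg
  unfold th Ex
  rw [derivative_subst h1, derivative_exp]
  ring

lemma constantCoeff_Ex {g : k⟦X⟧} (hg : constantCoeff g = 0) : constantCoeff (Ex g) = 1 := by
  have h1 : HasSubst g := HasSubst.of_constantCoeff_zero' hg
  unfold Ex
  have h2 := constantCoeff_subst h1 (PowerSeries.exp k)
  change constantCoeff (subst g (PowerSeries.exp k)) = _ at h2
  rw [h2, finsum_eq_single _ 0]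
  · have : MvPowerSeries.constantCoeff (g ^ 0) = (1 : k) := by rw [pow_zero, map_one]
    rw [this]; simp
  · intro d hd
    have h3 : MvPowerSeries.constantCoeff (g ^ d) = (0 : k) := by
      have : constantCoeff (g ^ d) = (0 : k) := by rw [map_pow, hg, zero_pow hd]
      exact this
    rw [h3, smul_zero]

/-- perturbed uniqueness -/
lemma dvd_of_th_eq {W w ρ : k⟦X⟧} {N : ℕ} (h0 : constantCoeff W = 0) (hw : X ∣ w)
    (hρ : X ^ N ∣ ρ) (h : th W = W * w + ρ) : X ^ N ∣ W := by
  have key : ∀ m : ℕ, m ≤ N → X ^ m ∣ W := by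
    intro m
    induction m with
    | zero => intro _; rw [pow_zero]; exact one_dvd _
    | succ m ih =>
      intro hm
      apply dvd_of_th h0
      rw [h]
      apply dvd_add
      · rw [pow_succ]; exact mul_dvd_mul (ih (by omega)) hw
      · exact (pow_dvd_pow X hm).trans hρ
  exact key N le_rfl

lemma Ex_unique {y g : k⟦X⟧} (hg : constantCoeff g = 0) (h : th y = y * th g) :
    y = C (constantCoeff y) * Ex g := by
  rw [← sub_eq_zero]
  apply zero_of_th_eq (w := th g)
  · rw [map_sub, map_mul, constantCoeff_C, constantCoeff_Ex hg, mul_one, sub_self]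
  · exact X_dvd_th g
  · rw [th_sub, th_C_mul, th_Ex hg, h]; ring

lemma Ex_add {g h : k⟦X⟧} (hg : constantCoeff g = 0) (hh : constantCoeff h = 0) :
    Ex (g + h) = Ex g * Ex h := by
  have hgh : constantCoeff (g + h) = 0 := by rw [map_add, hg, hh, add_zero]
  have h1 : th (Ex g * Ex h) = (Ex g * Ex h) * th (g + h) := by
    rw [th_mul, th_Ex hg, th_Ex hh, th_add]; ring
  have h2 := Ex_unique hgh h1
  rw [map_mul, constantCoeff_Ex hg, constantCoeff_Ex hh, mul_one, map_one, one_mul] at h2
  exact h2.symm

lemma Ex_trunc {g : k⟦X⟧} {q S : ℕ} (hq : 0 < q) (hS : 0 < S) (hg : X ^ q ∣ g) :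
    X ^ (q * S) ∣ Ex g - eS S g := by
  have hg0 : constantCoeff g = 0 := by
    rw [X_pow_dvd_iff] at hg
    simpa using hg 0 hq
  have := expo hq hS hg (th_Ex hg0)
  rwa [constantCoeff_Ex hg0, map_one, one_mul] at this

/-- first order expansion of the exponential -/
lemma Ex_first {g : k⟦X⟧} {q : ℕ} (hq : 0 < q) (hg : X ^ q ∣ g) :
    X ^ (q * 2) ∣ Ex g - (1 + g) := by
  have h1 := Ex_trunc hq (S := 2) (by norm_num) hg
  have h2 : eS 2 g = 1 + g := by
    unfold eS
    rw [Finset.sum_range_succ, Finset.sum_range_succ, Finset.sum_range_zero]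
    simp
  rwa [h2] at h1

lemma th_expand {p : ℕ} (hp : p ≠ 0) (U : k⟦X⟧) : th (expand p hp U) = C (p : k) * expand p hp (th U) := by
  ext m
  rw [coeff_th, coeff_C_mul, coeff_expand, coeff_expand]
  split_ifs with h
  · obtain ⟨q, rfl⟩ := h
    rw [Nat.mul_div_cancel_left _ (Nat.pos_of_ne_zero hp), coeff_th]
    push_cast; ring
  · simp

lemma th_map {l : Type*} [Field l] (φ : k →+* l) (U : k⟦X⟧) : th (map φ U) = map φ (th U) := by
  ext n; simp [coeff_th]

lemma X_dvd_expand {p : ℕ} (hp : p ≠ 0) {U : k⟦X⟧} {N : ℕ} (h : X ^ N ∣ U) :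
    X ^ (p * N) ∣ expand p hp U := by
  obtain ⟨V, rfl⟩ := h
  rw [map_mul, map_pow, expand_X, ← pow_mul]
  exact Dvd.intro _ rfl

end exp

variable {K : Type*} [Field K] [NumberField K]

/-- power series with `v`-integral coefficients -/
noncomputable def Ov (v : HeightOneSpectrum (𝓞 K)) : Subring K⟦X⟧ where
  carrier := {U | ∀ k, v.valuation K (coeff k U) ≤ 1}
  mul_mem' := by
    intro U V hU hV k
    rw [coeff_mul]
    refine Valuation.map_sum_le _ ?_
    intro ij _
    rw [map_mul]
    exact mul_le_one' (hU _) (hV _)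
  one_mem' := by
    intro k
    rw [coeff_one]; split_ifs <;> simp
  add_mem' := by
    intro U V hU hV k
    rw [map_add]
    exact Valuation.map_add_le _ (hU k) (hV k)
  zero_mem' := by intro k; simp
  neg_mem' := by
    intro U hU k
    rw [map_neg, Valuation.map_neg]; exact hU k

lemma mem_Ov {v : HeightOneSpectrum (𝓞 K)} {U : K⟦X⟧} :
    U ∈ Ov v ↔ ∀ k, v.valuation K (coeff k U) ≤ 1 := Iff.rfl

lemma C_mem_Ov {v : HeightOneSpectrum (𝓞 K)} {c : K} (hc : v.valuation K c ≤ 1) :
    (C c : K⟦X⟧) ∈ Ov v := by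
  intro k
  rw [coeff_C]; split_ifs
  · exact hc
  · simp

lemma X_mem_Ov {v : HeightOneSpectrum (𝓞 K)} : (X : K⟦X⟧) ∈ Ov v := by
  intro k
  rw [coeff_X]; split_ifs <;> simp

/-- `p^k / k!` -/
lemma val_pow_div_factorial (v : HeightOneSpectrum (𝓞 K)) {i : ℕ} (hi : i ≠ 0) :
    v.valuation K ((rc v : K) ^ i * ((i.factorial : K)⁻¹)) ≤ v.valuation K (rc v : K) := by
  haveI : Fact (rc v).Prime := ⟨rc_prime v⟩
  set p := rc v with hp
  obtain ⟨m, hm1, hm2⟩ : ∃ m, ¬ p ∣ m ∧ i.factorial = p ^ (padicValNat p i.factorial) * m := by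
    obtain ⟨m, hm⟩ := pow_padicValNat_dvd (p := p) (n := i.factorial)
    refine ⟨m, ?_, hm⟩
    intro hd
    obtain ⟨m', rfl⟩ := hd
    have h1 : p ^ (padicValNat p i.factorial + 1) ∣ i.factorial := ⟨m', by rw [pow_succ, mul_assoc]; exact hm⟩
    exact pow_succ_padicValNat_not_dvd i.factorial_ne_zero h1
  have hlt : padicValNat p i.factorial < i := by
    have h1 := sub_one_mul_padicValNat_factorial_lt_of_ne_zero (p := p) hi
    have h2 : 1 ≤ p - 1 := by have := (rc_prime v).two_le; omega
    nlinarith
  have hp0 : v.valuation K (p : K) ≠ 0 := by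
    rw [Ne, _root_.map_eq_zero]; exact_mod_cast (rc_prime v).ne_zero
  have h1 : v.valuation K ((i.factorial : ℕ) : K) =
      v.valuation K (p : K) ^ (padicValNat p i.factorial) := by
    conv_lhs => rw [hm2]
    rw [Nat.cast_mul, Nat.cast_pow, map_mul, map_pow, val_nat_eq_one v hm1, mul_one]
  rw [map_mul, map_inv₀, map_pow, h1, ← pow_sub₀ _ hp0 hlt.le]
  obtain ⟨j, hj⟩ : ∃ j, i - padicValNat p i.factorial = j + 1 := ⟨i - padicValNat p i.factorial - 1, by omega⟩
  rw [hj, pow_succ]
  exact mul_le_of_le_one_left' (pow_le_one' (val_nat_le v p) _)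

/-- Frobenius modulo `p` -/
lemma frob_pow (v : HeightOneSpectrum (𝓞 K)) (a : ℕ → K) (ha : ∀ i, v.valuation K (a i) ≤ 1)
    (n : ℕ) : ∃ r ∈ Ov v, (∑ i ∈ Finset.range n, C (a i) * X ^ i) ^ (rc v) =
      ∑ i ∈ Finset.range n, C ((a i) ^ (rc v)) * X ^ (i * rc v) + C (rc v : K) * r := by
  induction n with
  | zero =>
    refine ⟨0, zero_mem _, ?_⟩
    simp [(rc_prime v).ne_zero]
  | succ n ih =>
    obtain ⟨r, hr, hr'⟩ := ih
    have h1 : ∑ i ∈ Finset.range n, C (a i) * X ^ i ∈ Ov v :=
      sum_mem fun i _ => mul_mem (C_mem_Ov (ha i)) (pow_mem X_mem_Ov _)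
    have h2 : C (a n) * X ^ n ∈ Ov v := mul_mem (C_mem_Ov (ha n)) (pow_mem X_mem_Ov _)
    obtain ⟨t, ht⟩ := exists_add_pow_prime_eq (rc_prime v)
      (⟨∑ i ∈ Finset.range n, C (a i) * X ^ i, h1⟩ : Ov v) (⟨C (a n) * X ^ n, h2⟩ : Ov v)
    have ht' := congrArg (fun z : Ov v => (z : K⟦X⟧)) ht
    simp only [Subring.coe_pow, Subring.coe_add, Subring.coe_mul, Subring.coe_natCast] at ht'
    rw [Finset.sum_range_succ, ht', hr', Finset.sum_range_succ]
    refine ⟨r + (∑ i ∈ Finset.range n, C (a i) * X ^ i) * (C (a n) * X ^ n) * (t : K⟦X⟧),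
      add_mem hr (mul_mem (mul_mem h1 h2) t.2), ?_⟩
    rw [mul_pow, ← map_pow, ← pow_mul]
    have : ((rc v : ℕ) : K⟦X⟧) = C (rc v : K) := by simp
    rw [this]
    ring

/-- **Dwork's lemma**, truncated at `p^2` -/
theorem dwork {v : HeightOneSpectrum (𝓞 K)} (hu : Unr v) {τ : K ≃ₐ[ℚ] K} (hτ : FrobAt τ v)
    {s : K⟦X⟧} (hs0 : constantCoeff s = 0) (hs : s ∈ Ov v) (m : ℕ) (hm : m < rc v * rc v) :
    v.valuation K (coeff m (Ex (s + C ((rc v : K)⁻¹) *
      expand (rc v) (rc_prime v).ne_zero (map (τ : K →+* K) s)))) ≤ 1 := by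
  set p := rc v with hpdef
  have hp := rc_prime v
  set E := expand (R := K) p hp.ne_zero with hE
  set T := PowerSeries.map (τ : K →+* K) with hT
  have hpK : (p : K) ≠ 0 := by exact_mod_cast hp.ne_zero
  have hCp : C (p : K) * C ((p : K)⁻¹) = (1 : K⟦X⟧) := by rw [← map_mul, mul_inv_cancel₀ hpK, map_one]
  have hcE : ∀ U : K⟦X⟧, constantCoeff U = 0 → constantCoeff (E U) = 0 := by
    intro U hU; rw [hE, constantCoeff_expand, hU]
  have hcT : ∀ U : K⟦X⟧, constantCoeff U = 0 → constantCoeff (T U) = 0 := by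
    intro U hU
    rw [hT, ← coeff_zero_eq_constantCoeff_apply, coeff_map, coeff_zero_eq_constantCoeff_apply, hU,
      map_zero]
  set g := s + C ((p : K)⁻¹) * E (T s) with hg
  have hg0 : constantCoeff g = 0 := by
    rw [hg, map_add, map_mul, hs0, hcE _ (hcT _ hs0), mul_zero, add_zero]
  set F := Ex g with hF
  have hF0 : constantCoeff F = 1 := constantCoeff_Ex hg0
  have hthF : th F = F * th g := th_Ex hg0
  set G := E (T F) with hG
  set H := Ex (C (p : K) * s) with hH
  have hps0 : constantCoeff (C (p : K) * s) = 0 := by rw [map_mul, hs0, mul_zero]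
  have hthH : th H = H * th (C (p : K) * s) := th_Ex hps0
  have hH0 : constantCoeff H = 1 := constantCoeff_Ex hps0
  have hTC : ∀ c : K, T (C c) = C (τ c) := fun c => by rw [hT, map_C]; rfl
  have hTp : τ ((p : K)⁻¹) = (p : K)⁻¹ := by rw [map_inv₀, map_natCast]
  -- the differential equation of `G`
  have hthG : th G = G * (th (E (T s)) + C (p : K) * E (th (E (T (T s))) * C ((p : K)⁻¹))) := by
    rw [hG, hE, th_expand, ← hE, hT, th_map, ← hT, hthF, hg, th_add, th_C_mul]
    have e1 : th (E (T s)) = C (p : K) * E (th (T s)) := by rw [hE, th_expand]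
    have e2 : T (F * (th s + C ((p : K)⁻¹) * th (E (T s)))) =
        T F * (th (T s) + C ((p : K)⁻¹) * th (E (T (T s)))) := by
      rw [map_mul, map_add, map_mul, hTC, hTp, hT, ← th_map, ← th_map, ← hT]
      congr 4
      ext n
      rw [hT, coeff_map, hE, coeff_expand, coeff_expand]
      split_ifs
      · simp only [coeff_map]
      · exact map_zero _
    rw [e2, map_mul, map_add, e1]
    have e3 : E (C ((p : K)⁻¹) * th (E (T (T s)))) = E (th (E (T (T s))) * C ((p : K)⁻¹)) := by
      rw [mul_comm]
    rw [e3]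
    ring
  have hρ : X ^ (p * p) ∣ C (p : K) * E (th (E (T (T s))) * C ((p : K)⁻¹)) := by
    apply Dvd.dvd.mul_left
    rw [hE]
    apply X_dvd_expand
    rw [← hE]
    apply Dvd.dvd.mul_right
    apply dvd_th
    have : (X : K⟦X⟧) ^ 1 ∣ T (T s) := by
      rw [pow_one, X_dvd_iff]; exact hcT _ (hcT _ hs0)
    have := X_dvd_expand hp.ne_zero this
    rwa [mul_one] at this
  -- comparison
  have hG0 : constantCoeff G = 1 := by
    rw [hG, hE, constantCoeff_expand, hT, ← coeff_zero_eq_constantCoeff_apply, coeff_map,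
      coeff_zero_eq_constantCoeff_apply, hF0, map_one]
  have hcmp : X ^ (p * p) ∣ F ^ p - G * H := by
    obtain ⟨p', hp'⟩ := Nat.exists_eq_succ_of_ne_zero hp.ne_zero
    have hthFp : th (F ^ p) = C (p : K) * F ^ p * th g := by
      rw [← hpdef] at hp'
      rw [hp', Nat.succ_eq_add_one, th_pow_succ, hthF]
      push_cast
      ring
    refine dvd_of_th_eq (w := th (C (p : K) * s) + th (E (T s)))
      (ρ := - (G * H * (C (p : K) * E (th (E (T (T s))) * C ((p : K)⁻¹))))) ?_ ?_ ?_ ?_
    · rw [map_sub, map_pow, map_mul, hF0, hG0, hH0, one_pow, mul_one, sub_self]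
    · exact dvd_add (X_dvd_th _) (X_dvd_th _)
    · rw [dvd_neg]; exact Dvd.dvd.mul_left hρ _
    · rw [th_sub, th_mul, hthFp, hthG, hthH, hg, th_add, th_C_mul, th_C_mul]
      linear_combination (F ^ p * th (E (T s))) * hCp
  -- `H = 1` modulo `p`
  have hHv : ∀ j, j ≠ 0 → v.valuation K (coeff j H) ≤ v.valuation K (p : K) := by
    intro j hj
    have h1 : X ^ (1 * (j + 1)) ∣ H - eS (j + 1) (C (p : K) * s) :=
      Ex_trunc one_pos (Nat.succ_pos j) (by rw [pow_one, X_dvd_iff]; exact hps0)
    rw [one_mul, X_pow_dvd_iff] at h1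
    have h2 := h1 j (Nat.lt_succ_self j)
    rw [map_sub, sub_eq_zero] at h2
    rw [h2]
    unfold eS
    rw [map_sum]
    refine Valuation.map_sum_le _ fun i _ => ?_
    rw [coeff_C_mul, mul_pow, ← map_pow, coeff_C_mul]
    by_cases hi : i = 0
    · subst hi
      rw [pow_zero, pow_zero, coeff_one, if_neg hj, mul_zero, mul_zero, map_zero]
      exact zero_le
    · rw [← mul_assoc, map_mul, mul_comm ((i.factorial : K)⁻¹)]
      calc v.valuation K ((p : K) ^ i * ((i.factorial : K)⁻¹)) * v.valuation K (coeff j (s ^ i))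
          ≤ v.valuation K (p : K) * 1 := by
            gcongr
            · exact val_pow_div_factorial v hi
            · exact (pow_mem hs i) j
        _ = _ := mul_one _
  -- the induction
  have hunr : ∀ x : K, v.valuation K x ≤ 1 → v.valuation K (τ x - x ^ p) ≤ v.valuation K (p : K) :=
    fun x hx => hu _ (frob_val hτ hx).2
  have hp1 : v.valuation K (p : K) < 1 := val_rc_lt v
  have hpv0 : v.valuation K (p : K) ≠ 0 := by rw [Ne, _root_.map_eq_zero]; exact hpK
  have hGc : ∀ j, coeff j G = if p ∣ j then τ (coeff (j / p) F) else 0 := by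
    intro j
    rw [hG, hE, coeff_expand, hT]
    simp only [coeff_map]; rfl
  induction m using Nat.strong_induction_on with
  | _ m ih =>
    rcases Nat.eq_zero_or_pos m with h0 | h0
    · subst h0
      rw [coeff_zero_eq_constantCoeff_apply, hF0, map_one]
    have ih' : ∀ i, i < m → v.valuation K (coeff i F) ≤ 1 := fun i hi => ih i hi (by omega)
    set A : K⟦X⟧ := ∑ i ∈ Finset.range m, C (coeff i F) * X ^ i with hA
    set a : ℕ → K := fun i => if i < m then coeff i F else 0 with ha
    have hav : ∀ i, v.valuation K (a i) ≤ 1 := by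
      intro i; simp only [ha]; split_ifs with h
      · exact ih' i h
      · simp
    have hAa : A = ∑ i ∈ Finset.range m, C (a i) * X ^ i := by
      rw [hA]
      refine Finset.sum_congr rfl fun i hi => ?_
      simp only [ha]; rw [if_pos (Finset.mem_range.1 hi)]
    have hAc : ∀ i, coeff i A = if i < m then coeff i F else 0 := by
      intro i
      rw [hA, map_sum]
      simp only [coeff_C_mul, coeff_X_pow]
      split_ifs with h
      · rw [Finset.sum_eq_single i]
        · simp
        · intro b _ hb; rw [if_neg (Ne.symm hb), mul_zero]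
        · intro h'; exact absurd (Finset.mem_range.2 h) h'
      · refine Finset.sum_eq_zero fun b hb => ?_
        rw [if_neg, mul_zero]
        rintro rfl
        exact h (Finset.mem_range.1 hb)
    set D := F - A with hD
    have hDX : X ^ m ∣ D := by
      rw [X_pow_dvd_iff]
      intro i hi
      rw [hD, map_sub, hAc, if_pos hi, sub_self]
    have hDm : coeff m D = coeff m F := by
      rw [hD, map_sub, hAc, if_neg (lt_irrefl m), sub_zero]
    have hA0 : constantCoeff A = 1 := by
      rw [← coeff_zero_eq_constantCoeff_apply, hAc, if_pos h0, coeff_zero_eq_constantCoeff_apply, hF0]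
    have hFp : coeff m (F ^ p) = coeff m (A ^ p) + p * coeff m F := by
      obtain ⟨z, hz⟩ := Polynomial.powAddExpansion A D p
      have h1 : F = A + D := by rw [hD]; ring
      rw [h1, hz, map_add, map_add, ← h1]
      have h2 : coeff m (z * D ^ 2) = 0 := by
        have h3 : X ^ (m * 2) ∣ z * D ^ 2 := by
          rw [pow_mul]; exact Dvd.dvd.mul_left (pow_dvd_pow_of_dvd hDX 2) _
        rw [X_pow_dvd_iff] at h3
        exact h3 m (by omega)
      have h4 : coeff m ((p : K⟦X⟧) * A ^ (p - 1) * D) = p * coeff m F := by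
        obtain ⟨D', hD'⟩ := hDX
        have h5 : coeff m D = constantCoeff D' := by
          rw [hD', coeff_X_pow_mul', if_pos le_rfl, Nat.sub_self, coeff_zero_eq_constantCoeff_apply]
        have h6 : (p : K⟦X⟧) * A ^ (p - 1) * D = X ^ m * (C (p : K) * A ^ (p - 1) * D') := by
          rw [hD']
          have : ((p : ℕ) : K⟦X⟧) = C (p : K) := by simp
          rw [this]; ring
        rw [h6, coeff_X_pow_mul', if_pos le_rfl, Nat.sub_self, coeff_zero_eq_constantCoeff_apply,
          map_mul, map_mul, map_pow, hA0, one_pow, mul_one, constantCoeff_C, ← h5, hDm]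
      rw [h2, h4, add_zero]
    have hGH : coeff m (F ^ p) = coeff m G + coeff m (G * (H - 1)) := by
      rw [X_pow_dvd_iff] at hcmp
      have h1 := hcmp m hm
      rw [map_sub, sub_eq_zero] at h1
      rw [h1, ← map_add]
      congr 1; ring
    have hGv : ∀ j, j < m → v.valuation K (coeff j G) ≤ 1 := by
      intro j hj
      rw [hGc]
      split_ifs
      · exact (frob_val hτ (ih' _ (lt_of_le_of_lt (Nat.div_le_self j p) hj))).1
      · simp
    have hGH' : v.valuation K (coeff m (G * (H - 1))) ≤ v.valuation K (p : K) := by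
      rw [coeff_mul]
      refine Valuation.map_sum_le _ fun ij hij => ?_
      have hij' := Finset.HasAntidiagonal.mem_antidiagonal.1 hij
      by_cases hj : ij.2 = 0
      · have : coeff ij.2 (H - 1) = 0 := by
          rw [hj, coeff_zero_eq_constantCoeff_apply, map_sub, hH0, map_one, sub_self]
        rw [this, mul_zero, map_zero]; exact zero_le
      · have h1 : coeff ij.2 (H - 1) = coeff ij.2 H := by
          rw [map_sub, coeff_one, if_neg hj, sub_zero]
        rw [h1, map_mul]
        calc v.valuation K (coeff ij.1 G) * v.valuation K (coeff ij.2 H)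
            ≤ 1 * v.valuation K (p : K) := by
              gcongr
              · exact hGv _ (by omega)
              · exact hHv _ hj
          _ = _ := one_mul _
    have hmp : m / p < m := Nat.div_lt_self h0 hp.one_lt
    have hGA : v.valuation K (coeff m G - coeff m (A ^ p)) ≤ v.valuation K (p : K) := by
      obtain ⟨r, hr, hr'⟩ := frob_pow v a hav m
      rw [← hAa] at hr'
      have h1 : coeff m (A ^ p) = (if p ∣ m then (coeff (m / p) F) ^ p else 0) + p * coeff m r := by
        rw [hr', map_add, coeff_C_mul, map_sum]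
        congr 1
        simp only [coeff_C_mul, coeff_X_pow]
        split_ifs with h
        · obtain ⟨q, hq⟩ := h
          have hq' : m / p = q := by rw [hq, Nat.mul_div_cancel_left _ hp.pos]
          rw [hq'] at hmp ⊢
          rw [Finset.sum_eq_single q]
          · rw [if_pos (by rw [hq, mul_comm]), mul_one]
            simp only [ha]; rw [if_pos hmp]
          · intro b _ hb
            rw [if_neg, mul_zero]
            intro h2
            apply hb
            rw [hq, mul_comm p q] at h2
            exact (Nat.eq_of_mul_eq_mul_right hp.pos h2).symm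
          · intro h'; exact absurd (Finset.mem_range.2 hmp) h'
        · refine Finset.sum_eq_zero fun b _ => ?_
          rw [if_neg, mul_zero]
          intro h2
          exact h ⟨b, by rw [h2, mul_comm]⟩
      rw [hGc, h1]
      have h2 : v.valuation K (p * coeff m r) ≤ v.valuation K (p : K) := by
        rw [map_mul]; exact mul_le_of_le_one_right' (hr m)
      have h3 : v.valuation K ((if p ∣ m then τ (coeff (m / p) F) else 0) -
          (if p ∣ m then (coeff (m / p) F) ^ p else 0)) ≤ v.valuation K (p : K) := by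
        split_ifs
        · exact hunr _ (ih' _ hmp)
        · rw [sub_self, map_zero]; exact zero_le
      have h4 : (if p ∣ m then τ (coeff (m / p) F) else 0) -
          ((if p ∣ m then (coeff (m / p) F) ^ p else 0) + p * coeff m r) =
          ((if p ∣ m then τ (coeff (m / p) F) else 0) -
          (if p ∣ m then (coeff (m / p) F) ^ p else 0)) - p * coeff m r := by ring
      rw [h4]
      exact (Valuation.map_sub _ _ _).trans (max_le h3 h2)
    have hfin : (p : K) * coeff m F = (coeff m G - coeff m (A ^ p)) + coeff m (G * (H - 1)) := by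
      linear_combination hGH - hFp
    have h5 : v.valuation K ((p : K) * coeff m F) ≤ v.valuation K (p : K) := by
      rw [hfin]; exact Valuation.map_add_le _ hGA hGH'
    rw [map_mul] at h5
    have h6 : v.valuation K (p : K) * v.valuation K (coeff m F) ≤ v.valuation K (p : K) * 1 := by
      rwa [mul_one]
    exact (mul_le_mul_iff_of_pos_left (zero_lt_iff.2 hpv0)).1 h6

end Run7.h131.LL
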