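import Mathlib

/-!
# Extension of derivations in characteristic zero
-/

set_option autoImplicit false

namespace Run7.h131.LL

theorem lift_aux {A L B : Type*} [CommRing A] [CommRing L] [CommRing B] [Algebra A L]
    [Algebra.FormallySmooth A L] (φ : A →+* B) (g : B →+* L) (hg : Function.Surjective g)
    (hker : IsNilpotent (RingHom.ker g)) (hc : g.comp φ = algebraMap A L) :
    ∃ Φ : L →+* B, (∀ x, g (Φ x) = x) ∧ ∀ a, Φ (algebraMap A L a) = φ a := by
  letI : Algebra A B := φ.toAlgebra
  let g' : B →ₐ[A] L := { g with commutes' := fun a => RingHom.congr_fun hc a }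
  have hg' : Function.Surjective g' := hg
  have hker' : IsNilpotent (RingHom.ker (g' : B →+* L)) := hker
  let Φ : L →ₐ[A] B := Algebra.FormallySmooth.liftOfSurjective (AlgHom.id A L) g' hg' hker'
  refine ⟨Φ, fun x => Algebra.FormallySmooth.liftOfSurjective_apply (AlgHom.id A L) g' hg' hker' x,
    fun a => ?_⟩
  exact Φ.commutes a

/-- a field of characteristic zero is formally smooth over every subfield -/
theorem fs_field (F L : Type*) [Field F] [Field L] [Algebra F L] [CharZero L] :
    Algebra.FormallySmooth F L := by
  haveI : CharZero F := (algebraMap F L).charZero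
  obtain ⟨s, hs⟩ := exists_isTranscendenceBasis F L
  have halg := hs.isAlgebraic_field
  haveI : Algebra.IsSeparable (IntermediateField.adjoin F (Set.range ((↑) : s → L))) L :=
    inferInstance
  exact Algebra.FormallySmooth.of_algebraicIndependent_of_isSeparable hs.1

/-- a field of characteristic zero is formally smooth over every subring -/
theorem fs_ring (A L : Type*) [CommRing A] [IsDomain A] [Field L] [Algebra A L]
    [FaithfulSMul A L] [CharZero L] : Algebra.FormallySmooth A L := by
  letI := FractionRing.liftAlgebra A L
  haveI : Algebra.FormallySmooth (FractionRing A) L := fs_field _ _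
  haveI : Algebra.FormallyEtale A (FractionRing A) :=
    Algebra.FormallyEtale.of_isLocalization (nonZeroDivisors _)
  exact Algebra.FormallySmooth.comp A (FractionRing A) L

/-- Extension of derivations: a derivation of a ring `R` along a ring homomorphism `φ` to a field of
characteristic zero, which kills the kernel of `φ`, extends to a derivation of the field. -/
theorem exists_ext {R L : Type*} [CommRing R] [Field L] [CharZero L] (φ : R →+* L) (d : R → L)
    (hadd : ∀ a b, d (a + b) = d a + d b) (hmul : ∀ a b, d (a * b) = φ a * d b + φ b * d a)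
    (hker : ∀ a, φ a = 0 → d a = 0) : ∃ D : Derivation ℤ L L, ∀ a, D (φ a) = d a := by
  classical
  let A : Subring L := φ.range
  have hd0 : d 0 = 0 := hker 0 (map_zero φ)
  have hneg : ∀ a, d (-a) = - d a := by
    intro a
    have := hadd a (-a)
    rw [add_neg_cancel, hd0] at this
    exact (neg_eq_of_add_eq_zero_right this.symm).symm
  have hwd : ∀ a b, φ a = φ b → d a = d b := by
    intro a b h
    have h1 : d (a + -b) = 0 := hker _ (by rw [map_add, map_neg, h, add_neg_cancel])
    rw [hadd, hneg] at h1
    exact sub_eq_zero.1 (by rw [sub_eq_add_neg]; exact h1)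
  have hd1 : d 1 = 0 := by
    have := hmul 1 1
    rw [mul_one, map_one, one_mul] at this
    exact (add_eq_left.1 this.symm)
  have hpre : ∀ a : A, ∃ r : R, φ r = a := fun a => a.2
  choose pre hpre using hpre
  let ψ : A →+* TrivSqZeroExt L L :=
    { toFun := fun a => TrivSqZeroExt.inl (a : L) + TrivSqZeroExt.inr (d (pre a))
      map_one' := by
        have h : d (pre 1) = 0 := by
          rw [← hd1]; apply hwd; rw [hpre, map_one]; rfl
        rw [h]; simp
      map_zero' := by
        have h : d (pre 0) = 0 := by
          apply hker; rw [hpre]; rfl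
        rw [h]; simp
      map_add' := by
        intro a b
        have h : d (pre (a + b)) = d (pre a) + d (pre b) := by
          rw [← hadd]; apply hwd; rw [map_add, hpre, hpre, hpre]; rfl
        rw [h]
        ext <;> simp
      map_mul' := by
        intro a b
        have h : d (pre (a * b)) = (a : L) * d (pre b) + (b : L) * d (pre a) := by
          have h1 := hmul (pre a) (pre b)
          rw [hpre, hpre] at h1
          rw [← h1]; apply hwd; rw [map_mul, hpre, hpre, hpre]; rfl
        rw [h]
        ext
        · simp
        · simp [mul_comm] }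
  let g : TrivSqZeroExt L L →+* L := (TrivSqZeroExt.fstHom L L L).toRingHom
  have hg : Function.Surjective g := fun x => ⟨TrivSqZeroExt.inl x, rfl⟩
  have hker' : IsNilpotent (RingHom.ker g) := by
    refine ⟨2, ?_⟩
    have e2 : RingHom.ker g ^ 2 = RingHom.ker g * RingHom.ker g := sq _
    rw [e2, Ideal.zero_eq_bot, eq_bot_iff, Ideal.mul_le]
    intro a ha b hb
    have ha' : a.fst = 0 := ha
    have hb' : b.fst = 0 := hb
    rw [Ideal.mem_bot]
    ext
    · simp [ha']
    · simp [ha', hb']
  haveI : Algebra.FormallySmooth A L := fs_ring A L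
  obtain ⟨Φ, hΦ', hΦA⟩ := lift_aux (A := A) (L := L) ψ g hg hker' (by
    ext a
    change (TrivSqZeroExt.inl (a : L) + TrivSqZeroExt.inr (d (pre a)) : TrivSqZeroExt L L).fst = _
    simp; rfl)
  have hΦ : ∀ x, (Φ x).fst = x := hΦ'
  let D₀ : L →ₗ[ℤ] L :=
    { toFun := fun x => (Φ x).snd
      map_add' := fun a b => by simp
      map_smul' := fun c a => by
        rw [zsmul_eq_mul, map_mul, map_intCast, TrivSqZeroExt.snd_mul]
        simp }
  refine ⟨Derivation.mk' D₀ ?_, ?_⟩
  · intro a b
    change (Φ (a * b)).snd = a • (Φ b).snd + b • (Φ a).snd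
    rw [map_mul, TrivSqZeroExt.snd_mul, hΦ, hΦ]
    simp [mul_comm]
  · intro a
    change (Φ (φ a)).snd = d a
    have h1 : Φ (φ a) = ψ ⟨φ a, ⟨a, rfl⟩⟩ := hΦA ⟨φ a, ⟨a, rfl⟩⟩
    rw [h1]
    change (TrivSqZeroExt.inl (φ a) + TrivSqZeroExt.inr (d (pre ⟨φ a, ⟨a, rfl⟩⟩)) :
      TrivSqZeroExt L L).snd = _
    simp only [TrivSqZeroExt.snd_add, TrivSqZeroExt.snd_inl, TrivSqZeroExt.snd_inr, zero_add]
    apply hwd
    rw [hpre]

/-- a derivation killing the image of a ring `k` is `k`-linear -/
def mkLin {k L : Type*} [CommRing k] [CommRing L] [Algebra k L] (D : Derivation ℤ L L)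
    (h : ∀ c : k, D (algebraMap k L c) = 0) : Derivation k L L :=
  Derivation.mk' { toFun := D
                   map_add' := map_add D
                   map_smul' := fun c a => by
                     rw [Algebra.smul_def, Derivation.leibniz, h, smul_zero, add_zero, smul_eq_mul,
                       RingHom.id_apply, Algebra.smul_def] } (fun a b => D.leibniz a b)

@[simp] lemma mkLin_apply {k L : Type*} [CommRing k] [CommRing L] [Algebra k L]
    (D : Derivation ℤ L L) (h : ∀ c : k, D (algebraMap k L c) = 0) (x : L) :
    mkLin D h x = D x := rfl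

/-- extension of derivations, linear version -/
theorem exists_ext_lin {k R L : Type*} [CommRing k] [CommRing R] [Field L] [CharZero L]
    [Algebra k R] [Algebra k L] (φ : R →ₐ[k] L) (d : R → L)
    (hadd : ∀ a b, d (a + b) = d a + d b) (hmul : ∀ a b, d (a * b) = φ a * d b + φ b * d a)
    (hC : ∀ c : k, d (algebraMap k R c) = 0)
    (hker : ∀ a, φ a = 0 → d a = 0) : ∃ D : Derivation k L L, ∀ a, D (φ a) = d a := by
  obtain ⟨D, hD⟩ := exists_ext (φ : R →+* L) d hadd hmul hker
  refine ⟨mkLin D (fun c => ?_), fun a => hD a⟩
  have : algebraMap k L c = (φ : R →+* L) (algebraMap k R c) := (φ.commutes c).symm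
  rw [this, hD, hC]

/-- A derivation which kills a subring kills the elements algebraic over it. -/
theorem alg_kill {L : Type*} [Field L] [CharZero L] (D : Derivation ℤ L L) {A : Type*} [CommRing A]
    [IsDomain A] [Algebra A L] [FaithfulSMul A L] (hA : ∀ a : A, D (algebraMap A L a) = 0) {x : L}
    (hx : IsAlgebraic A x) : D x = 0 := by
  classical
  have hinj := FaithfulSMul.algebraMap_injective A L
  have hc : CharZero A := by
    refine ⟨fun m n h => ?_⟩
    have h1 := congrArg (algebraMap A L) h
    rw [map_natCast, map_natCast] at h1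
    exact_mod_cast h1
  have key : ∀ (n : ℕ) (P : Polynomial A), P.natDegree ≤ n → P ≠ 0 → Polynomial.aeval x P = 0 →
      D x = 0 := by
    intro n
    induction n with
    | zero =>
      intro P hn hP h0
      exfalso
      have h1 := Polynomial.eq_C_of_natDegree_le_zero hn
      rw [h1, Polynomial.aeval_C] at h0
      apply hP
      rw [h1, (map_eq_zero_iff _ hinj).1 h0, map_zero]
    | succ n ih =>
      intro P hn hP h0
      have h1 : Polynomial.aeval x (Polynomial.derivative P) • mkLin D hA x = 0 := by
        rw [← Derivation.map_aeval, h0, map_zero]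
      rw [smul_eq_mul, mkLin_apply] at h1
      rcases mul_eq_zero.1 h1 with h2 | h2
      · by_cases h3 : Polynomial.derivative P = 0
        · exfalso
          have h4 := Polynomial.natDegree_eq_zero_of_derivative_eq_zero h3
          have h5 := Polynomial.eq_C_of_natDegree_eq_zero h4
          rw [h5, Polynomial.aeval_C] at h0
          apply hP
          rw [h5, (map_eq_zero_iff _ hinj).1 h0, map_zero]
        · refine ih _ ?_ h3 h2
          have := Polynomial.natDegree_derivative_le P
          omega
      · exact h2
  obtain ⟨P, hP, h0⟩ := hx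
  exact key _ P le_rfl hP h0

/-- A derivation which kills a set kills the elements algebraic over the ring generated by it. -/
theorem alg_kill_adjoin {k L : Type*} [Field k] [Field L] [CharZero L] [Algebra k L]
    (D : Derivation k L L) (s : Set L) (hs : ∀ a ∈ s, D a = 0) {x : L}
    (hx : IsAlgebraic (Algebra.adjoin k s) x) : D x = 0 := by
  have hA : ∀ a : Algebra.adjoin k s, D.restrictScalars ℤ (algebraMap (Algebra.adjoin k s) L a) = 0 := by
    intro a
    have h2 := a.2
    change D (a : L) = 0
    refine Algebra.adjoin_induction (p := fun y _ => D y = 0) ?_ ?_ ?_ ?_ h2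
    · intro y hy; exact hs y hy
    · intro c; exact D.map_algebraMap c
    · intro y z _ _ hy hz; rw [map_add, hy, hz, add_zero]
    · intro y z _ _ hy hz; rw [Derivation.leibniz, hy, hz, smul_zero, smul_zero, add_zero]
  exact alg_kill (D.restrictScalars ℤ) hA hx

end Run7.h131.LL
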