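import Mathlib
import Pool.Agent.Run7.h131.LL.DerExt

/-!
# The fraction field of the ring of power series, with its derivation
-/

set_option autoImplicit false
open PowerSeries

namespace Run7.h131.LL

variable (k : Type*) [Field k]

/-- the fraction field of `k⟦X⟧` -/
abbrev FL := FractionRing k⟦X⟧

variable {k}

/-- the inclusion of the power series -/
noncomputable abbrev jj : k⟦X⟧ →+* FL k := algebraMap k⟦X⟧ (FL k)

lemma jj_inj : Function.Injective (jj (k := k)) := IsFractionRing.injective _ _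

lemma jj_eq_zero {g : k⟦X⟧} : jj g = 0 ↔ g = 0 := map_eq_zero_iff _ jj_inj

lemma jX_ne : jj (X : k⟦X⟧) ≠ 0 := by
  rw [Ne, jj_eq_zero]; exact X_ne_zero

lemma jj_C (c : k) : jj (C c : k⟦X⟧) = algebraMap k (FL k) c := by
  rw [IsScalarTower.algebraMap_apply k k⟦X⟧ (FL k)]; rfl

instance [CharZero k] : CharZero (FL k) :=
  charZero_of_injective_algebraMap (algebraMap k (FL k)).injective

lemma unit_inv {u : k⟦X⟧} (hu : constantCoeff u ≠ 0) : jj u * jj u⁻¹ = 1 := by
  rw [← map_mul, PowerSeries.mul_inv_cancel _ hu, map_one]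

lemma jj_inv {u : k⟦X⟧} (hu : constantCoeff u ≠ 0) : jj u⁻¹ = (jj u)⁻¹ :=
  eq_inv_of_mul_eq_one_right (unit_inv hu)

lemma split_order {U : k⟦X⟧} (hU : U ≠ 0) :
    ∃ (m : ℕ) (W : k⟦X⟧), constantCoeff W ≠ 0 ∧ U = X ^ m * W := by
  refine ⟨U.order.toNat, divXPowOrder U, ?_, (U.X_pow_order_mul_divXPowOrder).symm⟩
  simpa using constantCoeff_divXPowOrder_eq_zero_iff.not.mpr hU

lemma exists_zpow {y : FL k} (hy : y ≠ 0) :
    ∃ (m : ℤ) (u : k⟦X⟧), constantCoeff u ≠ 0 ∧ y = (jj X) ^ m * jj u := by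
  obtain ⟨a, b, hb, rfl⟩ := IsFractionRing.div_surjective (A := k⟦X⟧) y
  have hb0 : b ≠ 0 := nonZeroDivisors.ne_zero hb
  have ha0 : a ≠ 0 := by
    rintro rfl; apply hy; rw [map_zero, zero_div]
  obtain ⟨p, a', ha', rfl⟩ := split_order ha0
  obtain ⟨q, b', hb', rfl⟩ := split_order hb0
  refine ⟨(p : ℤ) - q, a' * b'⁻¹, ?_, ?_⟩
  · rw [map_mul, constantCoeff_inv]
    exact mul_ne_zero ha' (inv_ne_zero hb')
  · have h1 := unit_inv hb'
    have h2 : jj b' ≠ 0 := left_ne_zero_of_mul_eq_one h1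
    rw [map_mul, map_mul, map_mul, map_pow, map_pow, zpow_sub₀ jX_ne, zpow_natCast, zpow_natCast,
      jj_inv hb']
    field_simp

lemma exists_pow_mul (y : FL k) : ∃ (N : ℕ) (h : k⟦X⟧), (jj X) ^ N * y = jj h := by
  obtain ⟨a, b, hb, rfl⟩ := IsFractionRing.div_surjective (A := k⟦X⟧) y
  have hb0 : b ≠ 0 := nonZeroDivisors.ne_zero hb
  obtain ⟨q, b', hb', rfl⟩ := split_order hb0
  refine ⟨q, a * b'⁻¹, ?_⟩
  have h1 := unit_inv hb'
  have h2 : jj b' ≠ 0 := left_ne_zero_of_mul_eq_one h1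
  rw [map_mul, map_mul, map_pow, jj_inv hb']
  have := jX_ne (k := k)
  field_simp

section der

variable [CharZero k]

lemma exists_DD : ∃ D : Derivation k (FL k) (FL k), ∀ g : k⟦X⟧, D (jj g) = jj (d⁄dX k g) := by
  obtain ⟨D, hD⟩ := exists_ext_lin (k := k) (R := k⟦X⟧) (L := FL k)
    (IsScalarTower.toAlgHom k k⟦X⟧ (FL k)) (fun g => jj (d⁄dX k g))
    (fun a b => by rw [map_add, map_add])
    (fun a b => by
      rw [Derivation.leibniz, map_add, smul_eq_mul, smul_eq_mul, map_mul, map_mul]; rfl)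
    (fun c => by
      have : algebraMap k k⟦X⟧ c = C c := rfl
      rw [this, derivative_C, map_zero])
    (fun a ha => by
      have : a = 0 := jj_eq_zero.1 ha
      rw [this, map_zero, map_zero])
  exact ⟨D, hD⟩

/-- the derivation extending `d/dX` -/
noncomputable def DD : Derivation k (FL k) (FL k) := (exists_DD (k := k)).choose

lemma DD_jj (g : k⟦X⟧) : DD (jj g) = jj (d⁄dX k g) := (exists_DD (k := k)).choose_spec g

lemma DD_X : DD (jj (X : k⟦X⟧)) = 1 := by rw [DD_jj, derivative_X, map_one]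

lemma DD_zpow (m : ℤ) : DD ((jj (X : k⟦X⟧)) ^ m) = (m : FL k) * (jj X) ^ (m - 1) := by
  have h0 := jX_ne (k := k)
  have hn : ∀ n : ℕ, DD ((jj (X : k⟦X⟧)) ^ n) * jj X = (n : FL k) * (jj X) ^ n := by
    intro n
    induction n with
    | zero => simp
    | succ n ih =>
      rw [pow_succ, Derivation.leibniz, DD_X, smul_eq_mul, smul_eq_mul, add_mul, mul_assoc (jj X), ih]
      push_cast; ring
  have key : DD ((jj (X : k⟦X⟧)) ^ m) * jj X = (m : FL k) * (jj X) ^ m := by
    rcases m with n | n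
    · simpa using hn n
    · have h1 : DD ((jj (X : k⟦X⟧)) ^ (n + 1) * ((jj X) ^ (n + 1))⁻¹) = 0 := by
        rw [mul_inv_cancel₀ (pow_ne_zero _ h0), Derivation.map_one_eq_zero]
      rw [Derivation.leibniz, smul_eq_mul, smul_eq_mul] at h1
      have h2 := hn (n + 1)
      have h3 : (jj (X : k⟦X⟧)) ^ (n + 1) ≠ 0 := pow_ne_zero _ h0
      rw [Int.negSucc_eq, zpow_neg]
      have h4 : (jj (X : k⟦X⟧)) ^ ((n : ℤ) + 1) = (jj X) ^ (n + 1) := by
        rw [← zpow_natCast]; push_cast; rfl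
      rw [h4]
      apply mul_left_cancel₀ h3
      have h5 : (jj (X : k⟦X⟧)) ^ (n + 1) * (DD ((jj X) ^ (n + 1))⁻¹) =
          -(((jj X) ^ (n + 1))⁻¹ * DD ((jj X) ^ (n + 1))) := by
        linear_combination h1
      rw [← mul_assoc, h5]
      field_simp
      push_cast at h2 ⊢
      linear_combination (-1 : FL k) * h2
  apply mul_right_cancel₀ h0
  rw [key, mul_assoc, ← zpow_add_one₀ h0, sub_add_cancel]

/-- the constants of the derivation -/
lemma const_of_DD {y : FL k} (h : DD y = 0) : ∃ c : k, y = algebraMap k (FL k) c := by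
  by_cases hy : y = 0
  · exact ⟨0, by rw [hy, map_zero]⟩
  obtain ⟨m, u, hu, rfl⟩ := exists_zpow hy
  have h0 := jX_ne (k := k)
  rw [Derivation.leibniz, DD_zpow, DD_jj, smul_eq_mul, smul_eq_mul] at h
  have h1 : jj (C (m : k) * u + X * d⁄dX k u) = 0 := by
    have e : jj (C (m : k) * u + X * d⁄dX k u) = (jj X) ^ (1 - m) *
        ((jj X) ^ m * jj (d⁄dX k u) + jj u * ((m : FL k) * (jj X) ^ (m - 1))) := by
      have e1 : (jj (X : k⟦X⟧)) ^ (1 - m) * (jj X) ^ m = jj X := by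
        rw [← zpow_add₀ h0, sub_add_cancel, zpow_one]
      have e2 : (jj (X : k⟦X⟧)) ^ (1 - m) * (jj X) ^ (m - 1) = 1 := by
        rw [← zpow_add₀ h0]; simp
      have e3 : jj (C (m : k)) = (m : FL k) := by
        rw [jj_C, map_intCast]
      rw [map_add, map_mul, map_mul, e3, mul_add]
      linear_combination (-(jj (d⁄dX k u))) * e1 - (jj u * (m : FL k)) * e2
    rw [e, h, mul_zero]
  rw [jj_eq_zero] at h1
  have h2 := congrArg constantCoeff h1
  simp only [map_add, map_mul, constantCoeff_C, constantCoeff_X, zero_mul, add_zero, map_zero] at h2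
  have hm : m = 0 := by
    have := (mul_eq_zero.1 h2).resolve_right hu
    exact_mod_cast this
  subst hm
  rw [Int.cast_zero, map_zero, zero_mul, zero_add] at h1
  have h3 : d⁄dX k u = 0 := (mul_eq_zero.1 h1).resolve_left X_ne_zero
  refine ⟨constantCoeff u, ?_⟩
  rw [zpow_zero, one_mul, ← jj_C]
  congr 1
  apply derivative.ext
  · rw [h3, derivative_C]
  · simp

/-- residues -/
lemma residue {ι : Type*} (s : Finset ι) (μ : ι → k) (m : ι → ℤ) (u : ι → k⟦X⟧)
    (hu : ∀ i ∈ s, constantCoeff (u i) ≠ 0) (y : ι → FL k)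
    (hy : ∀ i ∈ s, y i = (jj X) ^ (m i) * jj (u i)) (Y : FL k)
    (h : ∑ i ∈ s, algebraMap k (FL k) (μ i) * (DD (y i) / y i) = DD Y) :
    ∑ i ∈ s, μ i * (m i : k) = 0 := by
  have h0 := jX_ne (k := k)
  have h1 : ∀ i ∈ s, DD (y i) / y i = (m i : FL k) * (jj X)⁻¹ + jj (d⁄dX k (u i) * (u i)⁻¹) := by
    intro i hi
    have e1 := unit_inv (hu i hi)
    have e2 : jj (u i) ≠ 0 := left_ne_zero_of_mul_eq_one e1
    have e3 : (jj (X : k⟦X⟧)) ^ (m i) ≠ 0 := zpow_ne_zero _ h0
    rw [hy i hi, Derivation.leibniz, DD_zpow, DD_jj, smul_eq_mul, smul_eq_mul, map_mul,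
      jj_inv (hu i hi), zpow_sub_one₀ h0]
    field_simp
    ring
  obtain ⟨N, g, hN⟩ := exists_pow_mul Y
  have hY : DD Y * (jj X) ^ (N + 1) = jj (X * d⁄dX k g - C (N : k) * g) := by
    have e1 := congrArg DD hN
    rw [Derivation.leibniz, DD_jj, smul_eq_mul, smul_eq_mul] at e1
    have e2 : DD ((jj (X : k⟦X⟧)) ^ N) * jj X = (N : FL k) * (jj X) ^ N := by
      have := DD_zpow (k := k) (N : ℤ)
      rw [zpow_natCast] at this
      rw [this, mul_assoc, ← zpow_add_one₀ h0, sub_add_cancel, zpow_natCast, Int.cast_natCast]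
    have e3 : jj (C (N : k)) = (N : FL k) := by rw [jj_C, map_natCast]
    rw [map_sub, map_mul, map_mul, e3, ← hN, ← e1]
    linear_combination (-Y) * e2
  have h2 : jj (C (∑ i ∈ s, μ i * (m i : k)) * X ^ N +
      X ^ (N + 1) * ∑ i ∈ s, C (μ i) * (d⁄dX k (u i) * (u i)⁻¹)) =
      jj (X * d⁄dX k g - C (N : k) * g) := by
    rw [← hY, ← h, Finset.sum_mul, map_add, map_mul, map_mul, map_pow, map_pow, map_sum, map_sum,
      map_sum, Finset.sum_mul, Finset.mul_sum, ← Finset.sum_add_distrib]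
    refine Finset.sum_congr rfl fun i hi => ?_
    rw [h1 i hi]
    have e3 : jj (C (μ i * (m i : k))) = algebraMap k (FL k) (μ i) * (m i : FL k) := by
      rw [jj_C, map_mul, map_intCast]
    have e4 : jj (C (μ i) * (d⁄dX k (u i) * (u i)⁻¹)) =
        algebraMap k (FL k) (μ i) * jj (d⁄dX k (u i) * (u i)⁻¹) := by
      rw [map_mul, jj_C]
    rw [e3, e4, pow_succ]
    field_simp
  have h3 := jj_inj h2
  have h4 := congrArg (coeff N) h3
  rw [map_add, coeff_C_mul, coeff_X_pow_self, mul_one, map_sub, coeff_C_mul] at h4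
  have h5 : coeff N (X ^ (N + 1) * ∑ i ∈ s, C (μ i) * (d⁄dX k (u i) * (u i)⁻¹)) = 0 := by
    rw [coeff_X_pow_mul', if_neg (by omega)]
  have h6 : coeff N (X * d⁄dX k g) = (N : k) * coeff N g := by
    cases N with
    | zero => simp
    | succ N => rw [coeff_succ_X_mul, coeff_derivative]; push_cast; ring
  rw [h5, h6, add_zero, sub_self] at h4
  exact h4

end der

end Run7.h131.LL
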