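import Mathlib
import Pool.Agent.Run7.h131.LL.Frac

/-!
# Rosenlicht's lemma

`∑ μ_j dB_j / B_j = dA` with `μ_j` linearly independent over the rational numbers is impossible for
transcendental `B_j`.
-/

set_option autoImplicit false
open PowerSeries

namespace Run7.h131.LL

section transfer

variable {κ : Type*} [Field κ] {ι : Type*}

/-- identities between rational functions do not depend on the field in which they are written -/
lemma transfer (s : Finset ι) (μ : ι → κ) (p q : ι → Polynomial κ) (R S : Polynomial κ)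
    {M M' : Type*} [Field M] [Field M'] (φ : Polynomial κ →+* M) (hφ : Function.Injective φ)
    (φ' : Polynomial κ →+* M') (hφ' : Function.Injective φ')
    (h : ∑ j ∈ s, φ (Polynomial.C (μ j)) * (φ (Polynomial.derivative (p j)) / φ (p j) -
        φ (Polynomial.derivative (q j)) / φ (q j)) =
      (φ (Polynomial.derivative R) * φ S - φ R * φ (Polynomial.derivative S)) / (φ S) ^ 2) :
    ∑ j ∈ s, φ' (Polynomial.C (μ j)) * (φ' (Polynomial.derivative (p j)) / φ' (p j) -
        φ' (Polynomial.derivative (q j)) / φ' (q j)) =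
      (φ' (Polynomial.derivative R) * φ' S - φ' R * φ' (Polynomial.derivative S)) / (φ' S) ^ 2 := by
  let F := FractionRing (Polynomial κ)
  let a : Polynomial κ →+* F := algebraMap _ _
  let l : F →+* M := IsFractionRing.lift hφ
  let l' : F →+* M' := IsFractionRing.lift hφ'
  have hl : ∀ x, l (a x) = φ x := fun x => IsFractionRing.lift_algebraMap hφ x
  have hl' : ∀ x, l' (a x) = φ' x := fun x => IsFractionRing.lift_algebraMap hφ' x
  have key : ∑ j ∈ s, a (Polynomial.C (μ j)) * (a (Polynomial.derivative (p j)) / a (p j) -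
        a (Polynomial.derivative (q j)) / a (q j)) =
      (a (Polynomial.derivative R) * a S - a R * a (Polynomial.derivative S)) / (a S) ^ 2 := by
    apply l.injective
    simp only [map_sum, map_mul, map_sub, map_div₀, map_pow, hl]
    exact h
  have := congrArg l' key
  simp only [map_sum, map_mul, map_sub, map_div₀, map_pow, hl'] at this
  exact this

end transfer

section basics

/-- the field of constants of a derivation -/
def constField {k Ω : Type*} [Field k] [Field Ω] [Algebra k Ω] (D : Derivation k Ω Ω) :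
    IntermediateField k Ω where
  carrier := {x | D x = 0}
  mul_mem' := by
    intro a b ha hb
    change D (a * b) = 0
    have ha' : D a = 0 := ha
    have hb' : D b = 0 := hb
    rw [Derivation.leibniz, ha', hb', smul_zero, smul_zero, add_zero]
  one_mem' := D.map_one_eq_zero
  add_mem' := by
    intro a b ha hb
    change D (a + b) = 0
    have ha' : D a = 0 := ha
    have hb' : D b = 0 := hb
    rw [map_add, ha', hb', add_zero]
  zero_mem' := map_zero D
  algebraMap_mem' := fun c => D.map_algebraMap c
  inv_mem' := by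
    intro a ha
    change D a⁻¹ = 0
    have ha' : D a = 0 := ha
    rw [Derivation.leibniz_inv, ha', smul_zero]

lemma mem_constField {k Ω : Type*} [Field k] [Field Ω] [Algebra k Ω] (D : Derivation k Ω Ω) (x : Ω) :
    x ∈ constField D ↔ D x = 0 := Iff.rfl

/-- `D` as a derivation over its constants -/
def overConst {k Ω : Type*} [Field k] [Field Ω] [Algebra k Ω] (D : Derivation k Ω Ω) :
    Derivation (constField D) Ω Ω :=
  mkLin (D.restrictScalars ℤ) (fun c => c.2)

lemma overConst_apply {k Ω : Type*} [Field k] [Field Ω] [Algebra k Ω] (D : Derivation k Ω Ω)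
    (x : Ω) : overConst D x = D x := rfl

lemma logder_prod {k Ω : Type*} [Field k] [Field Ω] [Algebra k Ω] (D : Derivation k Ω Ω)
    {ι : Type*} (s : Finset ι) (f : ι → Ω) (hf : ∀ i ∈ s, f i ≠ 0) :
    D (∏ i ∈ s, f i) / ∏ i ∈ s, f i = ∑ i ∈ s, D (f i) / f i := by
  classical
  induction s using Finset.induction_on with
  | empty => simp
  | insert a s ha ih =>
    have h1 : f a ≠ 0 := hf a (by simp)
    have h2 : ∏ i ∈ s, f i ≠ 0 := Finset.prod_ne_zero_iff.2 fun i hi => hf i (by simp [hi])
    rw [Finset.prod_insert ha, Finset.sum_insert ha, ← ih fun i hi => hf i (by simp [hi]),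
      Derivation.leibniz, smul_eq_mul, smul_eq_mul]
    field_simp
    ring

/-- there is a derivation with value one at a transcendental element such that the field is
algebraic over the ring generated by its constants and the element -/
theorem exists_pder {k Ω : Type*} [Field k] [Field Ω] [Algebra k Ω] [CharZero Ω] {t : Ω}
    (ht : Transcendental k t) : ∃ D : Derivation k Ω Ω, D t = 1 ∧
      ∀ x : Ω, IsAlgebraic (Algebra.adjoin (constField D) ({t} : Set Ω)) x := by
  classical
  have hs : AlgebraicIndepOn k id ({t} : Set Ω) := by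
    have := (algebraicIndependent_unique_type_iff (R := k) (A := Ω) (ι := ({t} : Set Ω))
      (x := fun i : ({t} : Set Ω) => (i : Ω))).2 (by
        have h1 : ((default : ({t} : Set Ω)) : Ω) = t := rfl
        rw [h1]; exact ht)
    exact this
  obtain ⟨T, hst, hT⟩ := exists_isTranscendenceBasis_superset hs
  have htT : t ∈ T := hst rfl
  let v : T → Ω := fun i => (i : Ω)
  have hv : AlgebraicIndependent k v := hT.1
  have hv' : IsTranscendenceBasis k v := hT
  obtain ⟨D, hD⟩ := exists_ext_lin (k := k) (R := MvPolynomial T k) (L := Ω)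
    (MvPolynomial.aeval v) (fun P => MvPolynomial.aeval v (MvPolynomial.pderiv ⟨t, htT⟩ P))
    (fun a b => by rw [map_add, map_add])
    (fun a b => by rw [MvPolynomial.pderiv_mul, map_add, map_mul, map_mul]; ring)
    (fun c => by
      have : algebraMap k (MvPolynomial T k) c = MvPolynomial.C c := rfl
      rw [this, MvPolynomial.pderiv_C, map_zero])
    (fun a ha => by
      have : a = 0 := by
        apply hv
        rw [map_zero]; exact ha
      rw [this, map_zero, map_zero])
  have hD1 : D t = 1 := by
    have h1 := hD (MvPolynomial.X ⟨t, htT⟩)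
    rw [MvPolynomial.aeval_X, MvPolynomial.pderiv_X_self, map_one] at h1
    exact h1
  have hD0 : ∀ i : T, (i : Ω) ≠ t → D i = 0 := by
    intro i hi
    have h1 := hD (MvPolynomial.X i)
    rw [MvPolynomial.aeval_X, MvPolynomial.pderiv_X_of_ne (by
      intro h; apply hi; rw [h]), map_zero] at h1
    exact h1
  refine ⟨D, hD1, fun x => ?_⟩
  have halg : Algebra.IsAlgebraic (Algebra.adjoin k (Set.range v)) Ω := hv'.isAlgebraic
  have hx : IsAlgebraic (Algebra.adjoin k (Set.range v)) x := halg.isAlgebraic x
  let A₁ : Subalgebra k Ω := (Algebra.adjoin (constField D) ({t} : Set Ω)).restrictScalars k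
  have hle : Algebra.adjoin k (Set.range v) ≤ A₁ := by
    apply Algebra.adjoin_le
    rintro _ ⟨i, rfl⟩
    change (i : Ω) ∈ Algebra.adjoin (constField D) ({t} : Set Ω)
    by_cases hi : (i : Ω) = t
    · rw [hi]; exact Algebra.subset_adjoin rfl
    · have : (i : Ω) = algebraMap (constField D) Ω ⟨(i : Ω), hD0 i hi⟩ := rfl
      rw [this]; exact Subalgebra.algebraMap_mem _ _
  let inc : Algebra.adjoin k (Set.range v) →ₐ[k] A₁ := Subalgebra.inclusion hle
  letI : Algebra (Algebra.adjoin k (Set.range v)) (Algebra.adjoin (constField D) ({t} : Set Ω)) :=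
    inc.toRingHom.toAlgebra
  haveI : IsScalarTower (Algebra.adjoin k (Set.range v))
      (Algebra.adjoin (constField D) ({t} : Set Ω)) Ω :=
    IsScalarTower.of_algebraMap_eq fun _ => rfl
  refine hx.extendScalars ?_
  exact Subalgebra.inclusion_injective hle

end basics

section main

variable {k Ω : Type*} [Field k] [Field Ω] [Algebra k Ω] [CharZero Ω]

/-- automorphisms commute with the derivation -/
lemma comm_aut (D : Derivation k Ω Ω) {t : Ω} (hDt : D t = 1)
    (halg : ∀ x : Ω, IsAlgebraic (Algebra.adjoin (constField D) ({t} : Set Ω)) x)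
    (F : IntermediateField (constField D) Ω) (htF : t ∈ F) (s : Ω ≃ₐ[F] Ω) (x : Ω) :
    D (s x) = s (D x) := by
  have hsc : ∀ c : constField D, s (c : Ω) = c := fun c => s.commutes (algebraMap (constField D) F c)
  have hsc' : ∀ c : constField D, s.symm (c : Ω) = c := fun c =>
    s.symm.commutes (algebraMap (constField D) F c)
  have hst : s t = t := s.commutes ⟨t, htF⟩
  let D₂ : Derivation ℤ Ω Ω := Derivation.mk'
    { toFun := fun x => s.symm (D (s x)) - D x
      map_add' := fun a b => by simp only [map_add]; ring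
      map_smul' := fun c a => by
        simp only [zsmul_eq_mul, map_mul, map_intCast, Derivation.leibniz, smul_eq_mul,
          Derivation.map_intCast, mul_zero, add_zero, eq_intCast, Int.cast_id]
        ring } (by
      intro a b
      change s.symm (D (s (a * b))) - D (a * b) = a • (s.symm (D (s b)) - D b) +
        b • (s.symm (D (s a)) - D a)
      simp only [map_mul, Derivation.leibniz, smul_eq_mul, map_add, AlgEquiv.symm_apply_apply]
      ring)
  have hD₂ : ∀ x, D₂ x = s.symm (D (s x)) - D x := fun _ => rfl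
  let D₃ : Derivation (constField D) Ω Ω := mkLin D₂ (by
    intro c
    have h1 : algebraMap (constField D) Ω c = c := rfl
    have h2 : D (c : Ω) = 0 := c.2
    rw [h1, hD₂, hsc, h2, map_zero, sub_zero])
  have h3 : D₃ x = 0 := by
    refine alg_kill_adjoin D₃ {t} ?_ (halg x)
    rintro a rfl
    change D₂ a = 0
    rw [hD₂, hst, hDt, map_one, sub_self]
  have h4 : s.symm (D (s x)) - D x = 0 := h3
  rw [sub_eq_zero] at h4
  rw [← h4, AlgEquiv.apply_symm_apply]

variable [IsAlgClosed Ω]

theorem rosenlicht_closed {ι : Type*} [Fintype ι] (μ : ι → k)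
    (hμ : ∀ q : ι → ℤ, ∑ j, μ j * (q j : k) = 0 → q = 0) (B : ι → Ω) (hB : ∀ j, B j ≠ 0) (A : Ω)
    (j₀ : ι) (ht : Transcendental k (B j₀))
    (h : ∀ δ : Derivation k Ω Ω, ∑ j, algebraMap k Ω (μ j) * (δ (B j) / B j) = δ A) : False := by
  classical
  set t := B j₀ with htdef
  obtain ⟨D, hD1, halg⟩ := exists_pder ht
  let κ := constField D
  let F : IntermediateField κ Ω := IntermediateField.adjoin κ {t}
  have htF : t ∈ F := IntermediateField.mem_adjoin_simple_self κ t
  have halgF : Algebra.IsAlgebraic F Ω := by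
    refine ⟨fun x => ?_⟩
    have hx := halg x
    have hle : Algebra.adjoin κ ({t} : Set Ω) ≤ F.toSubalgebra := by
      apply Algebra.adjoin_le
      rintro _ rfl
      exact htF
    let inc : Algebra.adjoin κ ({t} : Set Ω) →ₐ[κ] F.toSubalgebra := Subalgebra.inclusion hle
    letI : Algebra (Algebra.adjoin κ ({t} : Set Ω)) F := inc.toRingHom.toAlgebra
    haveI : IsScalarTower (Algebra.adjoin κ ({t} : Set Ω)) F Ω :=
      IsScalarTower.of_algebraMap_eq fun _ => rfl
    exact hx.extendScalars (Subalgebra.inclusion_injective hle)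
  haveI : IsAlgClosure F Ω := ⟨inferInstance, halgF⟩
  haveI : Normal F Ω := inferInstance
  haveI : IsGalois F Ω := ⟨⟩
  let E := FiniteGaloisIntermediateField.adjoin F (Set.range B ∪ {A})
  have hsub : Set.range B ∪ {A} ⊆ (E.toIntermediateField : Set Ω) := FiniteGaloisIntermediateField.subset_adjoin _ _
  let b : ι → E := fun j => ⟨B j, hsub (Or.inl ⟨j, rfl⟩)⟩
  let a : E := ⟨A, hsub (Or.inr rfl)⟩
  have hrel : ∀ σ : E ≃ₐ[F] E, ∑ j, algebraMap k Ω (μ j) * (D (σ (b j) : Ω) / (σ (b j) : Ω)) =
      D (σ a : Ω) := by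
    intro σ
    let s : Ω ≃ₐ[F] Ω := σ.liftNormal Ω
    have hs : ∀ x : E, s (x : Ω) = (σ x : Ω) := fun x => σ.liftNormal_commutes Ω x
    have h1 := congrArg s (h D)
    rw [map_sum, ← comm_aut D hD1 halg F htF s] at h1
    rw [← hs a]
    rw [show ((a : E) : Ω) = A from rfl, ← h1]
    refine Finset.sum_congr rfl fun j _ => ?_
    rw [map_mul, map_div₀, ← comm_aut D hD1 halg F htF s, ← hs (b j)]
    congr 1
    have h2 : algebraMap k Ω (μ j) = algebraMap F Ω (algebraMap κ F (algebraMap k κ (μ j))) := rfl
    rw [h2]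
    exact (s.commutes (algebraMap κ F (algebraMap k κ (μ j)))).symm
  -- norms and traces
  have hbne : ∀ (j : ι) (σ : E ≃ₐ[F] E), (σ (b j) : Ω) ≠ 0 := by
    intro j σ h0
    have h1 : σ (b j) = 0 := Subtype.ext h0
    have h2 : b j = 0 := (map_eq_zero_iff σ σ.injective).1 h1
    exact hB j (congrArg Subtype.val h2)
  let x : ι → F := fun j => Algebra.norm F (b j)
  let y : F := Algebra.trace F E a
  have hx : ∀ j, ((x j : F) : Ω) = ∏ σ : E ≃ₐ[F] E, (σ (b j) : Ω) := by
    intro j
    have h1 := congrArg (fun z : E => (z : Ω)) (Algebra.norm_eq_prod_automorphisms F (b j))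
    rw [← SubmonoidClass.coe_finset_prod, ← h1]
    rfl
  have hy : ((y : F) : Ω) = ∑ σ : E ≃ₐ[F] E, (σ a : Ω) := by
    have h1 := congrArg (fun z : E => (z : Ω)) (trace_eq_sum_automorphisms (K := F) a)
    rw [← AddSubmonoidClass.coe_finset_sum, ← h1]
    rfl
  have hx0 : ∀ j, ((x j : F) : Ω) ≠ 0 := by
    intro j; rw [hx j]; exact Finset.prod_ne_zero_iff.2 fun σ _ => hbne j σ
  have hrelF : ∑ j, algebraMap k Ω (μ j) * (D (x j : Ω) / (x j : Ω)) = D (y : Ω) := by
    rw [hy, map_sum, ← Finset.sum_congr rfl fun σ _ => hrel σ, Finset.sum_comm]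
    refine Finset.sum_congr rfl fun j _ => ?_
    rw [← Finset.mul_sum, hx j, logder_prod D _ _ fun σ _ => hbne j σ]
  set N := Fintype.card (E ≃ₐ[F] E) with hN
  have hN0 : 0 < N := Fintype.card_pos
  have hxt : ((x j₀ : F) : Ω) = t ^ N := by
    rw [hx j₀, hN, ← Finset.card_univ, ← Finset.prod_const]
    refine Finset.prod_congr rfl fun σ _ => ?_
    have h1 : b j₀ = algebraMap F E ⟨t, htF⟩ := rfl
    rw [h1, σ.commutes]; rfl
  -- polynomials
  let φ : Polynomial κ →+* Ω := (Polynomial.aeval (R := κ) t : Polynomial κ →ₐ[κ] Ω)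
  have hφ : Function.Injective φ := by
    rw [injective_iff_map_eq_zero]
    intro P hP
    by_contra hP0
    have h1 : IsAlgebraic κ t := ⟨P, hP0, hP⟩
    have h2 : D.restrictScalars ℤ t = 0 := alg_kill (D.restrictScalars ℤ) (A := κ) (fun c => c.2) h1
    have h3 : D t = 0 := h2
    rw [hD1] at h3
    exact one_ne_zero h3
  have hDφ : ∀ P, D (φ P) = φ (Polynomial.derivative P) := by
    intro P
    have h1 := (overConst D).map_aeval P t
    rw [overConst_apply, overConst_apply, hD1, smul_eq_mul, mul_one] at h1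
    exact h1
  have hpol : ∀ z : F, ∃ p q : Polynomial κ, φ q ≠ 0 ∧ (z : Ω) = φ p / φ q := by
    intro z
    obtain ⟨p, q, hpq⟩ := (IntermediateField.mem_adjoin_simple_iff κ (z : Ω)).1 z.2
    by_cases hq : φ q = 0
    · refine ⟨0, 1, by rw [map_one]; exact one_ne_zero, ?_⟩
      rw [hpq]
      change φ p / φ q = _
      rw [hq, div_zero, map_zero, zero_div]
    · exact ⟨p, q, hq, hpq⟩
  choose p q hq hpq using fun j => hpol (x j)
  obtain ⟨R, S, hS, hRS⟩ := hpol y
  have hp : ∀ j, φ (p j) ≠ 0 := by
    intro j h0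
    apply hx0 j
    rw [hpq j, h0, zero_div]
  have hid : ∑ j, φ (Polynomial.C (algebraMap k κ (μ j))) *
      (φ (Polynomial.derivative (p j)) / φ (p j) - φ (Polynomial.derivative (q j)) / φ (q j)) =
      (φ (Polynomial.derivative R) * φ S - φ R * φ (Polynomial.derivative S)) / (φ S) ^ 2 := by
    have e1 : D (y : Ω) = (φ (Polynomial.derivative R) * φ S -
        φ R * φ (Polynomial.derivative S)) / (φ S) ^ 2 := by
      rw [hRS, Derivation.leibniz_div, hDφ, hDφ]
      simp only [smul_eq_mul]
      field_simp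
    rw [← e1, ← hrelF]
    refine Finset.sum_congr rfl fun j _ => ?_
    have e2 : φ (Polynomial.C (algebraMap k κ (μ j))) = algebraMap k Ω (μ j) := by
      change Polynomial.aeval t (Polynomial.C (algebraMap k κ (μ j))) = _
      rw [Polynomial.aeval_C]; rfl
    rw [e2, hpq j, Derivation.leibniz_div, hDφ, hDφ]
    have := hp j
    have := hq j
    simp only [smul_eq_mul]
    field_simp
  -- transfer to power series
  let ψ : Polynomial κ →+* FL κ := jj.comp Polynomial.coeToPowerSeries.ringHom
  have hψ : Function.Injective ψ := jj_inj.comp (Polynomial.coe_injective κ)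
  have hid' := transfer Finset.univ (fun j => algebraMap k κ (μ j)) p q R S φ hφ ψ hψ hid
  have hDψ : ∀ P, DD (ψ P) = ψ (Polynomial.derivative P) := by
    intro P
    change DD (jj (P : κ⟦X⟧)) = jj ((Polynomial.derivative P : Polynomial κ) : κ⟦X⟧)
    rw [DD_jj, derivative_coe]
  have hψ0 : ∀ P, φ P ≠ 0 → ψ P ≠ 0 := by
    intro P hP h0
    apply hP
    rw [(map_eq_zero_iff ψ hψ).1 h0, map_zero]
  have hS' := hψ0 S hS
  let Y : ι → FL κ := fun j => ψ (p j) / ψ (q j)
  have hY0 : ∀ j, Y j ≠ 0 := fun j => div_ne_zero (hψ0 _ (hp j)) (hψ0 _ (hq j))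
  have hYj : Y j₀ = (jj X) ^ (N : ℤ) * jj 1 := by
    have h1 : φ (p j₀) = φ (Polynomial.X ^ N * q j₀) := by
      have h2 := hpq j₀
      rw [hxt] at h2
      have h3 : φ Polynomial.X = t := Polynomial.aeval_X t
      rw [map_mul, map_pow, h3, h2, div_mul_cancel₀ _ (hq j₀)]
    have h2 := hφ h1
    change ψ (p j₀) / ψ (q j₀) = _
    rw [h2, map_mul, map_pow, mul_div_assoc, div_self (hψ0 _ (hq j₀)), map_one, zpow_natCast]
    congr 2
    change jj ((Polynomial.X : Polynomial κ) : κ⟦X⟧) = _
    rw [Polynomial.coe_X]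
  have hex : ∀ j, ∃ (m : ℤ) (u : κ⟦X⟧), constantCoeff u ≠ 0 ∧ Y j = (jj X) ^ m * jj u ∧
      (j = j₀ → m = N) := by
    intro j
    by_cases hj : j = j₀
    · exact ⟨N, 1, by simp, by rw [hj, hYj], fun _ => rfl⟩
    · obtain ⟨m, u, h1, h2⟩ := exists_zpow (hY0 j)
      exact ⟨m, u, h1, h2, fun h => absurd h hj⟩
  choose m u hu hm hmj using hex
  have hres := residue Finset.univ (fun j => algebraMap k κ (μ j)) m u (fun j _ => hu j) Y
    (fun j _ => hm j) (ψ R / ψ S) (by
      rw [Derivation.leibniz_div, hDψ, hDψ]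
      have e1 : (ψ S)⁻¹ ^ 2 • (ψ S • ψ (Polynomial.derivative R) -
          ψ R • ψ (Polynomial.derivative S)) = (ψ (Polynomial.derivative R) * ψ S -
        ψ R * ψ (Polynomial.derivative S)) / (ψ S) ^ 2 := by
        simp only [smul_eq_mul]
        field_simp
      rw [e1, ← hid']
      refine Finset.sum_congr rfl fun j _ => ?_
      have e2 : ψ (Polynomial.C (algebraMap k κ (μ j))) = algebraMap κ (FL κ) (algebraMap k κ (μ j)) := by
        change jj ((Polynomial.C (algebraMap k κ (μ j)) : Polynomial κ) : κ⟦X⟧) = _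
        rw [Polynomial.coe_C, jj_C]
      have h3 := hψ0 _ (hp j)
      have h4 := hψ0 _ (hq j)
      rw [e2]
      congr 1
      change DD (ψ (p j) / ψ (q j)) / (ψ (p j) / ψ (q j)) = _
      rw [Derivation.leibniz_div, hDψ, hDψ]
      simp only [smul_eq_mul]
      field_simp)
  have hsum : ∑ j, μ j * (m j : k) = 0 := by
    apply (algebraMap k κ).injective
    rw [map_sum, map_zero, ← hres]
    refine Finset.sum_congr rfl fun j _ => ?_
    rw [map_mul, map_intCast]
  have h0 := congrFun (hμ m hsum) j₀
  rw [hmj j₀ rfl, Pi.zero_apply] at h0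
  omega

end main

/-- **Rosenlicht's lemma.** -/
theorem rosenlicht {k L : Type*} [Field k] [Field L] [Algebra k L] [CharZero L] {ι : Type*}
    [Fintype ι] (μ : ι → k)
    (hμ : ∀ q : ι → ℤ, ∑ j, μ j * (q j : k) = 0 → q = 0) (B : ι → L) (hB : ∀ j, B j ≠ 0) (A : L)
    (j₀ : ι) (ht : Transcendental k (B j₀))
    (h : ∀ δ : Derivation k L L, ∑ j, algebraMap k L (μ j) * (δ (B j) / B j) = δ A) : False := by
  let Ω := AlgebraicClosure L
  let i : L →+* Ω := algebraMap L Ω
  haveI : CharZero Ω := charZero_of_injective_algebraMap i.injective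
  refine rosenlicht_closed (Ω := Ω) μ hμ (fun j => i (B j))
    (fun j => (map_ne_zero i).2 (hB j)) (i A) j₀ ?_ ?_
  · intro hal
    exact ht ((isAlgebraic_algebraMap_iff i.injective).1 hal)
  · intro δ
    rw [← sub_eq_zero]
    rw [← Module.forall_dual_apply_eq_zero_iff L]
    intro f
    let D₀ : Derivation ℤ L L := Derivation.mk'
      { toFun := fun x => f (δ (i x))
        map_add' := fun a b => by rw [map_add, map_add, map_add]
        map_smul' := fun c a => by
          simp only [zsmul_eq_mul, map_mul, map_intCast, Derivation.leibniz, smul_eq_mul,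
            Derivation.map_intCast, mul_zero, add_zero, eq_intCast, Int.cast_id]
          have : ((c : ℤ) : Ω) * δ (i a) = (c : L) • δ (i a) := by
            rw [Algebra.smul_def, map_intCast]
          rw [this, map_smul, smul_eq_mul] } (by
        intro a b
        change f (δ (i (a * b))) = a • f (δ (i b)) + b • f (δ (i a))
        rw [map_mul, Derivation.leibniz, map_add]
        have e1 : ∀ (a : L) (w : Ω), f (i a • w) = a • f w := by
          intro a w
          have e3 : i a • w = a • w := by rw [smul_eq_mul, Algebra.smul_def]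
          rw [e3, map_smul]
        rw [e1, e1])
    let δ' : Derivation k L L := mkLin D₀ (fun c => by
      change f (δ (i (algebraMap k L c))) = 0
      have : i (algebraMap k L c) = algebraMap k Ω c :=
        (IsScalarTower.algebraMap_apply k L Ω c).symm
      rw [this, δ.map_algebraMap, map_zero])
    have hδ' : ∀ x, δ' x = f (δ (i x)) := fun _ => rfl
    have h1 := h δ'
    simp only [hδ'] at h1
    rw [map_sub, ← h1, map_sum, sub_eq_zero]
    refine Finset.sum_congr rfl fun j _ => ?_
    have e2 : algebraMap k Ω (μ j) * (δ (i (B j)) / i (B j)) =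
        (algebraMap k L (μ j) / B j) • δ (i (B j)) := by
      rw [Algebra.smul_def, map_div₀, IsScalarTower.algebraMap_apply k L Ω]
      ring
    rw [e2, map_smul, smul_eq_mul]
    ring

end Run7.h131.LL
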