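import Mathlib
import Pool.Agent.Run7.h131.LL.Ros

/-!
# Ax's theorem in differential form

For `b_i' = a_i' b_i` in a differential field with constants `k`, the `a_i` being linearly independent
over the rational numbers modulo constants, there are derivations `E_j` killing `k` and `z` with
`E_j b_i / b_i - E_j a_i = δ_ij`.
-/

set_option autoImplicit false

namespace Run7.h131.LL

variable {k L : Type*} [Field k] [Field L] [Algebra k L]

lemma logder_zpow (D : Derivation k L L) {b : L} (hb : b ≠ 0) (n : ℤ) :
    D (b ^ n) / b ^ n = n * (D b / b) := by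
  rw [Derivation.leibniz_zpow, zsmul_eq_mul, smul_eq_mul, zpow_sub_one₀ hb]
  have := zpow_ne_zero n hb
  field_simp

/-- the form `δ ↦ δ b / b - δ a` -/
def om (a b : L) (D : Derivation k L L) : L := D b / b - D a

lemma om_add (a b : L) (D D' : Derivation k L L) : om a b (D + D') = om a b D + om a b D' := by
  unfold om; simp only [Derivation.add_apply]; ring

lemma om_smul (a b c : L) (D : Derivation k L L) : om a b (c • D) = c * om a b D := by
  unfold om; simp only [Derivation.smul_apply, smul_eq_mul]; ring

lemma om_lie {a b : L} (D δ : Derivation k L L) (hb : b ≠ 0) (h : D b = b * D a) :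
    om a b ⁅D, δ⁆ = D (om a b δ) := by
  unfold om
  have h1 : δ (D b) = b * δ (D a) + D a * δ b := by
    rw [h, Derivation.leibniz, smul_eq_mul, smul_eq_mul]
  rw [Derivation.commutator_apply, Derivation.commutator_apply, map_sub, Derivation.leibniz_div, h1,
    h]
  simp only [smul_eq_mul]
  field_simp
  ring

variable [CharZero L] {ι : Type*} [Fintype ι]

/-- relations with constant coefficients -/
theorem no_const_rel (D : Derivation k L L) (a b : ι → L)
    (hb : ∀ i, b i ≠ 0) (hab : ∀ i, D (b i) = b i * D (a i))
    (hind : ∀ m : ι → ℤ, ∑ i, (m i : L) * D (a i) = 0 → m = 0) (lam : ι → k) (i₀ : ι)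
    (hl : lam i₀ ≠ 0)
    (h : ∀ δ : Derivation k L L, ∑ i, algebraMap k L (lam i) * om (a i) (b i) δ = 0) : False := by
  classical
  haveI : CharZero k := (algebraMap k L).charZero
  let V : Submodule ℚ k := Submodule.span ℚ (Set.range lam)
  haveI : Module.Finite ℚ V := Module.Finite.span_of_finite ℚ (Set.finite_range lam)
  let β := Module.finBasis ℚ V
  set m := Module.finrank ℚ V with hm
  let lv : ι → V := fun i => ⟨lam i, Submodule.subset_span ⟨i, rfl⟩⟩
  let q : ι → Fin m → ℚ := fun i j => β.repr (lv i) j
  let N : ℕ := ∏ i, ∏ j, (q i j).den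
  have hN0 : N ≠ 0 := Finset.prod_ne_zero_iff.2 fun i _ =>
    Finset.prod_ne_zero_iff.2 fun j _ => (q i j).den_nz
  have hn : ∀ i j, ∃ n : ℤ, (n : ℚ) = N * q i j := by
    intro i j
    have h1 : (q i j).den ∣ N :=
      (Finset.dvd_prod_of_mem (fun j => (q i j).den) (Finset.mem_univ j)).trans
        (Finset.dvd_prod_of_mem (fun i => ∏ j, (q i j).den) (Finset.mem_univ i))
    obtain ⟨c, hc⟩ := h1
    refine ⟨c * (q i j).num, ?_⟩
    rw [hc]
    push_cast
    have := Rat.mul_den_eq_num (q i j)
    rw [← this]; ring
  choose n hn using hn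
  have hlam : ∀ i, (N : k) * lam i = ∑ j, (n i j : k) * (β j : k) := by
    intro i
    have h1 := congrArg (fun v : V => (v : k)) (β.sum_repr (lv i))
    simp only [Submodule.coe_sum, Submodule.coe_smul] at h1
    change _ = lam i at h1
    rw [← h1, Finset.mul_sum]
    refine Finset.sum_congr rfl fun j _ => ?_
    rw [Rat.smul_def, ← mul_assoc]
    congr 1
    have h2 := congrArg (fun x : ℚ => (x : k)) (hn i j)
    simp only [Rat.cast_intCast, Rat.cast_mul, Rat.cast_natCast] at h2
    exact h2.symm
  have hβ : ∀ q' : Fin m → ℤ, ∑ j, (β j : k) * (q' j : k) = 0 → q' = 0 := by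
    intro q' hq'
    have h1 : ∑ j, (q' j : ℚ) • β j = 0 := by
      apply Subtype.ext
      simp only [Submodule.coe_sum, Submodule.coe_smul, ZeroMemClass.coe_zero]
      rw [← hq']
      refine Finset.sum_congr rfl fun j _ => ?_
      rw [Rat.smul_def, Rat.cast_intCast]; ring
    have h2 := Fintype.linearIndependent_iff.1 β.linearIndependent _ h1
    ext j
    have := h2 j
    exact_mod_cast this
  -- some column is not zero
  obtain ⟨j₀, hj₀⟩ : ∃ j, n i₀ j ≠ 0 := by
    by_contra hcon
    push Not at hcon
    have h1 := hlam i₀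
    rw [Finset.sum_eq_zero (fun j _ => by rw [hcon j, Int.cast_zero, zero_mul])] at h1
    have hNk : (N : k) ≠ 0 := by exact_mod_cast hN0
    exact (mul_ne_zero hNk hl) h1
  let B : Fin m → L := fun j => ∏ i, b i ^ (n i j)
  have hB : ∀ j, B j ≠ 0 := fun j => Finset.prod_ne_zero_iff.2 fun i _ => zpow_ne_zero _ (hb i)
  have hlog : ∀ (δ : Derivation k L L) j, δ (B j) / B j = ∑ i, (n i j : L) * (δ (b i) / b i) := by
    intro δ j
    rw [logder_prod δ _ _ fun i _ => zpow_ne_zero _ (hb i)]
    exact Finset.sum_congr rfl fun i _ => logder_zpow δ (hb i) _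
  let A : L := ∑ i, algebraMap k L ((N : k) * lam i) * a i
  refine rosenlicht (fun j => (β j : k)) hβ B hB A j₀ ?_ ?_
  · intro hal
    have h1 : D.restrictScalars ℤ (B j₀) = 0 :=
      alg_kill (D.restrictScalars ℤ) (A := k) (fun c => D.map_algebraMap c) hal
    have h2 : D (B j₀) = 0 := h1
    have h3 := hlog D j₀
    rw [h2, zero_div] at h3
    have h4 := hind (fun i => n i j₀) (by
      rw [h3]
      refine Finset.sum_congr rfl fun i _ => ?_
      rw [hab i]
      have := hb i
      field_simp)
    exact hj₀ (congrFun h4 i₀)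
  · intro δ
    have h1 := h δ
    have h2 : δ A = ∑ i, algebraMap k L ((N : k) * lam i) * δ (a i) := by
      rw [map_sum]
      refine Finset.sum_congr rfl fun i _ => ?_
      rw [Derivation.leibniz, δ.map_algebraMap, smul_zero, add_zero, smul_eq_mul]
    have h3 : ∑ i, algebraMap k L ((N : k) * lam i) * δ (a i) =
        ∑ i, algebraMap k L ((N : k) * lam i) * (δ (b i) / b i) := by
      rw [← sub_eq_zero, ← neg_eq_zero, ← mul_zero (N : L), ← h1, Finset.mul_sum,
        ← Finset.sum_sub_distrib, ← Finset.sum_neg_distrib]
      refine Finset.sum_congr rfl fun i _ => ?_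
      unfold om
      rw [map_mul, map_natCast]
      ring
    rw [h2, h3]
    simp_rw [hlam, hlog, Finset.mul_sum, map_sum, Finset.sum_mul]
    rw [Finset.sum_comm]
    refine Finset.sum_congr rfl fun i _ => Finset.sum_congr rfl fun j _ => ?_
    rw [map_mul, map_intCast]
    ring

open scoped Classical in
/-- **Ax's theorem**: the forms are linearly independent -/
theorem ax_indep (D : Derivation k L L) (hconst : ∀ x, D x = 0 → ∃ c : k, x = algebraMap k L c)
    (z : L) (hz : D z = 1) (a b : ι → L)
    (hb : ∀ i, b i ≠ 0) (hab : ∀ i, D (b i) = b i * D (a i))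
    (hind : ∀ m : ι → ℤ, ∑ i, (m i : L) * D (a i) = 0 → m = 0) :
    ∀ (N : ℕ) (c : ι → L), (Finset.univ.filter fun i => c i ≠ 0).card ≤ N →
      (∀ δ : Derivation k L L, δ z = 0 → ∑ i, c i * om (a i) (b i) δ = 0) → c = 0 := by
  intro N
  induction N with
  | zero =>
    intro c hc _
    ext i
    by_contra hi
    have h1 := Finset.card_eq_zero.1 (Nat.le_zero.1 hc)
    have h2 : i ∈ Finset.univ.filter fun i => c i ≠ 0 := by simpa using hi
    rw [h1] at h2
    exact absurd h2 (Finset.notMem_empty i)
  | succ N ih =>
    intro c hc hrel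
    by_contra hne
    obtain ⟨i₀, hi₀⟩ := Function.ne_iff.1 hne
    have hi₀ : c i₀ ≠ 0 := hi₀
    let c' : ι → L := fun i => c i / c i₀
    have hc'1 : c' i₀ = 1 := div_self hi₀
    have hrel' : ∀ δ : Derivation k L L, δ z = 0 → ∑ i, c' i * om (a i) (b i) δ = 0 := by
      intro δ hδ
      have h1 : ∑ i, c' i * om (a i) (b i) δ = (∑ i, c i * om (a i) (b i) δ) / c i₀ := by
        rw [Finset.sum_div]
        exact Finset.sum_congr rfl fun i _ => by simp only [c']; ring
      rw [h1, hrel δ hδ, zero_div]
    have hD : (fun i => D (c' i)) = 0 := by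
      apply ih
      · have hsub : (Finset.univ.filter fun i => D (c' i) ≠ 0) ⊆
            (Finset.univ.filter fun i => c i ≠ 0).erase i₀ := by
          intro i hi
          rw [Finset.mem_filter] at hi
          rw [Finset.mem_erase, Finset.mem_filter]
          refine ⟨?_, Finset.mem_univ i, ?_⟩
          · rintro rfl
            apply hi.2
            rw [hc'1, D.map_one_eq_zero]
          · intro h0
            apply hi.2
            have : c' i = 0 := by simp only [c', h0, zero_div]
            rw [this, map_zero]
        have h1 := Finset.card_le_card hsub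
        rw [Finset.card_erase_of_mem (by simpa using hi₀)] at h1
        omega
      · intro δ hδ
        have h1 := hrel' δ hδ
        have h2 := hrel' ⁅D, δ⁆ (by
          rw [Derivation.commutator_apply, hδ, hz, map_zero, δ.map_one_eq_zero, sub_zero])
        have h3 := congrArg D h1
        rw [map_sum, map_zero] at h3
        rw [← sub_eq_zero.2 (h3.trans h2.symm), ← Finset.sum_sub_distrib]
        refine Finset.sum_congr rfl fun i _ => ?_
        rw [Derivation.leibniz, om_lie D δ (hb i) (hab i), smul_eq_mul, smul_eq_mul]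
        ring
    have hlam : ∀ i, ∃ l : k, c' i = algebraMap k L l := fun i => hconst _ (congrFun hD i)
    choose lam hlam using hlam
    refine no_const_rel D a b hb hab hind lam i₀ ?_ ?_
    · intro h0
      have h1 := hlam i₀
      rw [h0, map_zero, hc'1] at h1
      exact one_ne_zero h1
    · intro δ
      have h1 := hrel' (δ + (-(δ z)) • D) (by
        rw [Derivation.add_apply, Derivation.smul_apply, hz, smul_eq_mul]; ring)
      rw [← h1]
      refine Finset.sum_congr rfl fun i _ => ?_
      have h2 : om (a i) (b i) D = 0 := by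
        unfold om
        rw [hab i]
        have := hb i
        field_simp
        ring
      rw [om_add, om_smul, h2, mul_zero, add_zero, ← hlam i]

/-- **Ax's theorem**: the dual derivations -/
theorem ax_dual [DecidableEq ι] (D : Derivation k L L)
    (hconst : ∀ x, D x = 0 → ∃ c : k, x = algebraMap k L c)
    (z : L) (hz : D z = 1) (a b : ι → L)
    (hb : ∀ i, b i ≠ 0) (hab : ∀ i, D (b i) = b i * D (a i))
    (hind : ∀ m : ι → ℤ, ∑ i, (m i : L) * D (a i) = 0 → m = 0) :
    ∃ E : ι → Derivation k L L, (∀ j, E j z = 0) ∧
      ∀ j i, om (a i) (b i) (E j) = if i = j then 1 else 0 := by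
  classical
  let W : Submodule L (Derivation k L L) :=
    { carrier := {δ | δ z = 0}
      add_mem' := by
        intro x y hx hy
        change (x + y) z = 0
        rw [Derivation.add_apply, show x z = 0 from hx, show y z = 0 from hy, add_zero]
      zero_mem' := rfl
      smul_mem' := by
        intro c x hx
        change (c • x) z = 0
        rw [Derivation.smul_apply, show x z = 0 from hx, smul_zero] }
  let Om : Derivation k L L →ₗ[L] (ι → L) :=
    { toFun := fun δ i => om (a i) (b i) δ
      map_add' := fun x y => by ext i; exact om_add _ _ _ _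
      map_smul' := fun c x => by ext i; exact om_smul _ _ _ _ }
  have htop : W.map Om = ⊤ := by
    by_contra hlt
    obtain ⟨f, hf0, hf⟩ := Submodule.exists_le_ker_of_lt_top _ (lt_top_iff_ne_top.2 hlt)
    apply hf0
    let c : ι → L := fun i => f (Pi.single i 1)
    have hfc : ∀ x : ι → L, f x = ∑ i, c i * x i := by
      intro x
      conv_lhs => rw [← Finset.univ_sum_single x]
      rw [map_sum]
      refine Finset.sum_congr rfl fun i _ => ?_
      have : (Pi.single i (x i) : ι → L) = x i • Pi.single i 1 := by
        rw [← Pi.single_smul, smul_eq_mul, mul_one]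
      rw [this, map_smul, smul_eq_mul, mul_comm]
    have hc0 := ax_indep D hconst z hz a b hb hab hind _ c le_rfl (by
      intro δ hδ
      have h1 : Om δ ∈ W.map Om := ⟨δ, hδ, rfl⟩
      have h2 := hf h1
      rw [LinearMap.mem_ker, hfc] at h2
      exact h2)
    ext x
    simp only [LinearMap.coe_comp, LinearMap.coe_single, Function.comp_apply, LinearMap.zero_comp,
      LinearMap.zero_apply]
    rw [hfc]
    exact Finset.sum_eq_zero fun i _ => by rw [hc0, Pi.zero_apply, zero_mul]
  have hex : ∀ j : ι, ∃ δ : Derivation k L L, δ ∈ W ∧ Om δ = fun i => if i = j then 1 else 0 := by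
    intro j
    have h1 : (fun i => if i = j then (1 : L) else 0) ∈ W.map Om := by rw [htop]; trivial
    exact h1
  choose E hE1 hE2 using hex
  exact ⟨E, hE1, fun j i => congrFun (hE2 j) i⟩

end Run7.h131.LL
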