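import Mathlib
import Pool.Agent.Run7.h131.LL.Ax

/-!
# Nondegenerate systems of equations for exponentially algebraic functions
-/

set_option autoImplicit false

namespace Run7.h131.LL

/-- the variables `z`, `f`, `a_i`, `b_i` -/
abbrev Vr (ι : Type*) := Option (Option ι ⊕ ι)

/-- the values of the variables -/
def vv {ι A : Type*} (z f : A) (a b : ι → A) : Vr ι → A
  | none => z
  | some (Sum.inl none) => f
  | some (Sum.inl (some i)) => a i
  | some (Sum.inr i) => b i

/-- the derivative of `P` in the direction `f`, or in the direction `a_i` with `b_i = exp a_i` -/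
noncomputable def row {ι k A : Type*} [Field k] [CommRing A] [Algebra k A] (z f : A) (a b : ι → A)
    (P : MvPolynomial (Vr ι) k) : Option ι → A
  | none => MvPolynomial.aeval (vv z f a b) (MvPolynomial.pderiv (some (Sum.inl none)) P)
  | some i => MvPolynomial.aeval (vv z f a b) (MvPolynomial.pderiv (some (Sum.inl (some i))) P) +
      b i * MvPolynomial.aeval (vv z f a b) (MvPolynomial.pderiv (some (Sum.inr i)) P)

section

variable {ι k A : Type*} [Field k] [CommRing A] [Algebra k A] (z f : A) (a b : ι → A)

lemma row_add (P Q : MvPolynomial (Vr ι) k) (o : Option ι) :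
    row z f a b (P + Q) o = row z f a b P o + row z f a b Q o := by
  cases o with
  | none => simp only [row, map_add]
  | some i => simp only [row, map_add]; ring

lemma row_mul (P Q : MvPolynomial (Vr ι) k) (o : Option ι) :
    row z f a b (P * Q) o = MvPolynomial.aeval (vv z f a b) P * row z f a b Q o +
      MvPolynomial.aeval (vv z f a b) Q * row z f a b P o := by
  cases o with
  | none => simp only [row, MvPolynomial.pderiv_mul, map_add, map_mul]; ring
  | some i => simp only [row, MvPolynomial.pderiv_mul, map_add, map_mul]; ring

lemma row_C (c : k) (o : Option ι) : row z f a b (MvPolynomial.C c) o = 0 := by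
  cases o with
  | none => simp only [row, MvPolynomial.pderiv_C, map_zero]
  | some i => simp only [row, MvPolynomial.pderiv_C, map_zero, mul_zero, add_zero]

end

variable {k L : Type*} [Field k] [Field L] [Algebra k L] [CharZero L] {ι : Type*} [Fintype ι]
  [DecidableEq ι]

/-- a derivation on which all the forms vanish is zero on the functions of the system -/
theorem om_zero (z f : L) (a b g : ι → L) (hb : ∀ i, b i ≠ 0) (E : ι → Derivation k L L)
    (hEz : ∀ j, E j z = 0)
    (hE : ∀ j i, om (a i) (b i) (E j) = if i = j then 1 else 0)
    (hf : IsAlgebraic (Algebra.adjoin k (insert z (Set.range g))) f)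
    (ha : ∀ i, IsAlgebraic (Algebra.adjoin k (insert z (Set.range g))) (a i))
    (hbg : ∀ i, IsAlgebraic (Algebra.adjoin k (insert z (Set.range g))) (b i))
    (δ : Derivation k L L) (hδz : δ z = 0) (hδ : ∀ i, om (a i) (b i) δ = 0) :
    δ f = 0 ∧ (∀ i, δ (a i) = 0) ∧ ∀ i, δ (b i) = 0 := by
  classical
  let Δ : Option ι → Derivation k L L := fun o => o.elim δ E
  have hdep : ¬ LinearIndependent L (fun o : Option ι => fun i : ι => Δ o (g i)) := by
    intro h
    have := h.fintype_card_le_finrank
    rw [Module.finrank_fintype_fun_eq_card, Fintype.card_option] at this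
    omega
  rw [Fintype.not_linearIndependent_iff] at hdep
  obtain ⟨c, hc, o₀, ho₀⟩ := hdep
  let T : Derivation k L L := ∑ o, c o • Δ o
  have hT : ∀ x, T x = ∑ o, c o * Δ o x := by
    intro x
    have h1 : ∀ s : Finset (Option ι), (∑ o ∈ s, c o • Δ o) x = ∑ o ∈ s, c o * Δ o x := by
      intro s
      induction s using Finset.induction_on with
      | empty => simp
      | insert a s ha ih =>
        rw [Finset.sum_insert ha, Finset.sum_insert ha, Derivation.add_apply, ih,
          Derivation.smul_apply, smul_eq_mul]
    exact h1 _
  have hTs : ∀ x ∈ insert z (Set.range g), T x = 0 := by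
    rintro x (rfl | ⟨i, rfl⟩)
    · rw [hT]
      refine Finset.sum_eq_zero fun o _ => ?_
      cases o with
      | none => change c none * δ x = 0; rw [hδz, mul_zero]
      | some j => change c (some j) * E j x = 0; rw [hEz, mul_zero]
    · rw [hT]
      have := congrFun hc i
      simpa [Finset.sum_apply, Pi.smul_apply, smul_eq_mul] using this
  have hTf := alg_kill_adjoin T _ hTs hf
  have hTa := fun i => alg_kill_adjoin T _ hTs (ha i)
  have hTb := fun i => alg_kill_adjoin T _ hTs (hbg i)
  have hcs : ∀ i, c (some i) = 0 := by
    intro i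
    have h1 : om (a i) (b i) T = 0 := by
      unfold om; rw [hTa, hTb, zero_div, sub_zero]
    have h2 : om (a i) (b i) T = ∑ o, c o * om (a i) (b i) (Δ o) := by
      unfold om
      rw [hT, hT, Finset.sum_div, ← Finset.sum_sub_distrib]
      exact Finset.sum_congr rfl fun o _ => by ring
    rw [h2, Fintype.sum_option] at h1
    change c none * om (a i) (b i) δ + ∑ j, c (some j) * om (a i) (b i) (E j) = 0 at h1
    rw [hδ, mul_zero, zero_add] at h1
    simp_rw [hE] at h1
    simpa using h1
  have hcn : c none ≠ 0 := by
    cases o₀ with
    | none => exact ho₀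
    | some i => exact absurd (hcs i) ho₀
  have hTδ : ∀ x, T x = c none * δ x := by
    intro x
    rw [hT, Fintype.sum_option]
    change c none * δ x + ∑ j, c (some j) * E j x = _
    simp [hcs]
  have hfin : ∀ x, T x = 0 → δ x = 0 := fun x hx =>
    (mul_eq_zero.1 ((hTδ x).symm.trans hx)).resolve_left hcn
  exact ⟨hfin _ hTf, fun i => hfin _ (hTa i), fun i => hfin _ (hTb i)⟩

/-- **Nondegenerate system.** -/
theorem exists_system (z f : L) (a b g : ι → L) (hb : ∀ i, b i ≠ 0) (E : ι → Derivation k L L)
    (hEz : ∀ j, E j z = 0)
    (hE : ∀ j i, om (a i) (b i) (E j) = if i = j then 1 else 0)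
    (hf : IsAlgebraic (Algebra.adjoin k (insert z (Set.range g))) f)
    (ha : ∀ i, IsAlgebraic (Algebra.adjoin k (insert z (Set.range g))) (a i))
    (hbg : ∀ i, IsAlgebraic (Algebra.adjoin k (insert z (Set.range g))) (b i)) :
    ∃ P : Option ι → MvPolynomial (Vr ι) k,
      (∀ o, MvPolynomial.aeval (vv z f a b) (P o) = 0) ∧
      (Matrix.of fun o o' => row z f a b (P o) o').det ≠ 0 := by
  classical
  let S : Set (Option ι → L) := {v | ∃ P : MvPolynomial (Vr ι) k,
    MvPolynomial.aeval (vv z f a b) P = 0 ∧ v = row z f a b P}
  have htop : Submodule.span L S = ⊤ := by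
    by_contra hlt
    obtain ⟨φ, hφ0, hφ⟩ := Submodule.exists_le_ker_of_lt_top _ (lt_top_iff_ne_top.2 hlt)
    apply hφ0
    let w : Option ι → L := fun o => φ (Pi.single o 1)
    have hφw : ∀ x : Option ι → L, φ x = ∑ o, x o * w o := by
      intro x
      conv_lhs => rw [← Finset.univ_sum_single x]
      rw [map_sum]
      refine Finset.sum_congr rfl fun i _ => ?_
      have : (Pi.single i (x i) : Option ι → L) = x i • Pi.single i 1 := by
        rw [← Pi.single_smul, smul_eq_mul, mul_one]
      rw [this, map_smul, smul_eq_mul]
    obtain ⟨δ, hδ⟩ := exists_ext_lin (k := k) (R := MvPolynomial (Vr ι) k) (L := L)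
      (MvPolynomial.aeval (vv z f a b)) (fun P => ∑ o, row z f a b P o * w o)
      (fun P Q => by
        rw [← Finset.sum_add_distrib]
        exact Finset.sum_congr rfl fun o _ => by rw [row_add, add_mul])
      (fun P Q => by
        rw [Finset.mul_sum, Finset.mul_sum, ← Finset.sum_add_distrib]
        exact Finset.sum_congr rfl fun o _ => by rw [row_mul]; ring)
      (fun c => by
        refine Finset.sum_eq_zero fun o _ => ?_
        have : algebraMap k (MvPolynomial (Vr ι) k) c = MvPolynomial.C c := rfl
        rw [this, row_C, zero_mul])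
      (fun P hP => by
        have h1 : row z f a b P ∈ Submodule.span L S := Submodule.subset_span ⟨P, hP, rfl⟩
        have h2 := hφ h1
        rw [LinearMap.mem_ker, hφw] at h2
        exact h2)
    have hδX : ∀ v : Vr ι, δ (vv z f a b v) =
        ∑ o, row z f a b (MvPolynomial.X v : MvPolynomial (Vr ι) k) o * w o := by
      intro v
      have := hδ (MvPolynomial.X v)
      rwa [MvPolynomial.aeval_X] at this
    have hδz : δ z = 0 := by
      have := hδX none
      change δ z = _ at this
      rw [this]
      refine Finset.sum_eq_zero fun o _ => ?_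
      cases o with
      | none => simp [row, MvPolynomial.pderiv_X]
      | some i => simp [row, MvPolynomial.pderiv_X]
    have hδf : δ f = w none := by
      have := hδX (some (Sum.inl none))
      change δ f = _ at this
      rw [this, Fintype.sum_option]
      simp [row, MvPolynomial.pderiv_X]
    have hδa : ∀ i, δ (a i) = w (some i) := by
      intro i
      have := hδX (some (Sum.inl (some i)))
      change δ (a i) = _ at this
      rw [this, Fintype.sum_option]
      simp [row, MvPolynomial.pderiv_X, Pi.single_apply]
    have hδb : ∀ i, δ (b i) = b i * w (some i) := by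
      intro i
      have := hδX (some (Sum.inr i))
      change δ (b i) = _ at this
      rw [this, Fintype.sum_option]
      simp [row, MvPolynomial.pderiv_X, Pi.single_apply]
    obtain ⟨h1, h2, -⟩ := om_zero z f a b g hb E hEz hE hf ha hbg δ hδz (by
      intro i
      unfold om
      rw [hδa, hδb]
      have := hb i
      field_simp
      ring)
    have hw : w = 0 := by
      ext o
      cases o with
      | none => rw [← hδf, h1]; rfl
      | some i => rw [← hδa, h2]; rfl
    apply LinearMap.ext
    intro x
    rw [hφw, hw]
    simp
  obtain ⟨F, hFS, hFspan, hFli⟩ := Submodule.exists_fun_fin_finrank_span_eq L S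
  have hrk : Module.finrank L (Submodule.span L S) = Fintype.card (Option ι) := by
    rw [htop, finrank_top, Module.finrank_fintype_fun_eq_card]
  let e : Option ι ≃ Fin (Module.finrank L (Submodule.span L S)) :=
    (Fintype.equivFin _).trans (finCongr hrk.symm)
  choose P hP0 hP1 using fun o : Option ι => hFS (e o)
  refine ⟨P, hP0, ?_⟩
  have hli : LinearIndependent L (fun o => row z f a b (P o)) := by
    have h1 : (fun o => row z f a b (P o)) = F ∘ e := by
      ext o; rw [Function.comp_apply, hP1]
    rw [h1]
    exact hFli.comp _ e.injective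
  have h2 : LinearIndependent L (Matrix.of fun o o' => row z f a b (P o) o').row := hli
  have h3 := Matrix.linearIndependent_rows_iff_isUnit.1 h2
  exact ((Matrix.isUnit_iff_isUnit_det _).1 h3).ne_zero

end Run7.h131.LL
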