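import Mathlib
import Pool.Agent.Run7.h131.LL.Dw
import Pool.Agent.Run7.h131.LL.Khov

/-!
# Newton's method for systems with exponentials
-/

set_option autoImplicit false
open NumberField IsDedekindDomain Filter PowerSeries
open H497R2 (rc Av mem_Av Av_mono inv_mem_Av)

namespace Run7.h131.LL

section taylor

variable {k : Type*} [Field k] {σ : Type*}

lemma aeval_congr (P : MvPolynomial σ k) {w w' : σ → k⟦X⟧} {m : ℕ} (h : ∀ v, X ^ m ∣ w v - w' v) :
    X ^ m ∣ MvPolynomial.aeval w P - MvPolynomial.aeval w' P := by
  induction P using MvPolynomial.induction_on with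
  | C c => rw [MvPolynomial.aeval_C, MvPolynomial.aeval_C, sub_self]; exact dvd_zero _
  | add P Q hP hQ =>
    rw [map_add, map_add]
    have : MvPolynomial.aeval w P + MvPolynomial.aeval w Q -
        (MvPolynomial.aeval w' P + MvPolynomial.aeval w' Q) =
        (MvPolynomial.aeval w P - MvPolynomial.aeval w' P) +
        (MvPolynomial.aeval w Q - MvPolynomial.aeval w' Q) := by ring
    rw [this]; exact dvd_add hP hQ
  | mul_X P i hP =>
    rw [map_mul, map_mul, MvPolynomial.aeval_X, MvPolynomial.aeval_X]
    have : MvPolynomial.aeval w P * w i - MvPolynomial.aeval w' P * w' i =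
        (MvPolynomial.aeval w P - MvPolynomial.aeval w' P) * w i +
        MvPolynomial.aeval w' P * (w i - w' i) := by ring
    rw [this]; exact dvd_add (Dvd.dvd.mul_right hP _) (Dvd.dvd.mul_left (h i) _)

lemma taylor [Fintype σ] (P : MvPolynomial σ k) {w h : σ → k⟦X⟧} {m : ℕ} (hh : ∀ v, X ^ m ∣ h v) :
    X ^ (m * 2) ∣ MvPolynomial.aeval (fun v => w v + h v) P - MvPolynomial.aeval w P -
      ∑ v, MvPolynomial.aeval w (MvPolynomial.pderiv v P) * h v := by
  classical
  induction P using MvPolynomial.induction_on with
  | C c =>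
    simp only [MvPolynomial.aeval_C, MvPolynomial.pderiv_C, map_zero, zero_mul,
      Finset.sum_const_zero, sub_self, dvd_zero]
  | add P Q hP hQ =>
    have : MvPolynomial.aeval (fun v => w v + h v) (P + Q) - MvPolynomial.aeval w (P + Q) -
      ∑ v, MvPolynomial.aeval w (MvPolynomial.pderiv v (P + Q)) * h v =
      (MvPolynomial.aeval (fun v => w v + h v) P - MvPolynomial.aeval w P -
        ∑ v, MvPolynomial.aeval w (MvPolynomial.pderiv v P) * h v) +
      (MvPolynomial.aeval (fun v => w v + h v) Q - MvPolynomial.aeval w Q -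
        ∑ v, MvPolynomial.aeval w (MvPolynomial.pderiv v Q) * h v) := by
      simp only [map_add, add_mul, Finset.sum_add_distrib]
      ring
    rw [this]; exact dvd_add hP hQ
  | mul_X P i hP =>
    set d := ∑ v, MvPolynomial.aeval w (MvPolynomial.pderiv v P) * h v with hd
    have hdX : X ^ m ∣ d := Finset.dvd_sum fun v _ => Dvd.dvd.mul_left (hh v) _
    have e1 : ∑ v, MvPolynomial.aeval w (MvPolynomial.pderiv v (P * MvPolynomial.X i)) * h v =
        w i * d + MvPolynomial.aeval w P * h i := by
      have e2 : ∀ v, MvPolynomial.aeval w (MvPolynomial.pderiv v (P * MvPolynomial.X i)) * h v =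
          w i * (MvPolynomial.aeval w (MvPolynomial.pderiv v P) * h v) +
            (if v = i then MvPolynomial.aeval w P * h i else 0) := by
        intro v
        rw [MvPolynomial.pderiv_mul, MvPolynomial.pderiv_X, map_add, map_mul, map_mul,
          MvPolynomial.aeval_X, Pi.single_apply]
        by_cases hv : v = i
        · subst hv; simp; ring
        · rw [if_neg (fun h => hv h.symm), if_neg hv]; simp; ring
      rw [Finset.sum_congr rfl fun v _ => e2 v, Finset.sum_add_distrib, ← Finset.mul_sum]
      simp [hd]
    have : MvPolynomial.aeval (fun v => w v + h v) (P * MvPolynomial.X i) -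
        MvPolynomial.aeval w (P * MvPolynomial.X i) -
        ∑ v, MvPolynomial.aeval w (MvPolynomial.pderiv v (P * MvPolynomial.X i)) * h v =
        (MvPolynomial.aeval (fun v => w v + h v) P - MvPolynomial.aeval w P - d) * (w i + h i) +
          d * h i := by
      rw [e1, map_mul, map_mul, MvPolynomial.aeval_X, MvPolynomial.aeval_X]
      ring
    rw [this]
    refine dvd_add (Dvd.dvd.mul_right hP _) ?_
    rw [mul_two, pow_add]
    exact mul_dvd_mul hdX (hh i)

lemma det_congr {n : Type*} [Fintype n] [DecidableEq n] {M M' : Matrix n n k⟦X⟧} {m : ℕ}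
    (h : ∀ i j, X ^ m ∣ M i j - M' i j) : X ^ m ∣ M.det - M'.det := by
  rw [← Ideal.mem_span_singleton, ← Ideal.Quotient.eq]
  rw [RingHom.map_det, RingHom.map_det]
  congr 1
  ext i j
  rw [RingHom.mapMatrix_apply, RingHom.mapMatrix_apply, Matrix.map_apply, Matrix.map_apply,
    Ideal.Quotient.eq, Ideal.mem_span_singleton]
  exact h i j

end taylor

section newton

variable {K : Type*} [Field K] [NumberField K] {ι : Type*} [Fintype ι] [DecidableEq ι]

/-- the values of the variables -/
noncomputable abbrev vU (U : Option ι → K⟦X⟧) (B : ι → K⟦X⟧) : Vr ι → K⟦X⟧ :=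
  vv X (U none) (fun i => U (some i)) B

/-- the matrix of the system -/
noncomputable def mat (P : Option ι → MvPolynomial (Vr ι) K) (U : Option ι → K⟦X⟧)
    (B : ι → K⟦X⟧) : Matrix (Option ι) (Option ι) K⟦X⟧ :=
  Matrix.of fun o o' => row X (U none) (fun i => U (some i)) B (P o) o'

lemma aeval_mem {σ : Type*} (A : Subring K⟦X⟧) (P : MvPolynomial σ K) (w : σ → K⟦X⟧)
    (hw : ∀ v, w v ∈ A) (hP : ∀ m, C (P.coeff m) ∈ A) : MvPolynomial.aeval w P ∈ A := by
  rw [MvPolynomial.aeval_def, MvPolynomial.eval₂_eq]
  refine sum_mem fun d _ => mul_mem (hP d) (prod_mem fun i _ => pow_mem (hw i) _)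

lemma coeff_pderiv_mem {σ : Type*} (A : Subring K⟦X⟧) (P : MvPolynomial σ K) (i : σ)
    (hP : ∀ m, C (P.coeff m) ∈ A) (m : σ →₀ ℕ) : C ((MvPolynomial.pderiv i P).coeff m) ∈ A := by
  classical
  have h1 : MvPolynomial.pderiv i P = ∑ d ∈ P.support,
      MvPolynomial.monomial (d - Finsupp.single i 1) (P.coeff d * d i) := by
    conv_lhs => rw [P.as_sum]
    rw [map_sum]
    exact Finset.sum_congr rfl fun d _ => MvPolynomial.pderiv_monomial
  rw [h1, MvPolynomial.coeff_sum, map_sum]
  refine sum_mem fun d _ => ?_
  rw [MvPolynomial.coeff_monomial]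
  split_ifs
  · rw [map_mul]
    refine mul_mem (hP d) ?_
    have : (C ((d i : ℕ) : K) : K⟦X⟧) = ((d i : ℕ) : K⟦X⟧) := by simp
    rw [this]; exact natCast_mem _ _
  · rw [map_zero]; exact zero_mem _

lemma row_mem (A : Subring K⟦X⟧) (P : MvPolynomial (Vr ι) K) (z f : K⟦X⟧) (a b : ι → K⟦X⟧)
    (hw : ∀ v, vv z f a b v ∈ A) (hP : ∀ m, C (P.coeff m) ∈ A) (o : Option ι) :
    row z f a b P o ∈ A := by
  cases o with
  | none => exact aeval_mem A _ _ hw (coeff_pderiv_mem A P _ hP)
  | some i =>
    refine add_mem (aeval_mem A _ _ hw (coeff_pderiv_mem A P _ hP)) (mul_mem ?_ ?_)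
    · exact hw (some (Sum.inr i))
    · exact aeval_mem A _ _ hw (coeff_pderiv_mem A P _ hP)

lemma row_congr (P : MvPolynomial (Vr ι) K) {U U' : Option ι → K⟦X⟧} {B B' : ι → K⟦X⟧} {m : ℕ}
    (hU : ∀ o, X ^ m ∣ U o - U' o) (hB : ∀ i, X ^ m ∣ B i - B' i) (o : Option ι) :
    X ^ m ∣ row X (U none) (fun i => U (some i)) B P o -
      row X (U' none) (fun i => U' (some i)) B' P o := by
  have hw : ∀ v, X ^ m ∣ vU U B v - vU U' B' v := by
    rintro (_ | (_ | i) | i)
    · change X ^ m ∣ (X : K⟦X⟧) - X; rw [sub_self]; exact dvd_zero _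
    · exact hU none
    · exact hU (some i)
    · exact hB i
  cases o with
  | none => exact aeval_congr _ hw
  | some i =>
    have h1 := aeval_congr (MvPolynomial.pderiv (some (Sum.inl (some i))) P) hw
    have h2 := aeval_congr (MvPolynomial.pderiv (some (Sum.inr i)) P) hw
    have h3 := hB i
    simp only [row]
    have e : ∀ a a' b b' c c' : K⟦X⟧, a + b * c - (a' + b' * c') = (a - a') + ((b - b') * c +
        b' * (c - c')) := by intros; ring
    rw [e]
    exact dvd_add h1 (dvd_add (Dvd.dvd.mul_right h3 _) (Dvd.dvd.mul_left h2 _))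

/-- **Newton's method.** -/
theorem newton (v : HeightOneSpectrum (𝓞 K)) (P : Option ι → MvPolynomial (Vr ι) K)
    (u : Option ι → K⟦X⟧) (b : ι → K⟦X⟧) (U : Option ι → K⟦X⟧) (B : ι → K⟦X⟧)
    (c a0 : ι → K) (l : ι → K⟦X⟧) (r k0 N1 N : ℕ)
    (hr : r < k0) (hk0 : k0 ≤ N1) (hN : k0 + r < N)
    (ha0 : ∀ i, constantCoeff (u (some i)) = a0 i) (hl : ∀ i, constantCoeff (l i) = 0)
    (hPv : ∀ o m, v.valuation K ((P o).coeff m) ≤ 1)
    (huv : ∀ o, ∀ m < k0, v.valuation K (coeff m (u o)) ≤ 1)
    (hUu : ∀ o, X ^ N1 ∣ U o - u o) (hBb : ∀ i, X ^ N1 ∣ B i - b i)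
    (hPU : ∀ o, X ^ N ∣ MvPolynomial.aeval (vU U B) (P o))
    (hB : ∀ i, X ^ N ∣ B i - C (c i) * Ex (U (some i) - C (a0 i) + l i))
    (hDw : ∀ i, ∀ s ∈ Ov v, X ^ k0 ∣ s - u (some i) →
      C (c i) * Ex (s - C (a0 i) + l i) ∈ Av v (N - 1))
    (hdet0 : X ^ r ∣ (mat P u b).det) (hdet : v.valuation K (coeff r (mat P u b).det) = 1) :
    ∀ o, ∀ m, m + r < N → v.valuation K (coeff m (U o)) ≤ 1 := by
  have hCP : ∀ o m, C ((P o).coeff m) ∈ Av v (N - 1) := fun o m j _ => C_mem_Ov (hPv o m) j
  -- the induction claim
  have key : ∀ n, k0 + n + r ≤ N → ∀ o, ∀ m < k0 + n, v.valuation K (coeff m (U o)) ≤ 1 := by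
    intro n
    induction n with
    | zero =>
      intro _ o m hm
      have h1 := hUu o
      rw [X_pow_dvd_iff] at h1
      have h2 := h1 m (by omega)
      rw [map_sub, sub_eq_zero] at h2
      rw [h2]
      exact huv o m (by omega)
    | succ n ih =>
      intro hn
      have ih' := ih (by omega)
      set k := k0 + n with hk
      -- truncations
      let s : Option ι → K⟦X⟧ := fun o => ((trunc k (U o) : Polynomial K) : K⟦X⟧)
      have hsc : ∀ o m, coeff m (s o) = if m < k then coeff m (U o) else 0 := by
        intro o m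
        simp only [s]
        rw [Polynomial.coeff_coe, coeff_trunc]
      have hsv : ∀ o, s o ∈ Ov v := by
        intro o m
        rw [hsc]
        split_ifs with h
        · exact ih' o m h
        · simp
      let α : Option ι → K⟦X⟧ := fun o => U o - s o
      have hα : ∀ o, X ^ k ∣ α o := by
        intro o
        rw [X_pow_dvd_iff]
        intro m hm
        simp only [α]
        rw [map_sub, hsc, if_pos hm, sub_self]
      have hsu : ∀ o, X ^ min k N1 ∣ s o - u o := by
        intro o
        have e : s o - u o = (U o - u o) - α o := by simp only [α]; ring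
        rw [e]
        exact dvd_sub ((pow_dvd_pow _ (min_le_right _ _)).trans (hUu o))
          ((pow_dvd_pow _ (min_le_left _ _)).trans (hα o))
      have hsu0 : ∀ o, X ^ k0 ∣ s o - u o := fun o =>
        (pow_dvd_pow _ (le_min (by omega) hk0)).trans (hsu o)
      let Bt : ι → K⟦X⟧ := fun i => C (c i) * Ex (s (some i) - C (a0 i) + l i)
      have hBtv : ∀ i, Bt i ∈ Av v (N - 1) := fun i => hDw i _ (hsv _) (hsu0 _)
      have hs0 : ∀ i, constantCoeff (s (some i)) = a0 i := by
        intro i
        have h1 := hsu0 (some i)
        rw [X_pow_dvd_iff] at h1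
        have h2 := h1 0 (by omega)
        rw [map_sub, sub_eq_zero] at h2
        simp only [coeff_zero_eq_constantCoeff_apply] at h2
        rw [h2, ha0]
      -- `B = Bt (1 + α)`
      set N' := min (k * 2) N with hN'
      have hBBt : ∀ i, X ^ N' ∣ B i - (Bt i + Bt i * α (some i)) := by
        intro i
        have h1 : constantCoeff (s (some i) - C (a0 i) + l i) = 0 := by
          rw [map_add, map_sub, hs0, constantCoeff_C, sub_self, hl, add_zero]
        have h2 : constantCoeff (α (some i)) = 0 := by
          have := hα (some i)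
          rw [X_pow_dvd_iff] at this
          simpa using this 0 (by omega)
        have h3 : Ex (U (some i) - C (a0 i) + l i) = Ex (s (some i) - C (a0 i) + l i) *
            Ex (α (some i)) := by
          rw [← Ex_add h1 h2]
          congr 1
          simp only [α]; ring
        have h4 := Ex_first (q := k) (by omega) (hα (some i))
        have h5 := hB i
        rw [h3] at h5
        have e : B i - (Bt i + Bt i * α (some i)) = (B i - C (c i) *
            (Ex (s (some i) - C (a0 i) + l i) * Ex (α (some i)))) +
            Bt i * (Ex (α (some i)) - (1 + α (some i))) := by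
          simp only [Bt]; ring
        rw [e]
        exact dvd_add ((pow_dvd_pow _ (min_le_right _ _)).trans h5)
          (Dvd.dvd.mul_left ((pow_dvd_pow _ (min_le_left _ _)).trans h4) _)
      have hkN' : k ≤ N' := le_min (by omega) (by omega)
      -- Taylor expansion
      let w : Vr ι → K⟦X⟧ := vU s Bt
      let h : Vr ι → K⟦X⟧ := fun x => vU U B x - w x
      have hh : ∀ x, X ^ k ∣ h x := by
        rintro (_ | (_ | i) | i)
        · change X ^ k ∣ (X : K⟦X⟧) - X; rw [sub_self]; exact dvd_zero _
        · exact hα none
        · exact hα (some i)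
        · change X ^ k ∣ B i - Bt i
          have e : B i - Bt i = (B i - (Bt i + Bt i * α (some i))) + Bt i * α (some i) := by ring
          rw [e]
          exact dvd_add ((pow_dvd_pow _ hkN').trans (hBBt i)) (Dvd.dvd.mul_left (hα _) _)
      have hwh : (fun x => w x + h x) = vU U B := by
        ext1 x; simp only [h]; ring
      have hsys : ∀ o, X ^ N' ∣ MvPolynomial.aeval w (P o) + ∑ o', mat P s Bt o o' * α o' := by
        intro o
        have h1 := taylor (P o) (w := w) hh
        rw [hwh] at h1
        have h2 : ∑ x, MvPolynomial.aeval w (MvPolynomial.pderiv x (P o)) * h x =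
            ∑ o', mat P s Bt o o' * α o' + ∑ i, MvPolynomial.aeval w
              (MvPolynomial.pderiv (some (Sum.inr i)) (P o)) *
                (B i - (Bt i + Bt i * α (some i))) := by
          rw [Fintype.sum_option, Fintype.sum_sum_type, Fintype.sum_option, Fintype.sum_option]
          have e0 : h none = 0 := by change (X : K⟦X⟧) - X = 0; rw [sub_self]
          have e1 : h (some (Sum.inl none)) = α none := rfl
          have e2 : ∀ i, h (some (Sum.inl (some i))) = α (some i) := fun _ => rfl
          have e3 : ∀ i, h (some (Sum.inr i)) = B i - Bt i := fun _ => rfl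
          have e4 : mat P s Bt o none = MvPolynomial.aeval w
              (MvPolynomial.pderiv (some (Sum.inl none)) (P o)) := rfl
          have e5 : ∀ i, mat P s Bt o (some i) = MvPolynomial.aeval w
              (MvPolynomial.pderiv (some (Sum.inl (some i))) (P o)) + Bt i *
              MvPolynomial.aeval w (MvPolynomial.pderiv (some (Sum.inr i)) (P o)) := fun _ => rfl
          simp only [e0, e1, e2, e3, e4, e5]
          rw [mul_zero, zero_add, add_assoc, add_assoc, ← Finset.sum_add_distrib,
            ← Finset.sum_add_distrib]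
          congr 1
          refine Finset.sum_congr rfl fun i _ => ?_
          ring
        rw [h2] at h1
        have h3 : X ^ N' ∣ ∑ i, MvPolynomial.aeval w
              (MvPolynomial.pderiv (some (Sum.inr i)) (P o)) *
                (B i - (Bt i + Bt i * α (some i))) :=
          Finset.dvd_sum fun i _ => Dvd.dvd.mul_left (hBBt i) _
        have h4 : X ^ N' ∣ MvPolynomial.aeval (vU U B) (P o) :=
          (pow_dvd_pow _ (min_le_right _ _)).trans (hPU o)
        have h5 : X ^ N' ∣ MvPolynomial.aeval (vU U B) (P o) - MvPolynomial.aeval w (P o) -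
            (∑ o', mat P s Bt o o' * α o' + ∑ i, MvPolynomial.aeval w
              (MvPolynomial.pderiv (some (Sum.inr i)) (P o)) *
                (B i - (Bt i + Bt i * α (some i)))) :=
          (pow_dvd_pow _ (min_le_left _ _)).trans h1
        have e : MvPolynomial.aeval w (P o) + ∑ o', mat P s Bt o o' * α o' =
            MvPolynomial.aeval (vU U B) (P o) - (MvPolynomial.aeval (vU U B) (P o) -
              MvPolynomial.aeval w (P o) - (∑ o', mat P s Bt o o' * α o' +
                ∑ i, MvPolynomial.aeval w (MvPolynomial.pderiv (some (Sum.inr i)) (P o)) *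
                (B i - (Bt i + Bt i * α (some i))))) -
              ∑ i, MvPolynomial.aeval w (MvPolynomial.pderiv (some (Sum.inr i)) (P o)) *
                (B i - (Bt i + Bt i * α (some i))) := by ring
        rw [e]
        exact dvd_sub (dvd_sub h4 h5) h3
      -- integrality of the data
      have hwv : ∀ x, w x ∈ Av v (N - 1) := by
        rintro (_ | (_ | i) | i)
        · exact fun j _ => X_mem_Ov j
        · exact fun j _ => hsv none j
        · exact fun j _ => hsv (some i) j
        · exact hBtv i
      have hmatv : ∀ o o', mat P s Bt o o' ∈ Av v (N - 1) := fun o o' =>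
        row_mem _ _ _ _ _ _ hwv (hCP o) o'
      have hpv : ∀ o, MvPolynomial.aeval w (P o) ∈ Av v (N - 1) := fun o =>
        aeval_mem _ _ _ hwv (hCP o)
      have hadjv : ∀ o o', (mat P s Bt).adjugate o o' ∈ Av v (N - 1) := by
        intro o o'
        rw [Matrix.adjugate_apply, Matrix.det_apply]
        refine sum_mem fun τ _ => ?_
        rw [Units.smul_def, zsmul_eq_mul]
        refine mul_mem (intCast_mem _ _) (prod_mem fun i _ => ?_)
        rw [Matrix.updateRow_apply]
        split_ifs
        · rw [Pi.single_apply]
          split_ifs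
          · exact one_mem _
          · exact zero_mem _
        · exact hmatv _ _
      have hdetv : (mat P s Bt).det ∈ Av v (N - 1) := by
        rw [Matrix.det_apply]
        refine sum_mem fun τ _ => ?_
        rw [Units.smul_def, zsmul_eq_mul]
        exact mul_mem (intCast_mem _ _) (prod_mem fun i _ => hmatv _ _)
      -- multiply by the adjugate
      have hadj : ∀ o, X ^ N' ∣ ∑ o', (mat P s Bt).adjugate o o' * MvPolynomial.aeval w (P o') +
          (mat P s Bt).det * α o := by
        intro o
        have e : ∑ o', (mat P s Bt).adjugate o o' * MvPolynomial.aeval w (P o') +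
          (mat P s Bt).det * α o = ∑ o', (mat P s Bt).adjugate o o' *
            (MvPolynomial.aeval w (P o') + ∑ o'', mat P s Bt o' o'' * α o'') := by
          simp only [mul_add, Finset.sum_add_distrib]
          congr 1
          have e1 := congrFun (congrArg (fun M : Matrix (Option ι) (Option ι) K⟦X⟧ => M.mulVec α)
            (Matrix.adjugate_mul (mat P s Bt))) o
          simp only [← Matrix.mulVec_mulVec, Matrix.smul_mulVec, Matrix.one_mulVec, Pi.smul_apply,
            smul_eq_mul] at e1
          rw [← e1]
          rfl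
        rw [e]
        exact Finset.dvd_sum fun o' _ => Dvd.dvd.mul_left (hsys o') _
      -- the determinant
      have hdd : X ^ min k N1 ∣ (mat P s Bt).det - (mat P u b).det := by
        apply det_congr
        intro o o'
        refine row_congr (P o) hsu (fun i => ?_) o'
        have e : Bt i - b i = (B i - b i) - (B i - Bt i) := by ring
        rw [e]
        exact dvd_sub ((pow_dvd_pow _ (min_le_right _ _)).trans (hBb i))
          ((pow_dvd_pow _ (min_le_left _ _)).trans (hh (some (Sum.inr i))))
      have hrk : r < min k N1 := lt_min (by omega) (by omega)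
      have hdr : X ^ r ∣ (mat P s Bt).det := by
        have := dvd_add ((pow_dvd_pow _ hrk.le).trans hdd) hdet0
        rwa [sub_add_cancel] at this
      obtain ⟨W, hW⟩ := hdr
      have hW0 : v.valuation K (constantCoeff W) = 1 := by
        have h1 : coeff r (mat P s Bt).det = coeff r (mat P u b).det := by
          rw [X_pow_dvd_iff] at hdd
          have := hdd r hrk
          rwa [map_sub, sub_eq_zero] at this
        rw [← h1, hW, coeff_X_pow_mul', if_pos le_rfl, Nat.sub_self,
          coeff_zero_eq_constantCoeff_apply] at hdet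
        exact hdet
      have hWv : W ∈ Av v (N' - 1 - r) := by
        intro j hj
        have h1 := hdetv (j + r) (by omega)
        rwa [hW, coeff_X_pow_mul] at h1
      have hWinv := inv_mem_Av hWv hW0
      have hWne : constantCoeff W ≠ 0 := by
        intro h0; rw [h0] at hW0; simp at hW0
      have hfin : ∀ o, α o ∈ Av v (N' - 1 - r) := by
        intro o
        have h1 : W * α o ∈ Av v (N' - 1 - r) := by
          intro j hj
          have h2 := hadj o
          rw [X_pow_dvd_iff] at h2
          have h3 := h2 (j + r) (by omega)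
          rw [map_add, hW, mul_assoc, coeff_X_pow_mul] at h3
          rw [eq_neg_of_add_eq_zero_right h3, Valuation.map_neg]
          exact (sum_mem fun o' _ => mul_mem (hadjv o o') (hpv o') :
            ∑ o', (mat P s Bt).adjugate o o' * MvPolynomial.aeval w (P o') ∈ Av v (N - 1))
            (j + r) (by omega)
        have h2 := mul_mem hWinv h1
        rwa [← mul_assoc, PowerSeries.inv_mul_cancel _ hWne, one_mul] at h2
      intro o m hm
      have e : coeff m (U o) = coeff m (s o) + coeff m (α o) := by
        simp only [α]; rw [map_sub]; ring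
      rw [e]
      exact Valuation.map_add_le _ (hsv o m) (hfin o m (by omega))
  intro o m hm
  rcases lt_or_ge m k0 with h | h
  · exact key 0 (by omega) o m (by omega)
  · exact key (m + 1 - k0) (by omega) o m (by omega)

end newton

end Run7.h131.LL
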