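import Mathlib
import Pool.Agent.Run7.h131.LL.Th

/-!
# The flow of `u ∑ T^s E_s`

`Φ(h) = ∑ c_m(h) T^m` with `m c_m(h) = ∑_s s u c_{m-s}(E_s h)`, `c_0(h) = h`.
-/

set_option autoImplicit false
open PowerSeries

namespace Run7.h131.LL

variable {k L : Type*} [Field k] [Field L] [Algebra k L] [CharZero L]

/-- the coefficients of the flow -/
noncomputable def cc (E : ℕ → Derivation k L L) (u : k) : ℕ → L → L
  | 0, h => h
  | m + 1, h => ((m : L) + 1)⁻¹ *
      ∑ s : Fin (m + 1), (((s : ℕ) : L) + 1) * algebraMap k L u * cc E u (m - s) (E (s + 1) h)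
  termination_by m => m
  decreasing_by omega

variable (E : ℕ → Derivation k L L) (u : k)

lemma cc_zero (h : L) : cc E u 0 h = h := by rw [cc]

lemma cc_succ (m : ℕ) (h : L) : cc E u (m + 1) h = ((m : L) + 1)⁻¹ *
      ∑ s ∈ Finset.range (m + 1), ((s : L) + 1) * algebraMap k L u *
        cc E u (m - s) (E (s + 1) h) := by
  rw [cc, Finset.sum_range]

lemma cc_add (m : ℕ) : ∀ g h : L, cc E u m (g + h) = cc E u m g + cc E u m h := by
  induction m using Nat.strong_induction_on with
  | _ m ih =>
    intro g h
    cases m with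
    | zero => simp only [cc_zero]
    | succ m =>
      rw [cc_succ, cc_succ, cc_succ, ← mul_add, ← Finset.sum_add_distrib]
      congr 1
      refine Finset.sum_congr rfl fun s hs => ?_
      rw [map_add, ih (m - s) (by omega)]
      ring

lemma cc_map_zero (m : ℕ) : cc E u m 0 = 0 := by
  have := cc_add E u m 0 0
  rw [add_zero] at this
  exact (add_eq_left.1 this.symm)

lemma cc_const (m : ℕ) (c : k) : cc E u (m + 1) (algebraMap k L c) = 0 := by
  rw [cc_succ]
  rw [Finset.sum_eq_zero, mul_zero]
  intro s _
  rw [Derivation.map_algebraMap, cc_map_zero, mul_zero]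

/-- an element killed by all `E_s` -/
lemma cc_kill (m : ℕ) {h : L} (hh : ∀ s, E s h = 0) : cc E u (m + 1) h = 0 := by
  rw [cc_succ]
  rw [Finset.sum_eq_zero, mul_zero]
  intro s _
  rw [hh, cc_map_zero, mul_zero]

/-- the first coefficients of an element killed by the first derivations -/
lemma cc_first {S : ℕ} {h : L} (hh : ∀ s, s < S → E (s + 1) h = 0) :
    (∀ m, m < S → cc E u (m + 1) h = 0) ∧ cc E u (S + 1) h = algebraMap k L u * E (S + 1) h := by
  constructor
  · intro m hm
    rw [cc_succ, Finset.sum_eq_zero, mul_zero]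
    intro s hs
    rw [Finset.mem_range] at hs
    rw [hh s (by omega), cc_map_zero, mul_zero]
  · rw [cc_succ, Finset.sum_range_succ, Finset.sum_eq_zero, zero_add, Nat.sub_self, cc_zero]
    · have : ((S : L) + 1) ≠ 0 := by exact_mod_cast Nat.succ_ne_zero S
      field_simp
    · intro s hs
      rw [Finset.mem_range] at hs
      rw [hh s hs, cc_map_zero, mul_zero]

/-- the flow -/
noncomputable def Fl (h : L) : L⟦X⟧ := PowerSeries.mk fun m => cc E u m h

lemma coeff_Fl (m : ℕ) (h : L) : coeff m (Fl E u h) = cc E u m h := coeff_mk _ _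

lemma constantCoeff_Fl (h : L) : constantCoeff (Fl E u h) = h := by
  rw [← coeff_zero_eq_constantCoeff_apply, coeff_Fl, cc_zero]

lemma Fl_add (g h : L) : Fl E u (g + h) = Fl E u g + Fl E u h := by
  ext m; rw [map_add, coeff_Fl, coeff_Fl, coeff_Fl, cc_add]

lemma Fl_const (c : k) : Fl E u (algebraMap k L c) = C (algebraMap k L c) := by
  ext m
  rw [coeff_Fl, coeff_C]
  cases m with
  | zero => rw [cc_zero, if_pos rfl]
  | succ m => rw [cc_const, if_neg (Nat.succ_ne_zero m)]

lemma Fl_kill {h : L} (hh : ∀ s, E s h = 0) : Fl E u h = C h := by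
  ext m
  rw [coeff_Fl, coeff_C]
  cases m with
  | zero => rw [cc_zero, if_pos rfl]
  | succ m => rw [cc_kill E u m hh, if_neg (Nat.succ_ne_zero m)]

variable {S : ℕ} (hS : ∀ s, S ≤ s → E s = 0)

include hS in
lemma th_Fl (h : L) : th (Fl E u h) = ∑ s ∈ Finset.range S,
    C ((s : L) * algebraMap k L u) * (X ^ s * Fl E u (E s h)) := by
  ext m
  rw [coeff_th, coeff_Fl, map_sum]
  simp only [coeff_C_mul, coeff_X_pow_mul', coeff_Fl]
  cases m with
  | zero =>
    rw [Nat.cast_zero, zero_mul]
    symm
    refine Finset.sum_eq_zero fun s _ => ?_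
    cases s with
    | zero => simp
    | succ s => simp
  | succ m =>
    rw [cc_succ]
    have hm : ((m : L) + 1) ≠ 0 := by exact_mod_cast Nat.succ_ne_zero m
    push_cast
    rw [← mul_assoc, mul_inv_cancel₀ hm, one_mul]
    -- both sides over a common range
    let F : ℕ → L := fun s => (s : L) * algebraMap k L u *
      (if s ≤ m + 1 then cc E u (m + 1 - s) (E s h) else 0)
    have h1 : ∑ s ∈ Finset.range (m + 1), ((s : L) + 1) * algebraMap k L u *
        cc E u (m - s) (E (s + 1) h) = ∑ s ∈ Finset.range (m + 2), F s := by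
      rw [Finset.sum_range_succ' F]
      have : F 0 = 0 := by simp [F]
      rw [this, add_zero]
      refine Finset.sum_congr rfl fun s hs => ?_
      rw [Finset.mem_range] at hs
      simp only [F]
      rw [if_pos (by omega), show m + 1 - (s + 1) = m - s by omega]
      push_cast; ring
    have h2 : ∀ s, S ≤ s → F s = 0 := by
      intro s hs
      simp only [F]
      rw [hS s hs, Derivation.zero_apply, cc_map_zero]; simp
    have h3 : ∀ s, m + 2 ≤ s → F s = 0 := by
      intro s hs
      simp only [F]
      rw [if_neg (by omega), mul_zero]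
    rw [h1]
    change ∑ s ∈ Finset.range (m + 2), F s = ∑ s ∈ Finset.range S, F s
    rcases le_total S (m + 2) with hle | hle
    · symm
      apply Finset.sum_subset (Finset.range_mono hle)
      intro s _ hs
      exact h2 s (by simpa using hs)
    · apply Finset.sum_subset (Finset.range_mono hle)
      intro s _ hs
      exact h3 s (by simpa using hs)

include hS in
lemma Fl_mul (g h : L) : Fl E u (g * h) = Fl E u g * Fl E u h := by
  have key : ∀ m : ℕ, ∀ g h : L, X ^ m ∣ Fl E u (g * h) - Fl E u g * Fl E u h := by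
    intro m
    induction m with
    | zero => intro g h; rw [pow_zero]; exact one_dvd _
    | succ m ih =>
      intro g h
      apply dvd_of_th
      · rw [map_sub, map_mul, constantCoeff_Fl, constantCoeff_Fl, constantCoeff_Fl, sub_self]
      · have e : th (Fl E u (g * h) - Fl E u g * Fl E u h) = ∑ s ∈ Finset.range S,
            C ((s : L) * algebraMap k L u) * (X ^ s *
              ((Fl E u (g * E s h) - Fl E u g * Fl E u (E s h)) +
                (Fl E u (h * E s g) - Fl E u h * Fl E u (E s g)))) := by
          rw [th_sub, th_mul, th_Fl E u hS, th_Fl E u hS, th_Fl E u hS, Finset.sum_mul,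
            Finset.mul_sum, ← Finset.sum_add_distrib, ← Finset.sum_sub_distrib]
          refine Finset.sum_congr rfl fun s _ => ?_
          rw [Derivation.leibniz, Fl_add, smul_eq_mul, smul_eq_mul]
          ring
        rw [e]
        refine Finset.dvd_sum fun s _ => ?_
        cases s with
        | zero => simp
        | succ s =>
          apply Dvd.dvd.mul_left
          rw [pow_succ' X m]
          refine mul_dvd_mul ?_ ?_
          · exact dvd_pow_self X (Nat.succ_ne_zero s)
          · exact dvd_add (ih _ _) (ih _ _)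
  rw [← sub_eq_zero]
  ext i
  have h1 := key (i + 1) g h
  rw [X_pow_dvd_iff] at h1
  rw [h1 i (Nat.lt_succ_self i), map_zero]

/-- the linear part -/
noncomputable def lin (lam : ℕ → k) (S : ℕ) : L⟦X⟧ :=
  ∑ s ∈ Finset.range S, C (algebraMap k L (u * lam s)) * X ^ s

include hS in
lemma Fl_exp {a b : L} (lam : ℕ → k) (hl0 : lam 0 = 0)
    (hb : ∀ s, s < S → E s b = b * (E s a + algebraMap k L (lam s))) (hS0 : 0 < S) :
    X ^ S ∣ Fl E u b - C b * eS S (Fl E u a - C a + lin (L := L) u lam S) := by
  have hlin : th (lin (L := L) u lam S) = ∑ s ∈ Finset.range S,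
      C ((s : L) * algebraMap k L u) * (X ^ s * C (algebraMap k L (lam s))) := by
    unfold lin
    rw [th_sum]
    refine Finset.sum_congr rfl fun s _ => ?_
    rw [th_C_mul, th_X_pow, map_mul, map_mul, map_mul]
    ring
  have h1 : th (Fl E u b) = Fl E u b * th (Fl E u a - C a + lin (L := L) u lam S) := by
    rw [th_add, th_sub, th_C, sub_zero, hlin, th_Fl E u hS a, th_Fl E u hS b,
      ← Finset.sum_add_distrib, Finset.mul_sum]
    refine Finset.sum_congr rfl fun s hs => ?_
    rw [hb s (Finset.mem_range.1 hs), Fl_mul E u hS, Fl_add, Fl_const]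
    ring
  have h2 := expo (q := 1) (S := S) one_pos hS0 (y := Fl E u b)
    (g := Fl E u a - C a + lin (L := L) u lam S) (by
      rw [pow_one, X_dvd_iff, map_add, map_sub, constantCoeff_Fl, constantCoeff_C, sub_self,
        zero_add]
      unfold lin
      rw [map_sum]
      refine Finset.sum_eq_zero fun s _ => ?_
      cases s with
      | zero => rw [hl0]; simp
      | succ s => simp) h1
  rw [one_mul, constantCoeff_Fl] at h2
  exact h2

end Run7.h131.LL
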