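import Mathlib
import Pool.Agent.Run7.h131.LL.Frac
import Pool.Agent.Run7.h131.LL.Flow

/-!
# Specialisation `T = z^p` of truncated power series over the field of Laurent series
-/

set_option autoImplicit false
open PowerSeries

namespace Run7.h131.LL

variable {k : Type*} [Field k]

/-- families with bounded poles -/
def BL (y : ℕ → FL k) : Prop := ∃ C : ℕ, ∀ p, ∃ h : k⟦X⟧, (jj X) ^ C * y p = jj h

/-- families of order at least `p S - C` -/
def NL (S : ℕ) (y : ℕ → FL k) : Prop :=
  ∃ C : ℕ, ∀ p, ∃ h : k⟦X⟧, (jj X) ^ C * y p = (jj X) ^ (p * S) * jj h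

/-- families of power series with bounded poles in each coefficient -/
def BF (φ : ℕ → (FL k)⟦X⟧) : Prop := ∀ m, BL fun p => coeff m (φ p)

lemma BL.jj (g : ℕ → k⟦X⟧) : BL fun p => jj (g p) := ⟨0, fun p => ⟨g p, by rw [pow_zero, one_mul]⟩⟩

lemma BL.const (c : FL k) : BL fun _ => c := by
  obtain ⟨N, h, hN⟩ := exists_pow_mul c
  exact ⟨N, fun _ => ⟨h, hN⟩⟩

lemma BL.scal (g : ℕ → k) : BL fun p => algebraMap k (FL k) (g p) :=
  ⟨0, fun p => ⟨C (g p), by rw [pow_zero, one_mul, jj_C]⟩⟩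

lemma BL.mul {y y' : ℕ → FL k} (h : BL y) (h' : BL y') : BL fun p => y p * y' p := by
  obtain ⟨C, hC⟩ := h
  obtain ⟨C', hC'⟩ := h'
  refine ⟨C + C', fun p => ?_⟩
  obtain ⟨g, hg⟩ := hC p
  obtain ⟨g', hg'⟩ := hC' p
  exact ⟨g * g', by rw [map_mul, ← hg, ← hg', pow_add]; ring⟩

lemma BL.add {y y' : ℕ → FL k} (h : BL y) (h' : BL y') : BL fun p => y p + y' p := by
  obtain ⟨C, hC⟩ := h
  obtain ⟨C', hC'⟩ := h'
  refine ⟨C + C', fun p => ?_⟩
  obtain ⟨g, hg⟩ := hC p
  obtain ⟨g', hg'⟩ := hC' p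
  exact ⟨X ^ C' * g + X ^ C * g', by
    rw [map_add, map_mul, map_mul, ← hg, ← hg', pow_add, map_pow, map_pow]; ring⟩

lemma BL.zero : BL fun _ => (0 : FL k) := BL.const 0

lemma BL.sum {ι : Type*} (s : Finset ι) (y : ι → ℕ → FL k) (h : ∀ i ∈ s, BL (y i)) :
    BL fun p => ∑ i ∈ s, y i p := by
  classical
  induction s using Finset.induction_on with
  | empty => simpa using BL.zero
  | insert a s ha ih =>
    have h1 : (fun p => ∑ i ∈ insert a s, y i p) = fun p => y a p + ∑ i ∈ s, y i p := by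
      ext p; rw [Finset.sum_insert ha]
    rw [h1]
    exact (h a (by simp)).add (ih fun i hi => h i (by simp [hi]))

lemma BL.neg {y : ℕ → FL k} (h : BL y) : BL fun p => - y p := by
  have := (BL.const (-1 : FL k)).mul h
  simpa using this

lemma BL.sub {y y' : ℕ → FL k} (h : BL y) (h' : BL y') : BL fun p => y p - y' p := by
  have := h.add h'.neg
  simpa [sub_eq_add_neg] using this

lemma NL.add {S : ℕ} {y y' : ℕ → FL k} (h : NL S y) (h' : NL S y') :
    NL S fun p => y p + y' p := by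
  obtain ⟨C, hC⟩ := h
  obtain ⟨C', hC'⟩ := h'
  refine ⟨C + C', fun p => ?_⟩
  obtain ⟨g, hg⟩ := hC p
  obtain ⟨g', hg'⟩ := hC' p
  refine ⟨X ^ C' * g + X ^ C * g', ?_⟩
  rw [map_add, map_mul, map_mul, map_pow, map_pow]
  have e : (jj (X : k⟦X⟧)) ^ (C + C') * (y p + y' p) =
      (jj X) ^ C' * ((jj X) ^ C * y p) + (jj X) ^ C * ((jj X) ^ C' * y' p) := by
    rw [pow_add]; ring
  rw [e, hg, hg']; ring

lemma NL.mul {S : ℕ} {y y' : ℕ → FL k} (h : NL S y) (h' : BL y') : NL S fun p => y p * y' p := by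
  obtain ⟨C, hC⟩ := h
  obtain ⟨C', hC'⟩ := h'
  refine ⟨C + C', fun p => ?_⟩
  obtain ⟨g, hg⟩ := hC p
  obtain ⟨g', hg'⟩ := hC' p
  refine ⟨g * g', ?_⟩
  rw [map_mul, ← hg', pow_add]
  calc (jj (X : k⟦X⟧)) ^ C * (jj X) ^ C' * (y p * y' p)
      = ((jj X) ^ C * y p) * ((jj X) ^ C' * y' p) := by ring
    _ = _ := by rw [hg]; ring

lemma NL.neg {S : ℕ} {y : ℕ → FL k} (h : NL S y) : NL S fun p => - y p := by
  have := h.mul (BL.const (-1 : FL k))
  simpa using this

lemma NL.sub {S : ℕ} {y y' : ℕ → FL k} (h : NL S y) (h' : NL S y') :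
    NL S fun p => y p - y' p := by
  have := h.add h'.neg
  simpa [sub_eq_add_neg] using this

lemma NL.zero {S : ℕ} : NL S fun _ => (0 : FL k) :=
  ⟨0, fun _ => ⟨0, by simp⟩⟩

lemma NL.sum {S : ℕ} {ι : Type*} (s : Finset ι) (y : ι → ℕ → FL k) (h : ∀ i ∈ s, NL S (y i)) :
    NL S fun p => ∑ i ∈ s, y i p := by
  classical
  induction s using Finset.induction_on with
  | empty => simpa using NL.zero
  | insert a s ha ih =>
    have h1 : (fun p => ∑ i ∈ insert a s, y i p) = fun p => y a p + ∑ i ∈ s, y i p := by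
      ext p; rw [Finset.sum_insert ha]
    rw [h1]
    exact (h a (by simp)).add (ih fun i hi => h i (by simp [hi]))

lemma NL.of_BL {S m : ℕ} (hm : S ≤ m) {y : ℕ → FL k} (h : BL y) :
    NL S fun p => y p * (jj X) ^ (p * m) := by
  obtain ⟨C, hC⟩ := h
  refine ⟨C, fun p => ?_⟩
  obtain ⟨g, hg⟩ := hC p
  refine ⟨g * X ^ (p * m - p * S), ?_⟩
  have h1 : p * m = p * S + (p * m - p * S) := by
    have := Nat.mul_le_mul_left p hm
    omega
  rw [← mul_assoc, hg, map_mul, map_pow]
  conv_lhs => rw [h1, pow_add]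
  ring

lemma BL_pow {y : ℕ → FL k} (h : BL y) (n : ℕ) : BL fun p => y p ^ n := by
  induction n with
  | zero => simpa using BL.const (1 : FL k)
  | succ n ih => simpa [pow_succ] using ih.mul h

/-- the specialisation -/
noncomputable def sp (S : ℕ) (φ : (FL k)⟦X⟧) (p : ℕ) : FL k :=
  ∑ m ∈ Finset.range S, coeff m φ * (jj X) ^ (p * m)

lemma sp_add (S : ℕ) (φ ψ : (FL k)⟦X⟧) (p : ℕ) : sp S (φ + ψ) p = sp S φ p + sp S ψ p := by
  unfold sp
  rw [← Finset.sum_add_distrib]
  exact Finset.sum_congr rfl fun m _ => by rw [map_add, add_mul]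

lemma sp_sub (S : ℕ) (φ ψ : (FL k)⟦X⟧) (p : ℕ) : sp S (φ - ψ) p = sp S φ p - sp S ψ p := by
  unfold sp
  rw [← Finset.sum_sub_distrib]
  exact Finset.sum_congr rfl fun m _ => by rw [map_sub, sub_mul]

lemma sp_C_mul (S : ℕ) (c : FL k) (φ : (FL k)⟦X⟧) (p : ℕ) :
    sp S (C c * φ) p = c * sp S φ p := by
  unfold sp
  rw [Finset.mul_sum]
  exact Finset.sum_congr rfl fun m _ => by rw [coeff_C_mul, mul_assoc]

lemma sp_C {S : ℕ} (hS : 0 < S) (c : FL k) (p : ℕ) : sp S (C c) p = c := by
  unfold sp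
  obtain ⟨S, rfl⟩ := Nat.exists_eq_succ_of_ne_zero hS.ne'
  rw [Finset.sum_range_succ', Finset.sum_eq_zero]
  · simp
  · intro m _
    rw [coeff_C, if_neg (Nat.succ_ne_zero m), zero_mul]

lemma sp_sum (S : ℕ) {ι : Type*} (s : Finset ι) (φ : ι → (FL k)⟦X⟧) (p : ℕ) :
    sp S (∑ i ∈ s, φ i) p = ∑ i ∈ s, sp S (φ i) p := by
  unfold sp
  rw [Finset.sum_comm]
  exact Finset.sum_congr rfl fun m _ => by rw [map_sum, Finset.sum_mul]

lemma sp_congr {S : ℕ} {φ ψ : (FL k)⟦X⟧} (h : X ^ S ∣ φ - ψ) (p : ℕ) : sp S φ p = sp S ψ p := by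
  unfold sp
  refine Finset.sum_congr rfl fun m hm => ?_
  rw [X_pow_dvd_iff] at h
  have := h m (Finset.mem_range.1 hm)
  rw [map_sub, sub_eq_zero] at this
  rw [this]

lemma BF.toBL {S : ℕ} {φ : ℕ → (FL k)⟦X⟧} (h : BF φ) : BL fun p => sp S (φ p) p := by
  unfold sp
  apply BL.sum
  intro m _
  refine (h m).mul ?_
  have := BL.jj (fun p => (X : k⟦X⟧) ^ (p * m))
  simpa using this

lemma BF.mul {φ ψ : ℕ → (FL k)⟦X⟧} (h : BF φ) (h' : BF ψ) : BF fun p => φ p * ψ p := by
  intro m
  have : (fun p => coeff m (φ p * ψ p)) =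
      fun p => ∑ ij ∈ Finset.HasAntidiagonal.antidiagonal m,
        coeff ij.1 (φ p) * coeff ij.2 (ψ p) := by
    ext p; rw [coeff_mul]
  rw [this]
  exact BL.sum _ _ fun ij _ => (h ij.1).mul (h' ij.2)

lemma BF.add {φ ψ : ℕ → (FL k)⟦X⟧} (h : BF φ) (h' : BF ψ) : BF fun p => φ p + ψ p := by
  intro m
  have := (h m).add (h' m)
  simpa using this

lemma BF.sub {φ ψ : ℕ → (FL k)⟦X⟧} (h : BF φ) (h' : BF ψ) : BF fun p => φ p - ψ p := by
  intro m
  have := (h m).sub (h' m)
  simpa using this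

lemma BF.const (φ : (FL k)⟦X⟧) : BF fun _ => φ := fun m => BL.const _

lemma BF.pow {φ : ℕ → (FL k)⟦X⟧} (h : BF φ) (n : ℕ) : BF fun p => φ p ^ n := by
  induction n with
  | zero => simpa using BF.const (1 : (FL k)⟦X⟧)
  | succ n ih => simpa [pow_succ] using ih.mul h

lemma sp_eval (S : ℕ) (φ : (FL k)⟦X⟧) (p : ℕ) :
    sp (S + 1) φ p = Polynomial.eval ((jj X) ^ p) (trunc (S + 1) φ) := by
  rw [Polynomial.eval_eq_sum_range' (n := S + 1) (natDegree_trunc_lt φ S)]
  unfold sp
  refine Finset.sum_congr rfl fun m hm => ?_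
  rw [coeff_trunc, if_pos (Finset.mem_range.1 hm), pow_mul]

lemma sp_mul (S : ℕ) {φ ψ : ℕ → (FL k)⟦X⟧} (h : BF φ) (h' : BF ψ) :
    NL S fun p => sp S (φ p * ψ p) p - sp S (φ p) p * sp S (ψ p) p := by
  cases S with
  | zero => simpa [sp] using (NL.zero (k := k) (S := 0))
  | succ S =>
    have key : ∀ p, sp (S + 1) (φ p * ψ p) p - sp (S + 1) (φ p) p * sp (S + 1) (ψ p) p =
        - ∑ m ∈ Finset.range (S + 1), (trunc (S + 1) (φ p) * trunc (S + 1) (ψ p)).coeff (S + 1 + m) *
          (jj X) ^ (p * (S + 1 + m)) := by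
      intro p
      rw [sp_eval S (φ p), sp_eval S (ψ p), ← Polynomial.eval_mul]
      have hdeg : (trunc (S + 1) (φ p) * trunc (S + 1) (ψ p)).natDegree < S + 1 + (S + 1) := by
        have h1 := natDegree_trunc_lt (φ p) S
        have h2 := natDegree_trunc_lt (ψ p) S
        have h3 := Polynomial.natDegree_mul_le (p := trunc (S + 1) (φ p)) (q := trunc (S + 1) (ψ p))
        omega
      rw [Polynomial.eval_eq_sum_range' hdeg, Finset.sum_range_add]
      unfold sp
      have h1 : ∀ m ∈ Finset.range (S + 1), coeff m (φ p * ψ p) * (jj X) ^ (p * m) =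
          (trunc (S + 1) (φ p) * trunc (S + 1) (ψ p)).coeff m * ((jj X) ^ p) ^ m := by
        intro m hm
        rw [Finset.mem_range] at hm
        rw [coeff_mul_eq_coeff_trunc_mul_trunc (n := S + 1) _ _ hm, ← Polynomial.coe_mul,
          Polynomial.coeff_coe, pow_mul]
      rw [Finset.sum_congr rfl h1, sub_add_cancel_left]
      congr 1
      refine Finset.sum_congr rfl fun m _ => ?_
      rw [pow_mul]
    have : (fun p => sp (S + 1) (φ p * ψ p) p - sp (S + 1) (φ p) p * sp (S + 1) (ψ p) p) = fun p =>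
        - ∑ m ∈ Finset.range (S + 1), (trunc (S + 1) (φ p) * trunc (S + 1) (ψ p)).coeff (S + 1 + m) *
          (jj X) ^ (p * (S + 1 + m)) := by
      ext p; exact key p
    rw [this]
    apply NL.neg
    apply NL.sum
    intro m _
    apply NL.of_BL (by omega)
    have h2 : (fun p => (trunc (S + 1) (φ p) * trunc (S + 1) (ψ p)).coeff (S + 1 + m)) = fun p =>
        ∑ ij ∈ Finset.HasAntidiagonal.antidiagonal (S + 1 + m),
          (trunc (S + 1) (φ p)).coeff ij.1 * (trunc (S + 1) (ψ p)).coeff ij.2 := by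
      ext p; rw [Polynomial.coeff_mul]
    rw [h2]
    apply BL.sum
    intro ij _
    have h3 : ∀ (χ : ℕ → (FL k)⟦X⟧) (i : ℕ), BF χ → BL fun p => (trunc (S + 1) (χ p)).coeff i := by
      intro χ i hχ
      simp only [coeff_trunc]
      split_ifs
      · exact hχ i
      · exact BL.zero
    exact (h3 φ _ h).mul (h3 ψ _ h')

lemma sp_pow {S : ℕ} (hS : 0 < S) {φ : ℕ → (FL k)⟦X⟧} (h : BF φ) (n : ℕ) :
    NL S fun p => sp S (φ p ^ n) p - sp S (φ p) p ^ n := by
  induction n with
  | zero =>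
    have : (fun p : ℕ => sp S (φ p ^ 0) p - sp S (φ p) p ^ 0) = fun _ => (0 : FL k) := by
      ext p
      rw [pow_zero, pow_zero, ← map_one (C (R := FL k)), sp_C hS, sub_self]
    rw [this]; exact NL.zero
  | succ n ih =>
    have h1 := (sp_mul S (h.pow n) h).add (ih.mul (h.toBL (S := S)))
    have : (fun p : ℕ => sp S (φ p ^ (n + 1)) p - sp S (φ p) p ^ (n + 1)) = fun p =>
        sp S (φ p ^ n * φ p) p - sp S (φ p ^ n) p * sp S (φ p) p +
          (sp S (φ p ^ n) p - sp S (φ p) p ^ n) * sp S (φ p) p := by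
      ext p; rw [pow_succ, pow_succ]; ring
    rw [this]; exact h1

variable [CharZero k]

lemma BF_Fl (E : ℕ → Derivation k (FL k) (FL k)) (u : ℕ → k) (h : FL k) :
    BF fun p => Fl E (u p) h := by
  intro m
  have key : ∀ m : ℕ, ∀ h : FL k, BL fun p => cc E (u p) m h := by
    intro m
    induction m using Nat.strong_induction_on with
    | _ m ih =>
      intro h
      cases m with
      | zero => simpa [cc_zero] using BL.const h
      | succ m =>
        have : (fun p => cc E (u p) (m + 1) h) = fun p => ((m : FL k) + 1)⁻¹ *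
            ∑ s ∈ Finset.range (m + 1), ((s : FL k) + 1) * algebraMap k (FL k) (u p) *
              cc E (u p) (m - s) (E (s + 1) h) := by
          ext p; rw [cc_succ]
        rw [this]
        refine (BL.const _).mul (BL.sum _ _ fun s _ => ?_)
        exact ((BL.const _).mul (BL.scal u)).mul (ih (m - s) (by omega) _)
  have := key m h
  simpa [coeff_Fl] using this

/-- the map `J` -/
noncomputable def J (E : ℕ → Derivation k (FL k) (FL k)) (u : ℕ → k) (S : ℕ) (h : FL k) (p : ℕ) :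
    FL k := sp S (Fl E (u p) h) p

variable (E : ℕ → Derivation k (FL k) (FL k)) (u : ℕ → k) {S : ℕ}

lemma J_BL (h : FL k) : BL (J E u S h) := (BF_Fl E u h).toBL

lemma J_aeval (hS0 : 0 < S) (hS : ∀ s, S ≤ s → E s = 0) {σ : Type*} (x : σ → FL k)
    (P : MvPolynomial σ k) :
    NL S fun p => J E u S (MvPolynomial.aeval x P) p -
      MvPolynomial.aeval (fun i => J E u S (x i) p) P := by
  induction P using MvPolynomial.induction_on with
  | C c =>
    have : (fun p => J E u S (MvPolynomial.aeval x (MvPolynomial.C c)) p -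
        MvPolynomial.aeval (fun i => J E u S (x i) p) (MvPolynomial.C c)) = fun _ => (0 : FL k) := by
      ext p
      rw [MvPolynomial.aeval_C, MvPolynomial.aeval_C]
      unfold J
      rw [Fl_const, sp_C hS0, sub_self]
    rw [this]; exact NL.zero
  | add P Q hP hQ =>
    have h1 := hP.add hQ
    have : (fun p => J E u S (MvPolynomial.aeval x (P + Q)) p -
        MvPolynomial.aeval (fun i => J E u S (x i) p) (P + Q)) = fun p =>
        (J E u S (MvPolynomial.aeval x P) p - MvPolynomial.aeval (fun i => J E u S (x i) p) P) +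
        (J E u S (MvPolynomial.aeval x Q) p - MvPolynomial.aeval (fun i => J E u S (x i) p) Q) := by
      ext p
      rw [map_add, map_add]
      unfold J
      rw [Fl_add, sp_add]
      ring
    rw [this]; exact h1
  | mul_X P i hP =>
    have h1 := (sp_mul S (BF_Fl E u (MvPolynomial.aeval x P)) (BF_Fl E u (x i))).add
      (hP.mul (J_BL E u (S := S) (x i)))
    have : (fun p => J E u S (MvPolynomial.aeval x (P * MvPolynomial.X i)) p -
        MvPolynomial.aeval (fun i => J E u S (x i) p) (P * MvPolynomial.X i)) = fun p =>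
        (sp S (Fl E (u p) (MvPolynomial.aeval x P) * Fl E (u p) (x i)) p -
          sp S (Fl E (u p) (MvPolynomial.aeval x P)) p * sp S (Fl E (u p) (x i)) p) +
        (J E u S (MvPolynomial.aeval x P) p - MvPolynomial.aeval (fun i => J E u S (x i) p) P) *
          J E u S (x i) p := by
      ext p
      rw [map_mul, map_mul, MvPolynomial.aeval_X, MvPolynomial.aeval_X]
      unfold J
      rw [Fl_mul E (u p) hS]
      ring
    rw [this]; exact h1

/-- relations are preserved -/
lemma J_rel (hS0 : 0 < S) (hS : ∀ s, S ≤ s → E s = 0) {σ : Type*} (x : σ → FL k)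
    (P : MvPolynomial σ k) (hP : MvPolynomial.aeval x P = 0) :
    NL S fun p => MvPolynomial.aeval (fun i => J E u S (x i) p) P := by
  have h1 := (J_aeval E u hS0 hS x P).neg
  have : (fun p => -(J E u S (MvPolynomial.aeval x P) p -
      MvPolynomial.aeval (fun i => J E u S (x i) p) P)) = fun p =>
      MvPolynomial.aeval (fun i => J E u S (x i) p) P := by
    ext p
    have h2 : J E u S (0 : FL k) p = 0 := by
      unfold J
      have h3 := Fl_const E (u p) (0 : k)
      rw [map_zero, map_zero] at h3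
      rw [h3]
      unfold sp
      simp
    rw [hP, h2, zero_sub, neg_neg]
  rw [this] at h1; exact h1

/-- `J h` is congruent to `h` -/
lemma J_near (hS0 : 0 < S) (h : FL k) : NL 1 fun p => J E u S h p - h := by
  obtain ⟨S, rfl⟩ := Nat.exists_eq_succ_of_ne_zero hS0.ne'
  have : (fun p => J E u (S + 1) h p - h) = fun p =>
      ∑ m ∈ Finset.range S, coeff (m + 1) (Fl E (u p) h) * (jj X) ^ (p * (m + 1)) := by
    ext p
    unfold J sp
    rw [Finset.sum_range_succ', coeff_Fl E (u p) 0, cc_zero]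
    simp
  change NL 1 fun p => J E u (S + 1) h p - h
  rw [this]
  exact NL.sum _ _ fun m _ => NL.of_BL (by omega) (BF_Fl E u h (m + 1))

/-- the exponential relation -/
lemma J_exp (hS0 : 0 < S) (hS : ∀ s, S ≤ s → E s = 0) {a b : FL k} (lam : ℕ → k) (hl0 : lam 0 = 0)
    (hb : ∀ s, s < S → E s b = b * (E s a + algebraMap k (FL k) (lam s))) :
    NL S fun p => J E u S b p - b * ∑ i ∈ Finset.range S, ((i.factorial : FL k)⁻¹) *
      (J E u S a p - a + ∑ s ∈ Finset.range S,
        algebraMap k (FL k) (u p * lam s) * (jj X) ^ (p * s)) ^ i := by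
  let g : ℕ → (FL k)⟦X⟧ := fun p => Fl E (u p) a - C a + lin (L := FL k) (u p) lam S
  have hlinBF : BF fun p => lin (L := FL k) (u p) lam S := by
    intro m
    have : (fun p => coeff m (lin (L := FL k) (u p) lam S)) = fun p =>
        ∑ s ∈ Finset.range S, algebraMap k (FL k) (u p * lam s) * (if m = s then 1 else 0) := by
      ext p
      unfold lin
      rw [map_sum]
      exact Finset.sum_congr rfl fun s _ => by rw [coeff_C_mul, coeff_X_pow]
    rw [this]
    exact BL.sum _ _ fun s _ => (BL.scal (fun p => u p * lam s)).mul (BL.const _)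
  have hg : BF g := ((BF_Fl E u a).sub (BF.const _)).add hlinBF
  have hlin : ∀ p, sp S (lin (L := FL k) (u p) lam S) p = ∑ s ∈ Finset.range S,
      algebraMap k (FL k) (u p * lam s) * (jj X) ^ (p * s) := by
    intro p
    unfold lin sp
    refine Finset.sum_congr rfl fun m hm => ?_
    rw [map_sum]
    simp only [coeff_C_mul, coeff_X_pow]
    rw [Finset.sum_eq_single m]
    · simp
    · intro s _ hs
      rw [if_neg (Ne.symm hs), mul_zero]
    · intro h; exact absurd hm h
  have hspg : ∀ p, sp S (g p) p = J E u S a p - a + ∑ s ∈ Finset.range S,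
        algebraMap k (FL k) (u p * lam s) * (jj X) ^ (p * s) := by
    intro p
    change sp S (Fl E (u p) a - C a + lin (L := FL k) (u p) lam S) p = _
    rw [sp_add, sp_sub, sp_C hS0, hlin]
    rfl
  have h1 : ∀ p, J E u S b p = b * ∑ i ∈ Finset.range S, ((i.factorial : FL k)⁻¹) *
      sp S (g p ^ i) p := by
    intro p
    have h2 := sp_congr (Fl_exp E (u p) hS lam hl0 hb hS0) p
    unfold J
    rw [h2, sp_C_mul]
    unfold eS
    rw [sp_sum]
    congr 1
    exact Finset.sum_congr rfl fun i _ => sp_C_mul _ _ _ _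
  have h3 : (fun p => J E u S b p - b * ∑ i ∈ Finset.range S, ((i.factorial : FL k)⁻¹) *
      (J E u S a p - a + ∑ s ∈ Finset.range S,
        algebraMap k (FL k) (u p * lam s) * (jj X) ^ (p * s)) ^ i) = fun p =>
      (∑ i ∈ Finset.range S, (sp S (g p ^ i) p - sp S (g p) p ^ i) * ((i.factorial : FL k)⁻¹)) * b := by
    ext p
    rw [h1 p, ← mul_sub, ← Finset.sum_sub_distrib, mul_comm]
    congr 1
    refine Finset.sum_congr rfl fun i _ => ?_
    rw [← hspg p]; ring
  rw [h3]
  exact (NL.sum _ _ fun i _ => (sp_pow hS0 hg i).mul (BL.const _)).mul (BL.const _)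

/-- the value at an element killed by the first derivations -/
lemma J_first (T : ℕ) {h : FL k} (hh : ∀ s, s < T → E (s + 1) h = 0) (p : ℕ) :
    J E u (T + 2) h p = h + algebraMap k (FL k) (u p) * E (T + 1) h * (jj X) ^ (p * (T + 1)) := by
  unfold J sp
  obtain ⟨h1, h2⟩ := cc_first E (u p) hh
  rw [Finset.sum_range_succ, coeff_Fl, h2, Finset.sum_range_succ', coeff_Fl, cc_zero,
    Finset.sum_eq_zero]
  · simp
  · intro m hm
    rw [coeff_Fl, h1 m (Finset.mem_range.1 hm), zero_mul]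

end Run7.h131.LL
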