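import Mathlib
import Pool.Agent.Run7.h131.LL.Newton
import Pool.Agent.Run7.h131.LL.Spec

/-!
# The algebraic data of an exponential system of power series
-/

set_option autoImplicit false
open NumberField IsDedekindDomain Filter PowerSeries

namespace Run7.h131.LL

section

variable {k : Type*} [Field k]

/-- the inclusion of the power series as an algebra homomorphism -/
noncomputable def jA : k⟦X⟧ →ₐ[k] FL k := IsScalarTower.toAlgHom k k⟦X⟧ (FL k)

lemma jA_apply (g : k⟦X⟧) : jA g = jj g := rfl

/-- change of the ring of constants -/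
def reLin {k R L : Type*} [CommRing k] [CommRing R] [CommRing L] [Algebra k L] [Algebra R L]
    (D : Derivation R L L) (h : ∀ c : k, D (algebraMap k L c) = 0) : Derivation k L L :=
  Derivation.mk' { toFun := D
                   map_add' := map_add D
                   map_smul' := fun c a => by
                     rw [Algebra.smul_def, Derivation.leibniz, h, smul_zero, add_zero, smul_eq_mul,
                       RingHom.id_apply, Algebra.smul_def] } (fun a b => D.leibniz a b)

/-- algebraic power series over a subalgebra, in the fraction field -/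
lemma alg_transfer {S : Set k⟦X⟧} {x : k⟦X⟧} (h : IsAlgebraic (Algebra.adjoin k S) x) :
    IsAlgebraic (Algebra.adjoin k (jA '' S)) (jj x) := by
  let A := Algebra.adjoin k S
  have hinj : Function.Injective (jA (k := k)) := jj_inj
  have h1 : IsAlgebraic A (algebraMap k⟦X⟧ (FL k) x) := h.algebraMap
  have e : A.map jA = Algebra.adjoin k (jA '' S) := AlgHom.map_adjoin _ _
  rw [← e]
  let φ : A ≃ₐ[k] A.map jA := A.equivMapOfInjective jA hinj
  letI : Algebra A (A.map jA) := φ.toRingHom.toAlgebra
  haveI : IsScalarTower A (A.map jA) (FL k) := IsScalarTower.of_algebraMap_eq fun _ => rfl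
  exact h1.extendScalars φ.injective

variable [CharZero k]

/-- a derivation with value one at a transcendental power series -/
theorem exists_der_one {F : k⟦X⟧} (hF : ¬ IsAlgebraic (Polynomial k) F) :
    ∃ D : Derivation k (FL k) (FL k), D (jj X) = 0 ∧ D (jj F) = 1 := by
  let L := FL k
  have hmap : ∀ p : Polynomial k, algebraMap (Polynomial k) k⟦X⟧ p = (p : k⟦X⟧) := fun p => by
    rw [PowerSeries.algebraMap_apply']; simp
  have hinj : Function.Injective (algebraMap (Polynomial k) L) := by
    rw [IsScalarTower.algebraMap_eq (Polynomial k) k⟦X⟧ L]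
    refine jj_inj.comp ?_
    intro p q hpq
    have hpq : algebraMap (Polynomial k) k⟦X⟧ p = algebraMap (Polynomial k) k⟦X⟧ q := hpq
    rw [hmap, hmap] at hpq
    exact Polynomial.coe_injective k hpq
  haveI : FaithfulSMul (Polynomial k) L := (faithfulSMul_iff_algebraMap_injective _ _).2 hinj
  letI := FractionRing.liftAlgebra (Polynomial k) L
  let k₁ := FractionRing (Polynomial k)
  have htr : Transcendental k₁ (jj F : L) := by
    intro h
    apply hF
    rw [← IsFractionRing.isAlgebraic_iff (Polynomial k) k₁ L] at h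
    exact (isAlgebraic_algebraMap_iff (jj_inj (k := k))).1 h
  obtain ⟨D, hD, -⟩ := exists_pder htr
  have hkill : ∀ p : Polynomial k, D (algebraMap (Polynomial k) L p) = 0 := by
    intro p
    rw [IsScalarTower.algebraMap_apply (Polynomial k) k₁ L, D.map_algebraMap]
  refine ⟨reLin D (fun c => ?_), ?_, hD⟩
  · have : algebraMap k (FL k) c = algebraMap (Polynomial k) L (Polynomial.C c) := by
      rw [← jj_C, IsScalarTower.algebraMap_apply (Polynomial k) k⟦X⟧ L, hmap, Polynomial.coe_C]
    rw [this]; exact hkill _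
  · have : jj (X : k⟦X⟧) = algebraMap (Polynomial k) L Polynomial.X := by
      rw [IsScalarTower.algebraMap_apply (Polynomial k) k⟦X⟧ L, hmap, Polynomial.coe_X]
    change D (jj X) = 0
    rw [this]; exact hkill _

end

section sys

variable {k : Type*} [Field k] [CharZero k] {ι : Type*} [Fintype ι] [DecidableEq ι]

/-- the exponential system: `b_i' = a_i' b_i`, `b_i(0) ≠ 0`, the `a_i` linearly independent over the
integers modulo constants, and everything algebraic over `k(X, g)` -/
structure ESys (f : k⟦X⟧) (a b g : ι → k⟦X⟧) : Prop where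
  ode : ∀ i, d⁄dX k (b i) = b i * d⁄dX k (a i)
  ne : ∀ i, constantCoeff (b i) ≠ 0
  ind : ∀ m : ι → ℤ, ∑ i, (m i : k⟦X⟧) * d⁄dX k (a i) = 0 → m = 0
  algf : IsAlgebraic (Algebra.adjoin k (insert X (Set.range g))) f
  alga : ∀ i, IsAlgebraic (Algebra.adjoin k (insert X (Set.range g))) (a i)
  algb : ∀ i, IsAlgebraic (Algebra.adjoin k (insert X (Set.range g))) (b i)

variable {f : k⟦X⟧} {a b g : ι → k⟦X⟧}

lemma ESys.dual (h : ESys f a b g) : ∃ E : ι → Derivation k (FL k) (FL k),
    (∀ j, E j (jj X) = 0) ∧
      ∀ j i, om (jj (a i)) (jj (b i)) (E j) = if i = j then 1 else 0 := by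
  refine ax_dual DD (fun x hx => const_of_DD hx) (jj X) DD_X (fun i => jj (a i))
    (fun i => jj (b i)) ?_ ?_ ?_
  · intro i h0
    rw [jj_eq_zero] at h0
    exact h.ne i (by rw [h0, map_zero])
  · intro i
    rw [DD_jj, DD_jj, h.ode, map_mul]
  · intro m hm
    apply h.ind m
    apply jj_inj
    rw [map_zero, ← hm, map_sum]
    refine Finset.sum_congr rfl fun i _ => ?_
    rw [map_mul, map_intCast, DD_jj]

lemma image_insert (g : ι → k⟦X⟧) :
    (jA '' (insert X (Set.range g)) : Set (FL k)) = insert (jj X) (Set.range fun i => jj (g i)) := by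
  rw [Set.image_insert_eq, ← Set.range_comp]; rfl

lemma ESys.om_zero (h : ESys f a b g) (E : ι → Derivation k (FL k) (FL k))
    (hEz : ∀ j, E j (jj X) = 0)
    (hE : ∀ j i, om (jj (a i)) (jj (b i)) (E j) = if i = j then 1 else 0)
    (δ : Derivation k (FL k) (FL k)) (hδz : δ (jj X) = 0)
    (hδ : ∀ i, om (jj (a i)) (jj (b i)) δ = 0) : δ (jj f) = 0 := by
  have h0 : ∀ x : k⟦X⟧, IsAlgebraic (Algebra.adjoin k (insert X (Set.range g))) x →
      IsAlgebraic (Algebra.adjoin k (insert (jj X) (Set.range fun i => jj (g i)))) (jj x) := by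
    intro x hx
    rw [← image_insert]; exact alg_transfer hx
  have h1 := h0 _ h.algf
  have h2 := fun i => h0 _ (h.alga i)
  have h3 := fun i => h0 _ (h.algb i)
  exact (LL.om_zero (jj X) (jj f) (fun i => jj (a i)) (fun i => jj (b i)) (fun i => jj (g i))
    (fun i h0 => h.ne i (by rw [jj_eq_zero.1 h0, map_zero])) E hEz hE h1 h2 h3 δ hδz hδ).1

/-- the unknown functions -/
def uu (f : k⟦X⟧) (a : ι → k⟦X⟧) : Option ι → k⟦X⟧ := fun o => o.elim f a

lemma jj_vv (U : Option ι → k⟦X⟧) (B : ι → k⟦X⟧) (x : Vr ι) :
    jj (vv X (U none) (fun i => U (some i)) B x) =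
      vv (jj X) (jj (U none)) (fun i => jj (U (some i))) (fun i => jj (B i)) x := by
  rcases x with _ | (_ | i) | i <;> rfl

lemma jj_aeval (U : Option ι → k⟦X⟧) (B : ι → k⟦X⟧) (P : MvPolynomial (Vr ι) k) :
    jj (MvPolynomial.aeval (vv X (U none) (fun i => U (some i)) B) P) =
      MvPolynomial.aeval (vv (jj X) (jj (U none)) (fun i => jj (U (some i)))
        (fun i => jj (B i))) P := by
  have h1 : (vv (jj X) (jj (U none)) (fun i => jj (U (some i))) (fun i => jj (B i)) :
      Vr ι → FL k) = fun x => jA (vv X (U none) (fun i => U (some i)) B x) := by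
    ext1 x; rw [← jj_vv]; rfl
  rw [h1]
  exact MvPolynomial.comp_aeval_apply (f := vv X (U none) (fun i => U (some i)) B) jA P

lemma jj_row (U : Option ι → k⟦X⟧) (B : ι → k⟦X⟧) (P : MvPolynomial (Vr ι) k) (o : Option ι) :
    jj (row X (U none) (fun i => U (some i)) B P o) =
      row (jj X) (jj (U none)) (fun i => jj (U (some i))) (fun i => jj (B i)) P o := by
  cases o with
  | none => simp only [row]; exact jj_aeval _ _ _
  | some i => simp only [row, map_add, map_mul]; rw [← jj_aeval, ← jj_aeval]

/-- the nondegenerate system of equations -/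
lemma ESys.system (h : ESys f a b g) (E : ι → Derivation k (FL k) (FL k))
    (hEz : ∀ j, E j (jj X) = 0)
    (hE : ∀ j i, om (jj (a i)) (jj (b i)) (E j) = if i = j then 1 else 0) :
    ∃ P : Option ι → MvPolynomial (Vr ι) k,
      (∀ o, MvPolynomial.aeval (vv X (uu f a none) (fun i => uu f a (some i)) b) (P o) = 0) ∧
      (Matrix.of fun o o' => row X (uu f a none) (fun i => uu f a (some i)) b (P o) o').det ≠ 0 := by
  have h0 : ∀ x : k⟦X⟧, IsAlgebraic (Algebra.adjoin k (insert X (Set.range g))) x →
      IsAlgebraic (Algebra.adjoin k (insert (jj X) (Set.range fun i => jj (g i)))) (jj x) := by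
    intro x hx
    rw [← image_insert]; exact alg_transfer hx
  obtain ⟨P, hP, hdet⟩ := exists_system (jj X) (jj f) (fun i => jj (a i)) (fun i => jj (b i))
    (fun i => jj (g i)) (fun i h0 => h.ne i (by rw [jj_eq_zero.1 h0, map_zero])) E hEz hE
    (h0 _ h.algf) (fun i => h0 _ (h.alga i)) (fun i => h0 _ (h.algb i))
  refine ⟨P, fun o => ?_, ?_⟩
  · apply jj_inj
    rw [jj_aeval, map_zero]
    exact hP o
  · intro hz
    apply hdet
    have h1 := congrArg jj hz
    rw [RingHom.map_det, map_zero] at h1
    rw [← h1]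
    congr 1
    ext o o'
    rw [RingHom.mapMatrix_apply, Matrix.map_apply, Matrix.of_apply, Matrix.of_apply, jj_row]
    rfl

end sys

end Run7.h131.LL
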