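import Mathlib
import Pool.Agent.Run7.h131.LL.Newton
import Pool.Agent.Run7.h131.LL.Sys

/-!
# Specialisation of the constants of an exponential system

The coefficients of a solution of a nondegenerate system lie in a finitely generated algebra.
-/

set_option autoImplicit false
open PowerSeries

namespace Run7.h131.LL

variable {k : Type*} [Field k] [CharZero k]

/-- the power series with coefficients in a subalgebra -/
def PA (A : Subalgebra ℚ k) : Subring k⟦X⟧ where
  carrier := {U | ∀ m, coeff m U ∈ A}
  mul_mem' := by
    intro U V hU hV m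
    rw [coeff_mul]
    exact sum_mem fun ij _ => mul_mem (hU _) (hV _)
  one_mem' := by
    intro m
    rw [coeff_one]; split_ifs
    · exact one_mem _
    · exact zero_mem _
  add_mem' := by
    intro U V hU hV m
    rw [map_add]; exact add_mem (hU m) (hV m)
  zero_mem' := by intro m; rw [map_zero]; exact zero_mem _
  neg_mem' := by intro U hU m; rw [map_neg]; exact neg_mem (hU m)

lemma mem_PA {A : Subalgebra ℚ k} {U : k⟦X⟧} : U ∈ PA A ↔ ∀ m, coeff m U ∈ A := Iff.rfl

lemma C_mem_PA {A : Subalgebra ℚ k} {c : k} (hc : c ∈ A) : C c ∈ PA A := by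
  intro m
  rw [coeff_C]; split_ifs
  · exact hc
  · exact zero_mem _

lemma X_mem_PA {A : Subalgebra ℚ k} : (X : k⟦X⟧) ∈ PA A := by
  intro m
  rw [coeff_X]; split_ifs
  · exact one_mem _
  · exact zero_mem _

lemma nat_inv_mem (A : Subalgebra ℚ k) (n : ℕ) : ((n : k))⁻¹ ∈ A := by
  have : ((n : k))⁻¹ = algebraMap ℚ k ((n : ℚ)⁻¹) := by rw [map_inv₀, map_natCast]
  rw [this]
  exact A.algebraMap_mem _

lemma sol_mem {A : Subalgebra ℚ k} {y g : k⟦X⟧} (hy0 : constantCoeff y ∈ A) (hg : g ∈ PA A)
    (h : th y = y * th g) : y ∈ PA A := by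
  intro m
  induction m using Nat.strong_induction_on with
  | _ m ih =>
    rcases Nat.eq_zero_or_pos m with rfl | hm
    · rw [coeff_zero_eq_constantCoeff_apply]; exact hy0
    · have h1 := congrArg (coeff m) h
      rw [coeff_mul] at h1
      have hc : ∀ (g : k⟦X⟧) (j : ℕ), coeff j (th g) = (j : k) * coeff j g := fun g j => coeff_th g j
      rw [hc] at h1
      have hm0 : (m : k) ≠ 0 := by exact_mod_cast hm.ne'
      have h2 : coeff m y = ((m : k))⁻¹ *
          ∑ p ∈ Finset.HasAntidiagonal.antidiagonal m, coeff p.1 y * coeff p.2 (th g) := by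
        rw [← h1, ← mul_assoc, inv_mul_cancel₀ hm0, one_mul]
      rw [h2]
      refine mul_mem (nat_inv_mem A m) (sum_mem fun p hp => ?_)
      rw [hc]
      rw [Finset.HasAntidiagonal.mem_antidiagonal] at hp
      by_cases hp2 : p.2 = 0
      · rw [hp2, Nat.cast_zero, zero_mul, mul_zero]; exact zero_mem _
      · exact mul_mem (ih _ (by omega)) (mul_mem (natCast_mem _ _) (hg _))

section

variable {ι : Type*} [Fintype ι] [DecidableEq ι]

/-- the matrix of the system -/
noncomputable def matC (P : Option ι → MvPolynomial (Vr ι) k) (U : Option ι → k⟦X⟧)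
    (B : ι → k⟦X⟧) : Matrix (Option ι) (Option ι) k⟦X⟧ :=
  Matrix.of fun o o' => row X (U none) (fun i => U (some i)) B (P o) o'

/-- the values of the variables -/
noncomputable abbrev vC (U : Option ι → k⟦X⟧) (B : ι → k⟦X⟧) : Vr ι → k⟦X⟧ :=
  vv X (U none) (fun i => U (some i)) B

lemma aeval_memC {σ : Type*} (A : Subring k⟦X⟧) (P : MvPolynomial σ k) (w : σ → k⟦X⟧)
    (hw : ∀ v, w v ∈ A) (hP : ∀ m, C (P.coeff m) ∈ A) : MvPolynomial.aeval w P ∈ A := by
  rw [MvPolynomial.aeval_def, MvPolynomial.eval₂_eq]
  refine sum_mem fun d _ => mul_mem (hP d) (prod_mem fun i _ => pow_mem (hw i) _)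

lemma coeff_pderiv_memC {σ : Type*} (A : Subring k⟦X⟧) (P : MvPolynomial σ k) (i : σ)
    (hP : ∀ m, C (P.coeff m) ∈ A) (m : σ →₀ ℕ) : C ((MvPolynomial.pderiv i P).coeff m) ∈ A := by
  classical
  have h1 : MvPolynomial.pderiv i P = ∑ d ∈ P.support,
      MvPolynomial.monomial (d - Finsupp.single i 1) (P.coeff d * d i) := by
    conv_lhs => rw [P.as_sum]
    rw [map_sum]
    exact Finset.sum_congr rfl fun d _ => MvPolynomial.pderiv_monomial
  rw [h1, MvPolynomial.coeff_sum, map_sum]
  refine sum_mem fun d _ => ?_
  rw [MvPolynomial.coeff_monomial]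
  split_ifs
  · rw [map_mul]
    refine mul_mem (hP d) ?_
    have : (C ((d i : ℕ) : k) : k⟦X⟧) = ((d i : ℕ) : k⟦X⟧) := by simp
    rw [this]; exact natCast_mem _ _
  · rw [map_zero]; exact zero_mem _

lemma row_memC (A : Subring k⟦X⟧) (P : MvPolynomial (Vr ι) k) (z f : k⟦X⟧) (a b : ι → k⟦X⟧)
    (hw : ∀ v, vv z f a b v ∈ A) (hP : ∀ m, C (P.coeff m) ∈ A) (o : Option ι) :
    row z f a b P o ∈ A := by
  cases o with
  | none => exact aeval_memC A _ _ hw (coeff_pderiv_memC A P _ hP)
  | some i =>
    refine add_mem (aeval_memC A _ _ hw (coeff_pderiv_memC A P _ hP)) (mul_mem ?_ ?_)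
    · exact hw (some (Sum.inr i))
    · exact aeval_memC A _ _ hw (coeff_pderiv_memC A P _ hP)

lemma row_congrC (P : MvPolynomial (Vr ι) k) {U U' : Option ι → k⟦X⟧} {B B' : ι → k⟦X⟧} {m : ℕ}
    (hU : ∀ o, X ^ m ∣ U o - U' o) (hB : ∀ i, X ^ m ∣ B i - B' i) (o : Option ι) :
    X ^ m ∣ row X (U none) (fun i => U (some i)) B P o -
      row X (U' none) (fun i => U' (some i)) B' P o := by
  have hw : ∀ v, X ^ m ∣ vC U B v - vC U' B' v := by
    rintro (_ | (_ | i) | i)
    · change X ^ m ∣ (X : k⟦X⟧) - X; rw [sub_self]; exact dvd_zero _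
    · exact hU none
    · exact hU (some i)
    · exact hB i
  cases o with
  | none => exact aeval_congr _ hw
  | some i =>
    have h1 := aeval_congr (MvPolynomial.pderiv (some (Sum.inl (some i))) P) hw
    have h2 := aeval_congr (MvPolynomial.pderiv (some (Sum.inr i)) P) hw
    have h3 := hB i
    have e : row X (U none) (fun i => U (some i)) B P (some i) -
      row X (U' none) (fun i => U' (some i)) B' P (some i) =
      (MvPolynomial.aeval (vC U B) (MvPolynomial.pderiv (some (Sum.inl (some i))) P) -
        MvPolynomial.aeval (vC U' B') (MvPolynomial.pderiv (some (Sum.inl (some i))) P)) +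
      ((B i - B' i) * MvPolynomial.aeval (vC U B) (MvPolynomial.pderiv (some (Sum.inr i)) P) +
        (MvPolynomial.aeval (vC U B) (MvPolynomial.pderiv (some (Sum.inr i)) P) -
        MvPolynomial.aeval (vC U' B') (MvPolynomial.pderiv (some (Sum.inr i)) P)) * B' i) := by
      simp only [row]; ring
    rw [e]
    exact dvd_add h1 (dvd_add (Dvd.dvd.mul_right h3 _) (Dvd.dvd.mul_right h2 _))

/-- the coefficients of the solution of a nondegenerate system -/
theorem sol_coeffs (A : Subalgebra ℚ k) (P : Option ι → MvPolynomial (Vr ι) k)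
    (u : Option ι → k⟦X⟧) (b : ι → k⟦X⟧) (r : ℕ)
    (hode : ∀ i, d⁄dX k (b i) = b i * d⁄dX k (u (some i)))
    (hPA : ∀ o m, (P o).coeff m ∈ A) (huA : ∀ o, ∀ m ≤ r, coeff m (u o) ∈ A)
    (hbA : ∀ i, constantCoeff (b i) ∈ A)
    (hP : ∀ o, MvPolynomial.aeval (vC u b) (P o) = 0)
    (hdet0 : X ^ r ∣ (matC P u b).det) (hdet1 : (coeff r (matC P u b).det) ≠ 0)
    (hdet : (coeff r (matC P u b).det)⁻¹ ∈ A) :
    (∀ o, u o ∈ PA A) ∧ ∀ i, b i ∈ PA A := by
  have hth : ∀ i, th (b i) = b i * th (u (some i)) := by
    intro i
    unfold th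
    rw [hode]; ring
  have hu : ∀ o m, coeff m (u o) ∈ A := by
    intro o m
    induction m using Nat.strong_induction_on generalizing o with
    | _ k' ih' =>
      rcases le_or_gt k' r with hle | hlt
      · exact huA o k' hle
      -- truncations
      have ih : ∀ o, ∀ m < k', coeff m (u o) ∈ A := fun o m hm => ih' m hm o
      let s : Option ι → k⟦X⟧ := fun o => ((trunc k' (u o) : Polynomial k) : k⟦X⟧)
      have hsc : ∀ o m, coeff m (s o) = if m < k' then coeff m (u o) else 0 := by
        intro o m
        simp only [s]
        rw [Polynomial.coeff_coe, coeff_trunc]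
      have hsv : ∀ o, s o ∈ PA A := by
        intro o m
        rw [hsc]
        split_ifs with h
        · exact ih o m h
        · exact zero_mem _
      let α : Option ι → k⟦X⟧ := fun o => u o - s o
      have hα : ∀ o, X ^ k' ∣ α o := by
        intro o
        rw [X_pow_dvd_iff]
        intro m hm
        simp only [α]
        rw [map_sub, hsc, if_pos hm, sub_self]
      have hα0 : ∀ o, constantCoeff (α o) = 0 := by
        intro o
        have := hα o
        rw [X_pow_dvd_iff] at this
        simpa using this 0 (by omega)
      let Bt : ι → k⟦X⟧ := fun i => b i * Ex (-α (some i))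
      have hnα : ∀ i, constantCoeff (-α (some i)) = 0 := fun i => by rw [map_neg, hα0, neg_zero]
      have hBt0 : ∀ i, constantCoeff (Bt i) = constantCoeff (b i) := fun i => by
        simp only [Bt]; rw [map_mul, constantCoeff_Ex (hnα i), mul_one]
      have hBtth : ∀ i, th (Bt i) = Bt i * th (s (some i)) := by
        intro i
        simp only [Bt]
        rw [th_mul, th_Ex (hnα i), hth]
        have : s (some i) = u (some i) + -α (some i) := by simp only [α]; ring
        rw [this, th_add]
        ring
      have hBtv : ∀ i, Bt i ∈ PA A := fun i =>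
        sol_mem (by rw [hBt0]; exact hbA i) (hsv (some i)) (hBtth i)
      have hBBt : ∀ i, X ^ (k' * 2) ∣ b i - (Bt i + Bt i * α (some i)) := by
        intro i
        have h4 := Ex_first (q := k') (by omega) (hα (some i))
        have h5 : b i = Bt i * Ex (α (some i)) := by
          simp only [Bt]
          rw [mul_assoc, ← Ex_add (hnα i) (hα0 _), neg_add_cancel]
          have : Ex (0 : k⟦X⟧) = 1 := by
            have h0 : th (1 : k⟦X⟧) = 1 * th 0 := by
              unfold th
              simp
            have := Ex_unique (k := k) (map_zero _) h0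
            rw [map_one, map_one, one_mul] at this
            exact this.symm
          rw [this, mul_one]
        have e : b i - (Bt i + Bt i * α (some i)) =
            Bt i * (Ex (α (some i)) - (1 + α (some i))) := by
          conv_lhs => rw [h5]
          simp only [Bt]; ring
        rw [e]
        exact Dvd.dvd.mul_left h4 _
      -- Taylor expansion
      let w : Vr ι → k⟦X⟧ := vC s Bt
      let h : Vr ι → k⟦X⟧ := fun x => vC u b x - w x
      have hh : ∀ x, X ^ k' ∣ h x := by
        rintro (_ | (_ | i) | i)
        · change X ^ k' ∣ (X : k⟦X⟧) - X; rw [sub_self]; exact dvd_zero _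
        · exact hα none
        · exact hα (some i)
        · change X ^ k' ∣ b i - Bt i
          have e : b i - Bt i = (b i - (Bt i + Bt i * α (some i))) + Bt i * α (some i) := by ring
          rw [e]
          exact dvd_add ((pow_dvd_pow _ (by omega)).trans (hBBt i)) (Dvd.dvd.mul_left (hα _) _)
      have hwh : (fun x => w x + h x) = vC u b := by
        ext1 x; simp only [h]; ring
      have hsys : ∀ o, X ^ (k' * 2) ∣ MvPolynomial.aeval w (P o) +
          ∑ o', matC P s Bt o o' * α o' := by
        intro o
        have h1 := taylor (P o) (w := w) hh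
        rw [hwh, hP, zero_sub] at h1
        have h2 : ∑ x, MvPolynomial.aeval w (MvPolynomial.pderiv x (P o)) * h x =
            ∑ o', matC P s Bt o o' * α o' + ∑ i, MvPolynomial.aeval w
              (MvPolynomial.pderiv (some (Sum.inr i)) (P o)) *
                (b i - (Bt i + Bt i * α (some i))) := by
          rw [Fintype.sum_option, Fintype.sum_sum_type, Fintype.sum_option, Fintype.sum_option]
          have e0 : h none = 0 := by change (X : k⟦X⟧) - X = 0; rw [sub_self]
          have e1 : h (some (Sum.inl none)) = α none := rfl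
          have e2 : ∀ i, h (some (Sum.inl (some i))) = α (some i) := fun _ => rfl
          have e3 : ∀ i, h (some (Sum.inr i)) = b i - Bt i := fun _ => rfl
          have e4 : matC P s Bt o none = MvPolynomial.aeval w
              (MvPolynomial.pderiv (some (Sum.inl none)) (P o)) := rfl
          have e5 : ∀ i, matC P s Bt o (some i) = MvPolynomial.aeval w
              (MvPolynomial.pderiv (some (Sum.inl (some i))) (P o)) + Bt i *
              MvPolynomial.aeval w (MvPolynomial.pderiv (some (Sum.inr i)) (P o)) := fun _ => rfl
          simp only [e0, e1, e2, e3, e4, e5]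
          rw [mul_zero, zero_add, add_assoc, add_assoc, ← Finset.sum_add_distrib,
            ← Finset.sum_add_distrib]
          congr 1
          refine Finset.sum_congr rfl fun i _ => ?_
          ring
        rw [h2] at h1
        have h3 : X ^ (k' * 2) ∣ ∑ i, MvPolynomial.aeval w
              (MvPolynomial.pderiv (some (Sum.inr i)) (P o)) *
                (b i - (Bt i + Bt i * α (some i))) :=
          Finset.dvd_sum fun i _ => Dvd.dvd.mul_left (hBBt i) _
        have e : MvPolynomial.aeval w (P o) + ∑ o', matC P s Bt o o' * α o' =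
            -(-MvPolynomial.aeval w (P o) - (∑ o', matC P s Bt o o' * α o' +
                ∑ i, MvPolynomial.aeval w (MvPolynomial.pderiv (some (Sum.inr i)) (P o)) *
                (b i - (Bt i + Bt i * α (some i))))) -
              ∑ i, MvPolynomial.aeval w (MvPolynomial.pderiv (some (Sum.inr i)) (P o)) *
                (b i - (Bt i + Bt i * α (some i))) := by ring
        rw [e]
        exact dvd_sub ((dvd_neg).2 h1) h3
      have hCP : ∀ o m, C ((P o).coeff m) ∈ PA A := fun o m => C_mem_PA (hPA o m)
      have hwv : ∀ x, w x ∈ PA A := by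
        rintro (_ | (_ | i) | i)
        · exact X_mem_PA
        · exact hsv none
        · exact hsv (some i)
        · exact hBtv i
      have hmatv : ∀ o o', matC P s Bt o o' ∈ PA A := fun o o' =>
        row_memC _ _ _ _ _ _ hwv (hCP o) o'
      have hpv : ∀ o, MvPolynomial.aeval w (P o) ∈ PA A := fun o =>
        aeval_memC _ _ _ hwv (hCP o)
      have hadjv : ∀ o o', (matC P s Bt).adjugate o o' ∈ PA A := by
        intro o o'
        rw [Matrix.adjugate_apply, Matrix.det_apply]
        refine sum_mem fun τ _ => ?_
        rw [Units.smul_def, zsmul_eq_mul]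
        refine mul_mem (intCast_mem _ _) (prod_mem fun i _ => ?_)
        rw [Matrix.updateRow_apply]
        split_ifs
        · rw [Pi.single_apply]
          split_ifs
          · exact one_mem _
          · exact zero_mem _
        · exact hmatv _ _
      -- multiply by the adjugate
      have hadj : ∀ o, X ^ (k' * 2) ∣
          ∑ o', (matC P s Bt).adjugate o o' * MvPolynomial.aeval w (P o') +
          (matC P s Bt).det * α o := by
        intro o
        have e : ∑ o', (matC P s Bt).adjugate o o' * MvPolynomial.aeval w (P o') +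
          (matC P s Bt).det * α o = ∑ o', (matC P s Bt).adjugate o o' *
            (MvPolynomial.aeval w (P o') + ∑ o'', matC P s Bt o' o'' * α o'') := by
          simp only [mul_add, Finset.sum_add_distrib]
          congr 1
          have e1 := congrFun (congrArg (fun M : Matrix (Option ι) (Option ι) k⟦X⟧ => M.mulVec α)
            (Matrix.adjugate_mul (matC P s Bt))) o
          simp only [← Matrix.mulVec_mulVec, Matrix.smul_mulVec, Matrix.one_mulVec, Pi.smul_apply,
            smul_eq_mul] at e1
          rw [← e1]
          rfl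
        rw [e]
        exact Finset.dvd_sum fun o' _ => Dvd.dvd.mul_left (hsys o') _
      -- the determinant
      have hdd : X ^ k' ∣ (matC P s Bt).det - (matC P u b).det := by
        apply det_congr
        intro o o'
        refine row_congrC (P o) (fun o => ?_) (fun i => ?_) o'
        · have e : s o - u o = -α o := by simp only [α]; ring
          rw [e]; exact (dvd_neg).2 (hα o)
        · have e : Bt i - b i = -h (some (Sum.inr i)) := by
            change Bt i - b i = -(b i - Bt i); ring
          rw [e]
          exact (dvd_neg).2 (hh (some (Sum.inr i)))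
      have hdr : X ^ r ∣ (matC P s Bt).det := by
        have := dvd_add ((pow_dvd_pow _ hlt.le).trans hdd) hdet0
        rwa [sub_add_cancel] at this
      obtain ⟨W, hW⟩ := hdr
      have hW0 : constantCoeff W = coeff r (matC P u b).det := by
        have h1 : coeff r (matC P s Bt).det = coeff r (matC P u b).det := by
          rw [X_pow_dvd_iff] at hdd
          have := hdd r hlt
          rwa [map_sub, sub_eq_zero] at this
        rw [← h1, hW, coeff_X_pow_mul', if_pos le_rfl, Nat.sub_self,
          coeff_zero_eq_constantCoeff_apply]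
      have hkey : constantCoeff W * coeff k' (α o) ∈ A := by
        have h2 := hadj o
        rw [X_pow_dvd_iff] at h2
        have h3 := h2 (k' + r) (by omega)
        rw [map_add, hW, mul_assoc, coeff_X_pow_mul] at h3
        have h4 : coeff k' (W * α o) = constantCoeff W * coeff k' (α o) := by
          obtain ⟨V, hV⟩ := hα o
          have e1 : W * α o = X ^ k' * (W * V) := by rw [hV]; ring
          rw [e1, hV, coeff_X_pow_mul', if_pos le_rfl, Nat.sub_self, coeff_X_pow_mul',
            if_pos le_rfl, Nat.sub_self, coeff_zero_eq_constantCoeff_apply,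
            coeff_zero_eq_constantCoeff_apply, map_mul]
        rw [h4] at h3
        rw [eq_neg_of_add_eq_zero_right h3]
        exact neg_mem ((sum_mem fun o' _ => mul_mem (hadjv o o') (hpv o') :
          ∑ o', (matC P s Bt).adjugate o o' * MvPolynomial.aeval w (P o') ∈ PA A) (k' + r))
      have e : coeff k' (u o) = coeff k' (α o) := by
        simp only [α]; rw [map_sub, hsc, if_neg (lt_irrefl _), sub_zero]
      rw [e]
      have h5 := mul_mem hdet hkey
      rwa [hW0, ← mul_assoc, inv_mul_cancel₀ hdet1, one_mul] at h5
  refine ⟨hu, fun i => sol_mem (hbA i) (hu (some i)) (hth i)⟩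

end

end Run7.h131.LL
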