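import Mathlib
import Pool.Agent.H497R2.Rel
import Pool.Agent.W401.Cheb.Main

/-!
# Every element of the Galois group is a Frobenius at infinitely many places
-/

set_option autoImplicit false
open NumberField IsDedekindDomain Filter
open H497R2

namespace Run7.h131.LL

theorem frob_freq (K : Type) [Field K] [NumberField K] [IsGalois ℚ K] (τ : K ≃ₐ[ℚ] K) :
    ∃ᶠ v : HeightOneSpectrum (𝓞 K) in cofinite, FrobAt τ v := by
  intro hcon
  rw [eventually_cofinite] at hcon
  simp only [not_not] at hcon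
  obtain ⟨B, hB⟩ := (hcon.image rc).bddAbove
  obtain ⟨p, ⟨hp, hx⟩, hpB⟩ := (Pool.Agent.W401.Cheb.infinite_frob K τ).exists_gt B
  haveI : Fact p.Prime := ⟨hp⟩
  have hne : Nonempty {φ : 𝓞 K →+* AlgebraicClosure (ZMod p) //
      Pool.Agent.W401.Cheb.HasFrob p φ τ} := by
    by_contra hemp
    apply hx
    have hemp := not_nonempty_iff.1 hemp
    unfold Pool.Agent.W401.Cheb.xp
    rw [dif_pos hp]
    exact Nat.card_of_isEmpty
  obtain ⟨φ, hφ⟩ := hne
  have hpk : ((p : ℕ) : 𝓞 K) ∈ RingHom.ker φ := by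
    rw [RingHom.mem_ker, map_natCast]
    exact CharP.cast_eq_zero _ p
  have hbot : RingHom.ker φ ≠ ⊥ := by
    intro h
    rw [h, Ideal.mem_bot] at hpk
    exact hp.ne_zero (by exact_mod_cast hpk)
  have hprime : (RingHom.ker φ).IsPrime := RingHom.ker_isPrime φ
  let v : HeightOneSpectrum (𝓞 K) := ⟨RingHom.ker φ, hprime, hbot⟩
  have hrc : rc v = p := by
    have h1 : rc v ∣ p := (natCast_mem_iff v p).1 hpk
    exact (Nat.prime_dvd_prime_iff_eq (rc_prime v) hp).1 h1
  have hF : FrobAt τ v := by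
    intro x hx
    let y : 𝓞 K := ⟨x, hx⟩
    have h1 : τ • y - y ^ p ∈ v.asIdeal := by
      change _ ∈ RingHom.ker φ
      rw [RingHom.mem_ker, map_sub, map_pow, hφ y, sub_self]
    have h2 := (v.valuation_lt_one_iff_mem (K := K) (τ • y - y ^ p)).2 h1
    rw [hrc]
    have e : algebraMap (𝓞 K) K (τ • y - y ^ p) = τ x - x ^ p := by
      rw [map_sub, map_pow]; rfl
    rw [← e]; exact h2
  have := hB ⟨v, hF, rfl⟩
  rw [hrc] at this
  omega

end Run7.h131.LL
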