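import Mathlib
import Pool.Agent.Run7.h131.LL.Sys

/-!
# The main step
-/

set_option autoImplicit false
open NumberField IsDedekindDomain Filter PowerSeries
open H497R2 (rc Av OmInt FrobAt rc_prime val_rc_lt ev_rc_gt ev_val_le_one ev_val_eq_one)

namespace Run7.h131.LL

section prep

variable {k : Type*} [Field k]

lemma dvd_of_jj {C M : ℕ} {Q h : k⟦X⟧} (e : (jj X) ^ C * jj Q = (jj X) ^ M * jj h) :
    X ^ (M - C) ∣ Q := by
  rcases le_total M C with hMC | hMC
  · rw [Nat.sub_eq_zero_of_le hMC, pow_zero]; exact one_dvd _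
  · rw [← map_pow, ← map_pow, ← map_mul, ← map_mul] at e
    have e1 := jj_inj e
    obtain ⟨j, rfl⟩ := Nat.exists_eq_add_of_le hMC
    rw [pow_add, mul_assoc] at e1
    have e2 := mul_left_cancel₀ (pow_ne_zero _ X_ne_zero) e1
    rw [Nat.add_sub_cancel_left, e2]
    exact Dvd.intro _ rfl

lemma NL_mono {S C C' : ℕ} (hC : C ≤ C') {y : ℕ → FL k}
    (h : ∀ p, ∃ h : k⟦X⟧, (jj X) ^ C * y p = (jj X) ^ (p * S) * jj h) :
    ∀ p, ∃ h : k⟦X⟧, (jj X) ^ C' * y p = (jj X) ^ (p * S) * jj h := by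
  intro p
  obtain ⟨g, hg⟩ := h p
  obtain ⟨j, rfl⟩ := Nat.exists_eq_add_of_le hC
  refine ⟨X ^ j * g, ?_⟩
  rw [pow_add, map_mul, map_pow]
  calc (jj (X : k⟦X⟧)) ^ C * (jj X) ^ j * y p = (jj X) ^ j * ((jj X) ^ C * y p) := by ring
    _ = _ := by rw [hg]; ring

/-- uniform bound for a finite family -/
lemma NL_unif {S : ℕ} {α : Type*} [Fintype α] {y : α → ℕ → FL k} (h : ∀ i, NL S (y i)) :
    ∃ C : ℕ, ∀ i p, ∃ h : k⟦X⟧, (jj X) ^ C * y i p = (jj X) ^ (p * S) * jj h := by
  classical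
  choose C hC using h
  refine ⟨Finset.univ.sup C, fun i => NL_mono (Finset.le_sup (Finset.mem_univ i)) (hC i)⟩

end prep

section step

variable {K : Type*} [Field K] [NumberField K] {ι : Type*} [Fintype ι] [DecidableEq ι]

/-- the derivation `E_s` of `τ` -/
noncomputable def Et (τ : K ≃ₐ[ℚ] K) (a : ι → K⟦X⟧) (E : ι → Derivation K (FL K) (FL K)) (s : ℕ) :
    Derivation K (FL K) (FL K) :=
  ∑ i, (algebraMap K (FL K) (τ (coeff s (a i)))) • E i

lemma Et_apply (τ : K ≃ₐ[ℚ] K) (a : ι → K⟦X⟧) (E : ι → Derivation K (FL K) (FL K)) (s : ℕ)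
    (x : FL K) : Et τ a E s x = ∑ i, algebraMap K (FL K) (τ (coeff s (a i))) * E i x := by
  unfold Et
  have h1 : ∀ t : Finset ι, (∑ i ∈ t, (algebraMap K (FL K) (τ (coeff s (a i)))) • E i) x =
      ∑ i ∈ t, algebraMap K (FL K) (τ (coeff s (a i))) * E i x := by
    intro t
    induction t using Finset.induction_on with
    | empty => simp
    | insert i t hi ih =>
      rw [Finset.sum_insert hi, Finset.sum_insert hi, Derivation.add_apply, ih,
        Derivation.smul_apply, smul_eq_mul]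
  exact h1 _

/-- the truncated family -/
noncomputable def Es (τ : K ≃ₐ[ℚ] K) (a : ι → K⟦X⟧) (E : ι → Derivation K (FL K) (FL K)) (S : ℕ)
    (s : ℕ) : Derivation K (FL K) (FL K) :=
  if s = 0 ∨ S ≤ s then 0 else Et τ a E s

/-- the numbers `λ` -/
noncomputable def lam (τ : K ≃ₐ[ℚ] K) (a : K⟦X⟧) (s : ℕ) : K :=
  if s = 0 then 0 else τ (coeff s a)

/-- the correction term -/
noncomputable def ll (τ : K ≃ₐ[ℚ] K) (a : K⟦X⟧) (S p : ℕ) : K⟦X⟧ :=
  ∑ s ∈ Finset.range S, C ((p : K)⁻¹ * lam τ a s) * X ^ (p * s)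

lemma X_dvd_ll (τ : K ≃ₐ[ℚ] K) (a : K⟦X⟧) (S p : ℕ) : X ^ p ∣ ll τ a S p := by
  unfold ll
  refine Finset.dvd_sum fun s _ => ?_
  cases s with
  | zero => simp [lam]
  | succ s =>
    apply Dvd.dvd.mul_left
    exact pow_dvd_pow _ (Nat.le_mul_of_pos_right p (Nat.succ_pos s))

lemma Es_b {τ : K ≃ₐ[ℚ] K} {a b : ι → K⟦X⟧} {E : ι → Derivation K (FL K) (FL K)} {S : ℕ}
    (hb : ∀ i, jj (b i) ≠ 0)
    (hE : ∀ j i, om (jj (a i)) (jj (b i)) (E j) = if i = j then 1 else 0) (i : ι) (s : ℕ)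
    (hs : s < S) : Es τ a E S s (jj (b i)) = jj (b i) *
      (Es τ a E S s (jj (a i)) + algebraMap K (FL K) (lam τ (a i) s)) := by
  have hEb : ∀ j, E j (jj (b i)) = jj (b i) * (E j (jj (a i)) + if i = j then 1 else 0) := by
    intro j
    rw [← hE j i]
    unfold om
    have := hb i
    field_simp
    ring
  unfold Es lam
  by_cases h0 : s = 0
  · subst h0; simp
  · rw [if_neg (by omega), if_neg h0, Et_apply, Et_apply]
    simp_rw [hEb]
    have e : ∀ j, algebraMap K (FL K) (τ (coeff s (a j))) *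
        (jj (b i) * (E j (jj (a i)) + if i = j then 1 else 0)) =
        jj (b i) * (algebraMap K (FL K) (τ (coeff s (a j))) * E j (jj (a i))) +
          (if i = j then jj (b i) * algebraMap K (FL K) (τ (coeff s (a j))) else 0) := by
      intro j; split_ifs <;> ring
    rw [Finset.sum_congr rfl fun j _ => e j, Finset.sum_add_distrib, ← Finset.mul_sum, mul_add]
    congr 1
    simp

/-- the integrality of the exponentials -/
lemma exp_int {v : HeightOneSpectrum (𝓞 K)} (hu : Unr v) {τ : K ≃ₐ[ℚ] K} (hτ : FrobAt τ v)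
    {a s : K⟦X⟧} {S k0 : ℕ} (hS : 0 < S) (hSp : S ≤ rc v) (hk0 : S ≤ k0)
    (ha0 : v.valuation K (constantCoeff a) ≤ 1)
    (hs : s ∈ Ov v) (hsa : X ^ k0 ∣ s - a) (m : ℕ) (hm : m < rc v * S) :
    v.valuation K (coeff m (Ex (s - C (constantCoeff a) + ll τ a S (rc v)))) ≤ 1 := by
  set p := rc v with hpdef
  have hp := rc_prime v
  have hpos : 0 < p := hp.pos
  set s' := s - C (constantCoeff a) with hs'
  have hs'v : s' ∈ Ov v := sub_mem hs (C_mem_Ov ha0)
  rw [X_pow_dvd_iff] at hsa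
  have hs'0 : constantCoeff s' = 0 := by
    have h1 := hsa 0 (by omega)
    rw [map_sub, sub_eq_zero] at h1
    simp only [coeff_zero_eq_constantCoeff_apply] at h1
    rw [hs', map_sub, constantCoeff_C, h1, sub_self]
  have hs'n : ∀ n, n ≠ 0 → n < k0 → coeff n s' = coeff n a := by
    intro n hn hnk
    have h1 := hsa n hnk
    rw [map_sub, sub_eq_zero] at h1
    rw [hs', map_sub, coeff_C, if_neg hn, sub_zero, h1]
  set D := C ((p : K)⁻¹) * expand p hp.ne_zero (PowerSeries.map (τ : K →+* K) s') with hD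
  have hdw := dwork hu hτ hs'0 hs'v
  have hD0 : constantCoeff D = 0 := by
    rw [hD, map_mul, constantCoeff_expand, ← coeff_zero_eq_constantCoeff_apply (φ := PowerSeries.map _ _),
      coeff_map, coeff_zero_eq_constantCoeff_apply, hs'0, map_zero, mul_zero]
  have hl0 : constantCoeff (ll τ a S p) = 0 := by
    have := X_dvd_ll τ a S p
    rw [X_pow_dvd_iff] at this
    simpa using this 0 hpos
  have hdiff : X ^ (p * S) ∣ ll τ a S p - D := by
    rw [X_pow_dvd_iff]
    intro j hj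
    rw [map_sub, sub_eq_zero, hD, coeff_C_mul, coeff_expand]
    unfold ll
    rw [map_sum]
    simp only [coeff_C_mul, coeff_X_pow]
    split_ifs with h
    · obtain ⟨n, rfl⟩ := h
      have hn : n < S := lt_of_mul_lt_mul_left hj (Nat.zero_le _)
      rw [Nat.mul_div_cancel_left _ hpos, coeff_map, Finset.sum_eq_single n]
      · rw [if_pos rfl, mul_one]
        congr 1
        unfold lam
        split_ifs with h0
        · subst h0
          rw [coeff_zero_eq_constantCoeff_apply, hs'0, map_zero]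
        · rw [hs'n n h0 (by omega)]; rfl
      · intro b _ hb
        rw [if_neg, mul_zero]
        intro h2
        exact hb (Nat.eq_of_mul_eq_mul_left hpos h2).symm
      · intro h'; exact absurd (Finset.mem_range.2 hn) h'
    · rw [mul_zero]
      refine Finset.sum_eq_zero fun b _ => ?_
      rw [if_neg, mul_zero]
      rintro rfl
      exact h ⟨b, rfl⟩
  have h1 : Ex (s' + ll τ a S p) = Ex (s' + D) * Ex (ll τ a S p - D) := by
    rw [← Ex_add]
    · congr 1; ring
    · rw [map_add, hs'0, hD0, add_zero]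
    · rw [map_sub, hl0, hD0, sub_zero]
  have h2 : X ^ (p * S) ∣ Ex (ll τ a S p - D) - 1 := by
    have h3 := Ex_trunc (q := p * S) (S := 1) (Nat.mul_pos hpos hS) one_pos hdiff
    have h4 : eS 1 (ll τ a S p - D) = 1 := by
      unfold eS; rw [Finset.sum_range_one]; simp
    rwa [mul_one, h4] at h3
  have h5 : X ^ (p * S) ∣ Ex (s' + ll τ a S p) - Ex (s' + D) := by
    have e : Ex (s' + ll τ a S p) - Ex (s' + D) = Ex (s' + D) * (Ex (ll τ a S p - D) - 1) := by
      rw [h1]; ring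
    rw [e]; exact Dvd.dvd.mul_left h2 _
  rw [X_pow_dvd_iff] at h5
  have h6 := h5 m hm
  rw [map_sub, sub_eq_zero] at h6
  rw [h6]
  exact hdw m (lt_of_lt_of_le hm (Nat.mul_le_mul_left _ hSp))

end step

end Run7.h131.LL
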