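import Mathlib
import Pool.Agent.Run7.h131.LL.Core

/-!
# The main step
-/

set_option autoImplicit false
open NumberField IsDedekindDomain Filter PowerSeries
open H497R2 (rc Av mem_Av OmInt FrobAt rc_prime val_rc_lt ev_rc_gt ev_val_le_one ev_val_eq_one
  eq_zero_of_frequently)

namespace Run7.h131.LL

variable {K : Type*} [Field K] [NumberField K] {ι : Type*} [Fintype ι] [DecidableEq ι]

/-- the deformed solutions -/
theorem deform {f : K⟦X⟧} {a b : ι → K⟦X⟧} (hode : ∀ i, d⁄dX K (b i) = b i * d⁄dX K (a i))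
    (hne : ∀ i, constantCoeff (b i) ≠ 0)
    (E : ι → Derivation K (FL K) (FL K)) (hEz : ∀ j, E j (jj X) = 0)
    (hE : ∀ j i, om (jj (a i)) (jj (b i)) (E j) = if i = j then 1 else 0)
    (P : Option ι → MvPolynomial (Vr ι) K)
    (hP : ∀ o, MvPolynomial.aeval (vU (uu f a) b) (P o) = 0)
    (τ : K ≃ₐ[ℚ] K) (T : ℕ) (ih : ∀ s, s < T → Et τ a E (s + 1) (jj f) = 0) :
    ∃ CT : ℕ, ∀ p : ℕ, CT < p → ∃ (U : Option ι → K⟦X⟧) (B : ι → K⟦X⟧),
      (∀ o, X ^ (p - CT) ∣ U o - uu f a o) ∧ (∀ i, X ^ (p - CT) ∣ B i - b i) ∧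
      (∀ o, X ^ (p * (T + 2) - CT) ∣ MvPolynomial.aeval (vU U B) (P o)) ∧
      (∀ i, X ^ (p * (T + 2) - CT) ∣ B i - C (constantCoeff (b i)) *
        Ex (U (some i) - C (constantCoeff (a i)) + ll τ (a i) (T + 2) p)) ∧
      jj (U none) = jj f + algebraMap K (FL K) ((p : K)⁻¹) * Et τ a E (T + 1) (jj f) *
        (jj X) ^ (p * (T + 1)) := by
  classical
  set S := T + 2 with hS
  have hS0 : 0 < S := by omega
  set u : ℕ → K := fun p => (p : K)⁻¹ with hu
  set Ef := Es τ a E S with hEf
  have hEfS : ∀ s, S ≤ s → Ef s = 0 := by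
    intro s hs
    rw [hEf]; unfold Es; rw [if_pos (Or.inr hs)]
  have hbne : ∀ i, jj (b i) ≠ 0 := fun i h0 => hne i (by rw [jj_eq_zero.1 h0, map_zero])
  set w : Vr ι → K⟦X⟧ := vU (uu f a) b with hw
  -- `J z = z`
  have hJz : ∀ p, J Ef u S (jj X) p = jj X := by
    intro p
    unfold J
    rw [Fl_kill, sp_C hS0]
    intro s
    rw [hEf]
    unfold Es
    split_ifs
    · rfl
    · rw [Et_apply]
      exact Finset.sum_eq_zero fun i _ => by rw [hEz, mul_zero]
  -- nearness
  obtain ⟨C0, hC0⟩ := NL_unif (S := 1) (y := fun v : Vr ι => fun p => J Ef u S (jj (w v)) p - jj (w v))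
    (fun v => J_near Ef u hS0 (jj (w v)))
  have hnear : ∀ p, C0 ≤ p → ∀ v, ∃ W : K⟦X⟧, jj W = J Ef u S (jj (w v)) p ∧ X ^ (p - C0) ∣ W - w v := by
    intro p hp v
    obtain ⟨h, hh⟩ := hC0 v p
    refine ⟨w v + X ^ (p - C0) * h, ?_, ?_⟩
    · rw [map_add, map_mul, map_pow]
      have h1 : (jj (X : K⟦X⟧)) ^ C0 ≠ 0 := pow_ne_zero _ jX_ne
      apply mul_left_cancel₀ h1
      have h2 : (jj (X : K⟦X⟧)) ^ C0 * (jj X) ^ (p - C0) = (jj X) ^ (p * 1) := by
        rw [← pow_add, mul_one]; congr 1; omega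
      have hh' : (jj (X : K⟦X⟧)) ^ C0 * (J Ef u S (jj (w v)) p - jj (w v)) =
        (jj X) ^ (p * 1) * jj h := hh
      linear_combination (jj h) * h2 - hh'
    · rw [add_sub_cancel_left]; exact Dvd.intro _ rfl
  -- relations
  obtain ⟨C1, hC1⟩ := NL_unif (S := S) (y := fun o : Option ι => fun p =>
      MvPolynomial.aeval (fun v => J Ef u S (jj (w v)) p) (P o))
    (fun o => J_rel Ef u hS0 hEfS (fun v => jj (w v)) (P o) (by
      have h1 := MvPolynomial.comp_aeval_apply (f := w) jA (P o)
      rw [hP o, map_zero] at h1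
      exact h1.symm))
  -- exponentials
  obtain ⟨C2, hC2⟩ := NL_unif (S := S) (y := fun i : ι => fun p =>
      J Ef u S (jj (b i)) p - jj (b i) * ∑ j ∈ Finset.range S, ((j.factorial : FL K)⁻¹) *
      (J Ef u S (jj (a i)) p - jj (a i) + ∑ s ∈ Finset.range S,
        algebraMap K (FL K) (u p * lam τ (a i) s) * (jj X) ^ (p * s)) ^ j)
    (fun i => J_exp Ef u hS0 hEfS (lam τ (a i)) (by unfold lam; rw [if_pos rfl])
      (fun s hs => Es_b hbne hE i s hs))
  set CT := C0 * S + C1 + C2 + C0 with hCT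
  refine ⟨CT, fun p hp => ?_⟩
  choose W hW1 hW2 using hnear p (by omega)
  set U : Option ι → K⟦X⟧ := fun o => W (some (Sum.inl o)) with hU
  set B : ι → K⟦X⟧ := fun i => W (some (Sum.inr i)) with hB
  have hWX : W none = X := by
    apply jj_inj
    rw [hW1]
    exact hJz p
  have hWvU : W = vU U B := by
    ext1 v
    rcases v with _ | (_ | i) | i
    · exact hWX
    · rfl
    · rfl
    · rfl
  have hnU : ∀ o, X ^ (p - C0) ∣ U o - uu f a o := by
    intro o
    cases o with
    | none => exact hW2 (some (Sum.inl none))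
    | some i => exact hW2 (some (Sum.inl (some i)))
  have hnB : ∀ i, X ^ (p - C0) ∣ B i - b i := fun i => hW2 (some (Sum.inr i))
  refine ⟨U, B, fun o => (pow_dvd_pow _ (by omega)).trans (hnU o),
    fun i => (pow_dvd_pow _ (by omega)).trans (hnB i), ?_, ?_, ?_⟩
  · intro o
    obtain ⟨h, hh⟩ := hC1 o p
    have h1 : MvPolynomial.aeval (fun v => J Ef u S (jj (w v)) p) (P o) =
        jj (MvPolynomial.aeval (vU U B) (P o)) := by
      have h2 := MvPolynomial.comp_aeval_apply (f := vU U B) jA (P o)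
      rw [jA_apply] at h2
      rw [h2]
      congr 2
      ext1 v
      rw [← hWvU, jA_apply, hW1]
    have hh' : (jj X) ^ C1 * jj (MvPolynomial.aeval (vU U B) (P o)) = (jj X) ^ (p * S) * jj h := by
      rw [← h1]; exact hh
    exact (pow_dvd_pow _ (by omega)).trans (dvd_of_jj hh')
  · intro i
    obtain ⟨h, hh⟩ := hC2 i p
    have hU1 : jj (U (some i)) = J Ef u S (jj (a i)) p := hW1 (some (Sum.inl (some i)))
    have hB1 : jj (B i) = J Ef u S (jj (b i)) p := hW1 (some (Sum.inr i))
    set g := U (some i) - a i + ll τ (a i) S p with hg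
    have hh' : (jj X) ^ C2 * jj (B i - b i * eS S g) = (jj X) ^ (p * S) * jj h := by
      rw [← hh]
      congr 1
      rw [map_sub, map_mul, hB1]
      congr 2
      unfold eS
      rw [map_sum]
      refine Finset.sum_congr rfl fun j _ => ?_
      rw [map_mul, jj_C, map_inv₀, map_natCast, map_pow]
      congr 2
      rw [hg, map_add, map_sub, hU1]
      congr 1
      unfold ll
      rw [map_sum]
      refine Finset.sum_congr rfl fun s _ => ?_
      rw [map_mul, jj_C, map_pow]
    have h1 : X ^ (p * S - C2) ∣ B i - b i * eS S g := dvd_of_jj hh'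
    have hq : X ^ (p - C0) ∣ g := by
      refine dvd_add (hnU (some i)) ((pow_dvd_pow _ (by omega)).trans (X_dvd_ll τ (a i) S p))
    have h2 : X ^ ((p - C0) * S) ∣ Ex g - eS S g := Ex_trunc (by omega) hS0 hq
    have hle : p * S - CT ≤ (p - C0) * S := by
      rw [Nat.sub_mul]; omega
    have h3 : X ^ (p * S - CT) ∣ B i - b i * Ex g := by
      have e : B i - b i * Ex g = (B i - b i * eS S g) - b i * (Ex g - eS S g) := by ring
      rw [e]
      exact dvd_sub ((pow_dvd_pow _ (by omega)).trans h1)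
        (Dvd.dvd.mul_left ((pow_dvd_pow _ hle).trans h2) _)
    have hg0 : constantCoeff g = 0 := by
      rw [X_pow_dvd_iff] at hq
      simpa using hq 0 (by omega)
    have ha0 : constantCoeff (a i - C (constantCoeff (a i))) = 0 := by
      rw [map_sub, constantCoeff_C, sub_self]
    have h4 : b i = C (constantCoeff (b i)) * Ex (a i - C (constantCoeff (a i))) := by
      apply Ex_unique ha0
      rw [th_sub, th_C, sub_zero]
      unfold th
      rw [hode]; ring
    have h5 : b i * Ex g = C (constantCoeff (b i)) *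
        Ex (U (some i) - C (constantCoeff (a i)) + ll τ (a i) S p) := by
      conv_lhs => rw [h4]
      rw [mul_assoc, ← Ex_add ha0 hg0]
      congr 2
      rw [hg]; ring
    rw [← h5]; exact h3
  · have h1 : jj (U none) = J Ef u S (jj f) p := hW1 (some (Sum.inl none))
    rw [h1, J_first Ef u T]
    · have h2 : Ef (T + 1) = Et τ a E (T + 1) := by
        rw [hEf]; unfold Es; rw [if_neg (by omega)]
      rw [h2]
    · intro s hs
      have h2 : Ef (s + 1) = Et τ a E (s + 1) := by
        rw [hEf]; unfold Es; rw [if_neg (by omega)]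
      rw [h2]; exact ih s hs

/-- **The main step.** -/
theorem step {f : K⟦X⟧} {a b : ι → K⟦X⟧} (hode : ∀ i, d⁄dX K (b i) = b i * d⁄dX K (a i))
    (hne : ∀ i, constantCoeff (b i) ≠ 0)
    (E : ι → Derivation K (FL K) (FL K)) (hEz : ∀ j, E j (jj X) = 0)
    (hE : ∀ j i, om (jj (a i)) (jj (b i)) (E j) = if i = j then 1 else 0)
    (P : Option ι → MvPolynomial (Vr ι) K)
    (hP : ∀ o, MvPolynomial.aeval (vU (uu f a) b) (P o) = 0)
    (hdet : (mat P (uu f a) b).det ≠ 0)
    (hf : OmInt f) {τ : K ≃ₐ[ℚ] K}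
    (hτ : ∃ᶠ v : HeightOneSpectrum (𝓞 K) in cofinite, FrobAt τ v)
    (T : ℕ) (ih : ∀ s, s < T → Et τ a E (s + 1) (jj f) = 0) : Et τ a E (T + 1) (jj f) = 0 := by
  classical
  obtain ⟨C, hC⟩ := deform hode hne E hEz hE P hP τ T ih
  obtain ⟨r, W, hW0, hW⟩ := split_order hdet
  obtain ⟨Cy, Y, hY⟩ := exists_pow_mul (Et τ a E (T + 1) (jj f))
  have hcr : coeff r (mat P (uu f a) b).det ≠ 0 := by
    rw [hW, coeff_X_pow_mul', if_pos le_rfl, Nat.sub_self, coeff_zero_eq_constantCoeff_apply]
    exact hW0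
  set k0 := r + T + 2 with hk0
  -- all coefficients of `Y` are zero
  have hYd : ∀ d, coeff d Y = 0 := by
    intro d
    apply eq_zero_of_frequently
    have hev : ∀ᶠ v : HeightOneSpectrum (𝓞 K) in cofinite, FrobAt τ v →
        v.valuation K (coeff d Y) < 1 := by
      have e1 : ∀ᶠ v : HeightOneSpectrum (𝓞 K) in cofinite, ∀ o : Option ι,
          ∀ m ∈ (P o).support, v.valuation K ((P o).coeff m) ≤ 1 :=
        eventually_all.2 fun o => (Finset.eventually_all _).2 fun m _ => ev_val_le_one _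
      have e2 : ∀ᶠ v : HeightOneSpectrum (𝓞 K) in cofinite, ∀ o : Option ι,
          ∀ m ∈ Finset.range k0, v.valuation K (coeff m (uu f a o)) ≤ 1 :=
        eventually_all.2 fun o => (Finset.eventually_all _).2 fun m _ => ev_val_le_one _
      have e3 : ∀ᶠ v : HeightOneSpectrum (𝓞 K) in cofinite, ∀ i : ι,
          v.valuation K (constantCoeff (b i)) ≤ 1 :=
        eventually_all.2 fun i => ev_val_le_one _
      filter_upwards [ev_unr, ev_rc_gt (K := K) (C + k0 + r + Cy + d + T + 2), e1, e2, e3,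
        ev_val_eq_one hcr, hf (T + 2)] with v hunr hrc h1 h2 h3 h4 h5 hFr
      set p := rc v with hp
      obtain ⟨U, B, hU, hB, hPU, hBE, hUn⟩ := hC p (by omega)
      have hpT : p * (T + 2) = p * (T + 1) + p := by ring
      have hint := newton v P (uu f a) b U B (fun i => constantCoeff (b i))
        (fun i => constantCoeff (a i)) (fun i => ll τ (a i) (T + 2) p) r k0 (p - C)
        (p * (T + 2) - C) (by omega) (by omega) (by omega) (fun i => rfl) (fun i => by
          have := X_dvd_ll τ (a i) (T + 2) p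
          rw [X_pow_dvd_iff] at this
          simpa using this 0 (by omega)) (fun o m => by
          by_cases hm : m ∈ (P o).support
          · exact h1 o m hm
          · rw [MvPolynomial.notMem_support_iff.1 hm, map_zero]; exact zero_le)
        (fun o m hm => h2 o m (Finset.mem_range.2 hm)) hU hB hPU hBE
        (fun i s hs hsa m hm => by
          rw [coeff_C_mul, map_mul]
          refine mul_le_one' (h3 i) ?_
          refine exp_int hunr hFr (by omega) (by omega) (by omega) ?_ hs hsa m (by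
            rw [← hp]; omega)
          have := h2 (some i) 0 (Finset.mem_range.2 (by omega))
          rwa [coeff_zero_eq_constantCoeff_apply] at this)
        (by rw [hW]; exact Dvd.intro _ rfl) h4
      -- the coefficient
      have e : X ^ Cy * (U none - f) = PowerSeries.C ((p : K)⁻¹) * Y * X ^ (p * (T + 1)) := by
        apply jj_inj
        rw [map_mul, map_pow, map_sub, hUn, map_mul, map_mul, jj_C, ← hY, map_pow]
        ring
      have e' := congrArg (coeff (d + p * (T + 1))) e
      rw [coeff_mul_X_pow, coeff_C_mul, coeff_X_pow_mul', if_pos (by nlinarith)] at e'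
      set m := d + p * (T + 1) - Cy with hm
      have hpT1 : p ≤ p * (T + 1) := Nat.le_mul_of_pos_right p (Nat.succ_pos T)
      have g1 : v.valuation K (coeff m (U none)) ≤ 1 := hint none m (by omega)
      have g2 : v.valuation K (coeff m f) ≤ 1 := h5 m (by
        rw [mul_comm]; omega)
      have g3 : v.valuation K ((p : K)⁻¹ * coeff d Y) ≤ 1 := by
        rw [← e', map_sub]
        exact (Valuation.map_sub _ _ _).trans (max_le g1 g2)
      have hpK : (p : K) ≠ 0 := by exact_mod_cast (rc_prime v).ne_zero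
      have g4 : coeff d Y = (p : K) * ((p : K)⁻¹ * coeff d Y) := by
        rw [← mul_assoc, mul_inv_cancel₀ hpK, one_mul]
      rw [g4, map_mul]
      calc v.valuation K (p : K) * v.valuation K ((p : K)⁻¹ * coeff d Y)
          ≤ v.valuation K (p : K) * 1 := by gcongr
        _ < 1 := by rw [mul_one]; exact val_rc_lt v
    exact (hτ.and_eventually hev).mono fun v hv => hv.2 hv.1
  have hY0 : Y = 0 := by
    ext d; rw [hYd, map_zero]
  rw [hY0, map_zero] at hY
  exact (mul_eq_zero.1 hY).resolve_left (pow_ne_zero _ jX_ne)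

end Run7.h131.LL
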