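import Mathlib
import Pool.Agent.Run7.h131.LL.Core2

/-!
# The core theorem
-/

set_option autoImplicit false
open NumberField IsDedekindDomain Filter PowerSeries
open H497R2 (OmInt FrobAt)

namespace Run7.h131.LL

variable {K : Type*} [Field K] [NumberField K] {ι : Type*} [Fintype ι] [DecidableEq ι]

/-- the trace argument -/
lemma trace_arg [IsGalois ℚ K] {a : ι → K⟦X⟧}
    (hind : ∀ m : ι → ℤ, ∑ i, (m i : K⟦X⟧) * d⁄dX K (a i) = 0 → m = 0) (κ : ι → FL K)
    (h : ∀ (τ : K ≃ₐ[ℚ] K) (s : ℕ),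
      ∑ i, algebraMap K (FL K) (τ (coeff (s + 1) (a i))) * κ i = 0) : κ = 0 := by
  classical
  by_contra hne
  obtain ⟨i₀, hi₀⟩ := Function.ne_iff.1 hne
  have hi₀ : κ i₀ ≠ 0 := hi₀
  obtain ⟨φ, hφ⟩ : ∃ φ : Module.Dual K (FL K), φ (κ i₀) ≠ 0 := by
    by_contra hcon
    push Not at hcon
    exact hi₀ ((Module.forall_dual_apply_eq_zero_iff K _).1 hcon)
  set c : ι → K := fun i => φ (κ i) / φ (κ i₀) with hc
  have hc1 : c i₀ = 1 := div_self hφ
  have h1 : ∀ (τ : K ≃ₐ[ℚ] K) (s : ℕ), ∑ i, τ (coeff (s + 1) (a i)) * c i = 0 := by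
    intro τ s
    have h2 := congrArg φ (h τ s)
    rw [map_sum, map_zero] at h2
    have h3 : ∑ i, τ (coeff (s + 1) (a i)) * φ (κ i) = 0 := by
      rw [← h2]
      refine Finset.sum_congr rfl fun i _ => ?_
      rw [← Algebra.smul_def, map_smul, smul_eq_mul]
    have h4 : ∑ i, τ (coeff (s + 1) (a i)) * c i =
        (∑ i, τ (coeff (s + 1) (a i)) * φ (κ i)) / φ (κ i₀) := by
      rw [Finset.sum_div]
      exact Finset.sum_congr rfl fun i _ => by simp only [hc]; ring
    rw [h4, h3, zero_div]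
  set q : ι → ℚ := fun i => Algebra.trace ℚ K (c i) with hq
  have hsum : ∀ s, ∑ i, algebraMap ℚ K (q i) * coeff (s + 1) (a i) = 0 := by
    intro s
    have e : ∀ i, algebraMap ℚ K (q i) = ∑ σ : K ≃ₐ[ℚ] K, σ (c i) := fun i =>
      trace_eq_sum_automorphisms (c i)
    simp_rw [e, Finset.sum_mul]
    rw [Finset.sum_comm]
    refine Finset.sum_eq_zero fun σ _ => ?_
    have h2 := congrArg σ (h1 σ.symm s)
    rw [map_sum, map_zero] at h2
    rw [← h2]
    refine Finset.sum_congr rfl fun i _ => ?_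
    rw [map_mul, AlgEquiv.apply_symm_apply, mul_comm]
  have hq0 : q i₀ ≠ 0 := by
    simp only [hq]
    rw [hc1]
    have h2 : Algebra.trace ℚ K (1 : K) = (Module.finrank ℚ K : ℚ) := by
      have := Algebra.trace_algebraMap (R := ℚ) (S := K) (1 : ℚ)
      simpa using this
    rw [h2]
    exact_mod_cast Module.finrank_pos.ne'
  -- clear denominators
  let N : ℕ := ∏ i, (q i).den
  have hN0 : N ≠ 0 := Finset.prod_ne_zero_iff.2 fun i _ => (q i).den_nz
  have hn : ∀ i, ∃ n : ℤ, (n : ℚ) = N * q i := by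
    intro i
    obtain ⟨c', hc'⟩ : (q i).den ∣ N := Finset.dvd_prod_of_mem (fun i => (q i).den) (Finset.mem_univ i)
    refine ⟨c' * (q i).num, ?_⟩
    rw [hc']
    push_cast
    have := Rat.mul_den_eq_num (q i)
    rw [← this]; ring
  choose n hn using hn
  have hfin := hind n (by
    ext s
    rw [map_sum, map_zero]
    have e : ∀ i, coeff s ((n i : K⟦X⟧) * d⁄dX K (a i)) =
        (N : K) * ((s : K) + 1) * (algebraMap ℚ K (q i) * coeff (s + 1) (a i)) := by
      intro i
      have e1 : ((n i : ℤ) : K⟦X⟧) = C ((n i : ℤ) : K) := by simp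
      have e2 : ((n i : ℤ) : K) = (N : K) * algebraMap ℚ K (q i) := by
        have := congrArg (algebraMap ℚ K) (hn i)
        simpa using this
      rw [e1, coeff_C_mul, coeff_derivative, e2]
      ring
    rw [Finset.sum_congr rfl fun i _ => e i, ← Finset.mul_sum, hsum, mul_zero])
  have h5 := hn i₀
  rw [hfin, Pi.zero_apply, Int.cast_zero] at h5
  exact mul_ne_zero (by exact_mod_cast hN0) hq0 h5.symm

/-- **The core theorem.** -/
theorem core [IsGalois ℚ K]
    (hCh : ∀ τ : K ≃ₐ[ℚ] K, ∃ᶠ v : HeightOneSpectrum (𝓞 K) in cofinite, FrobAt τ v)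
    {f : K⟦X⟧} {a b g : ι → K⟦X⟧} (h : ESys f a b g) (hf : OmInt f) :
    IsAlgebraic (Polynomial K) f := by
  classical
  obtain ⟨E, hEz, hE⟩ := h.dual
  obtain ⟨P, hP, hdet⟩ := h.system E hEz hE
  have hall : ∀ (τ : K ≃ₐ[ℚ] K) (T : ℕ), Et τ a E (T + 1) (jj f) = 0 := by
    intro τ T
    induction T using Nat.strong_induction_on with
    | _ T ih => exact step h.ode h.ne E hEz hE P hP hdet hf (hCh τ) T ih
  have hκ : (fun i => E i (jj f)) = 0 := by
    apply trace_arg h.ind
    intro τ s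
    rw [← Et_apply]
    exact hall τ s
  by_contra hal
  obtain ⟨D, hD0, hD1⟩ := exists_der_one hal
  have hsum : ∀ (t : Finset ι) (x : FL K), (∑ i ∈ t, om (jj (a i)) (jj (b i)) D • E i) x =
      ∑ i ∈ t, om (jj (a i)) (jj (b i)) D * E i x := by
    intro t x
    induction t using Finset.induction_on with
    | empty => simp
    | insert i t hi ih =>
      rw [Finset.sum_insert hi, Finset.sum_insert hi, Derivation.add_apply, ih,
        Derivation.smul_apply, smul_eq_mul]
  let D' : Derivation K (FL K) (FL K) := D - ∑ i, om (jj (a i)) (jj (b i)) D • E i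
  have hD' : ∀ x, D' x = D x - ∑ i, om (jj (a i)) (jj (b i)) D * E i x := by
    intro x
    change (D - ∑ i, om (jj (a i)) (jj (b i)) D • E i) x = _
    rw [Derivation.sub_apply, hsum]
  have h1 : D' (jj f) = 0 := by
    refine h.om_zero E hEz hE D' ?_ ?_
    · rw [hD', hD0]
      simp [hEz]
    · intro j
      have e : om (jj (a j)) (jj (b j)) D' = om (jj (a j)) (jj (b j)) D -
          ∑ i, om (jj (a i)) (jj (b i)) D * om (jj (a j)) (jj (b j)) (E i) := by
        have e1 : ∑ i, om (jj (a i)) (jj (b i)) D * om (jj (a j)) (jj (b j)) (E i) =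
            (∑ i, om (jj (a i)) (jj (b i)) D * E i (jj (b j))) / jj (b j) -
            ∑ i, om (jj (a i)) (jj (b i)) D * E i (jj (a j)) := by
          rw [Finset.sum_div, ← Finset.sum_sub_distrib]
          refine Finset.sum_congr rfl fun i _ => ?_
          unfold om; ring
        rw [e1]
        unfold om
        rw [hD', hD']
        unfold om
        ring
      rw [e]
      simp_rw [hE]
      simp
  rw [hD', hD1] at h1
  have h2 : ∑ i, om (jj (a i)) (jj (b i)) D * E i (jj f) = 0 := by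
    refine Finset.sum_eq_zero fun i _ => ?_
    have := congrFun hκ i
    simp only [Pi.zero_apply] at this
    rw [this, mul_zero]
  rw [h2, sub_zero] at h1
  exact one_ne_zero h1

end Run7.h131.LL
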