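import Mathlib
import Pool.Agent.Run7.h131.LL.Core3
import Pool.Agent.Run7.h131.LL.ChebB

/-!
# Base change of exponential systems; arbitrary number fields
-/

set_option autoImplicit false
open NumberField IsDedekindDomain PowerSeries
open H497R2 (OmInt FrobAt rc rc_prime Av mem_Av ev_rc_gt natCast_mem_iff)

namespace Run7.h131.LL

section

variable {k k' : Type*} [Field k] [Field k'] [Algebra k k']

lemma map_der (f : k⟦X⟧) : map (algebraMap k k') (d⁄dX k f) = d⁄dX k' (map (algebraMap k k') f) := by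
  ext n
  rw [coeff_map, coeff_derivative, coeff_derivative, coeff_map, map_mul, map_add, map_natCast,
    map_one]

/-- base change of algebraicity -/
lemma alg_map {S : Set k⟦X⟧} {x : k⟦X⟧} (h : IsAlgebraic (Algebra.adjoin k S) x) :
    IsAlgebraic (Algebra.adjoin k' (map (algebraMap k k') '' S)) (map (algebraMap k k') x) := by
  let φ : k⟦X⟧ →+* k'⟦X⟧ := map (algebraMap k k')
  have hφ : Function.Injective φ := map_injective _ (algebraMap k k').injective
  have hmem : ∀ y ∈ Algebra.adjoin k S, φ y ∈ Algebra.adjoin k' (φ '' S) := by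
    intro y hy
    induction hy using Algebra.adjoin_induction with
    | mem y hy => exact Algebra.subset_adjoin ⟨y, hy, rfl⟩
    | algebraMap c =>
      have : φ (algebraMap k k⟦X⟧ c) = algebraMap k' k'⟦X⟧ (algebraMap k k' c) := by
        change map (algebraMap k k') (C c) = C (algebraMap k k' c)
        rw [map_C]
      rw [this]
      exact Subalgebra.algebraMap_mem _ _
    | add a b _ _ ha hb => rw [map_add]; exact add_mem ha hb
    | mul a b _ _ ha hb => rw [map_mul]; exact mul_mem ha hb
  let ψ : Algebra.adjoin k S →+* Algebra.adjoin k' (φ '' S) :=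
    (φ.comp (Algebra.adjoin k S).val.toRingHom).codRestrict (Algebra.adjoin k' (φ '' S)).toSubring
      (fun y => hmem y.1 y.2)
  have hψ : Function.Injective ψ := by
    intro y z hyz
    apply Subtype.ext
    apply hφ
    exact congrArg Subtype.val hyz
  exact h.ringHom_of_comp_eq ψ φ hψ (by ext y; rfl)

lemma map_insert_range {ι : Type*} (g : ι → k⟦X⟧) :
    map (algebraMap k k') '' (insert X (Set.range g)) =
      insert (X : k'⟦X⟧) (Set.range fun i => map (algebraMap k k') (g i)) := by
  rw [Set.image_insert_eq, ← Set.range_comp, map_X]; rfl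

lemma ESys.baseChange {ι : Type*} [Fintype ι] {f : k⟦X⟧} {a b g : ι → k⟦X⟧} (h : ESys f a b g) :
    ESys (map (algebraMap k k') f) (fun i => map (algebraMap k k') (a i))
      (fun i => map (algebraMap k k') (b i)) (fun i => map (algebraMap k k') (g i)) where
  ode := fun i => by rw [← map_der, ← map_der, h.ode, map_mul]
  ne := fun i => by
    have e : constantCoeff (map (algebraMap k k') (b i)) =
        algebraMap k k' (constantCoeff (b i)) := by
      rw [← coeff_zero_eq_constantCoeff_apply, coeff_map, coeff_zero_eq_constantCoeff_apply]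
    rw [e]
    exact (map_ne_zero _).2 (h.ne i)
  ind := fun m hm => by
    apply h.ind m
    apply map_injective _ (algebraMap k k').injective
    rw [map_zero, ← hm, map_sum]
    refine Finset.sum_congr rfl fun i _ => ?_
    rw [map_mul, map_der, map_intCast]
  algf := by rw [← map_insert_range]; exact alg_map h.algf
  alga := fun i => by rw [← map_insert_range]; exact alg_map (h.alga i)
  algb := fun i => by rw [← map_insert_range]; exact alg_map (h.algb i)

end

/-- property 3 of the problem -/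
def P3 (f : ℚ⟦X⟧) : Prop :=
  ∃ ω : ℕ → ℤ,
    (∀ M : ℝ, ∃ B : ℕ, ∀ p : ℕ, p.Prime → B ≤ p → M ≤ (ω p : ℝ) / (p : ℝ)) ∧
    ∀ p : ℕ, p.Prime → ∀ k : ℕ, (k : ℤ) ≤ ω p →
      ∃ a b : ℤ, ¬ ((p : ℤ) ∣ b) ∧ coeff k f = (a : ℚ) / (b : ℚ)

lemma OmInt_of_P3 {K : Type*} [Field K] [NumberField K] {f : ℚ⟦X⟧} (h : P3 f) :
    OmInt (map (algebraMap ℚ K) f) := by
  obtain ⟨ω, hω, hint⟩ := h
  intro M
  obtain ⟨B, hB⟩ := hω (M : ℝ)
  filter_upwards [ev_rc_gt B] with v hv
  intro k hk
  have hp := rc_prime v
  have h1 := hB (rc v) hp hv.le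
  have hp0 : (0 : ℝ) < (rc v : ℝ) := by exact_mod_cast hp.pos
  rw [le_div_iff₀ hp0] at h1
  have h2 : ((M * rc v : ℕ) : ℤ) ≤ ω (rc v) := by
    have : (((M * rc v : ℕ) : ℤ) : ℝ) ≤ (ω (rc v) : ℝ) := by push_cast; exact h1
    exact_mod_cast this
  obtain ⟨a, b, hb, hab⟩ := hint (rc v) hp k (le_trans (by exact_mod_cast hk) h2)
  rw [coeff_map, hab, map_div₀, map_div₀]
  have ha1 : v.valuation K (algebraMap ℚ K (a : ℚ)) ≤ 1 := by
    have := v.valuation_le_one (K := K) ((a : ℤ) : 𝓞 K)
    simpa using this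
  have hb1 : v.valuation K (algebraMap ℚ K (b : ℚ)) = 1 := by
    have hmem : ((b : ℤ) : 𝓞 K) ∉ v.asIdeal := by
      intro hmem
      apply hb
      have h3 : ((b.natAbs : ℕ) : 𝓞 K) ∈ v.asIdeal := by
        rcases Int.natAbs_eq b with h | h
        · rw [h] at hmem; simpa using hmem
        · rw [h, Int.cast_neg, neg_mem_iff] at hmem; simpa using hmem
      have h4 := (natCast_mem_iff v _).1 h3
      exact Int.natCast_dvd.2 h4
    have h5 := (v.valuation_lt_one_iff_mem (K := K) ((b : ℤ) : 𝓞 K)).not.2 hmem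
    have h6 := v.valuation_le_one (K := K) ((b : ℤ) : 𝓞 K)
    have h7 := le_antisymm h6 (not_lt.1 h5)
    simpa using h7
  rw [hb1, div_one]; exact ha1

lemma OmInt.expand {K : Type*} [Field K] [NumberField K] {f : K⟦X⟧} (hf : OmInt f) (e : ℕ)
    (he : e ≠ 0) : OmInt (PowerSeries.expand e he f) := by
  intro M
  filter_upwards [hf M] with v hv
  intro k hk
  rw [coeff_expand]
  split_ifs with hd
  · exact hv _ ((Nat.div_le_self k e).trans hk)
  · simp

section descent

variable (K : Type*) [Field K] [CharZero K]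

lemma poly_apply (p : Polynomial ℚ) :
    algebraMap (Polynomial ℚ) K⟦X⟧ p = ((p.map (algebraMap ℚ K) : Polynomial K) : K⟦X⟧) := by
  rw [PowerSeries.algebraMap_apply', Polynomial.polynomial_map_coe]

omit [CharZero K] in
lemma algebraMap_polyK (p : Polynomial K) : algebraMap (Polynomial K) K⟦X⟧ p = (p : K⟦X⟧) := by
  rw [PowerSeries.algebraMap_apply']; simp

attribute [local instance] Polynomial.algebra in
/-- descent of algebraicity to the rational numbers -/
lemma alg_descend [Algebra.IsAlgebraic ℚ K] {f : ℚ⟦X⟧}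
    (h : IsAlgebraic (Polynomial K) (map (algebraMap ℚ K) f)) : IsAlgebraic (Polynomial ℚ) f := by
  haveI : Algebra.IsAlgebraic (Polynomial ℚ) (Polynomial K) := inferInstance
  haveI : IsScalarTower (Polynomial ℚ) (Polynomial K) K⟦X⟧ := by
    refine IsScalarTower.of_algebraMap_eq fun p => ?_
    rw [poly_apply, algebraMap_polyK]; rfl
  have h1 : IsAlgebraic (Polynomial ℚ) (map (algebraMap ℚ K) f) :=
    h.restrictScalars (Polynomial ℚ)
  let ψ : ℚ⟦X⟧ →ₐ[Polynomial ℚ] K⟦X⟧ :=
    AlgHom.mk (PowerSeries.map (algebraMap ℚ K)) (fun p => by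
      change PowerSeries.map (algebraMap ℚ K) (algebraMap (Polynomial ℚ) ℚ⟦X⟧ p) = _
      rw [PowerSeries.algebraMap_apply', PowerSeries.algebraMap_apply']
      simp)
  have hψ : Function.Injective ψ := PowerSeries.map_injective _ (algebraMap ℚ K).injective
  exact (isAlgebraic_algHom_iff ψ hψ).1 h1

end descent

/-- algebraicity over the polynomials -/
lemma alg_poly_iff {k : Type*} [Field k] {f : k⟦X⟧} :
    IsAlgebraic (Polynomial k) f ↔ IsAlgebraic (Algebra.adjoin k {(X : k⟦X⟧)}) f := by
  have hmem : ∀ p : Polynomial k, algebraMap (Polynomial k) k⟦X⟧ p ∈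
      Algebra.adjoin k {(X : k⟦X⟧)} := by
    intro p
    have e : algebraMap (Polynomial k) k⟦X⟧ p = Polynomial.aeval (X : k⟦X⟧) p := by
      have h1 : IsScalarTower.toAlgHom k (Polynomial k) k⟦X⟧ =
          Polynomial.aeval (X : k⟦X⟧) := by
        apply Polynomial.algHom_ext
        rw [Polynomial.aeval_X]
        change algebraMap (Polynomial k) k⟦X⟧ Polynomial.X = X
        rw [algebraMap_polyK, Polynomial.coe_X]
      exact congrArg (fun φ : Polynomial k →ₐ[k] k⟦X⟧ => φ p) h1
    rw [e, Algebra.adjoin_singleton_eq_range_aeval]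
    exact ⟨p, rfl⟩
  let ψ : Polynomial k →+* Algebra.adjoin k {(X : k⟦X⟧)} :=
    (algebraMap (Polynomial k) k⟦X⟧).codRestrict (Algebra.adjoin k {(X : k⟦X⟧)}).toSubring hmem
  have hinj : Function.Injective ψ := by
    intro p q h
    have h1 : algebraMap (Polynomial k) k⟦X⟧ p = algebraMap (Polynomial k) k⟦X⟧ q :=
      congrArg Subtype.val h
    rw [algebraMap_polyK, algebraMap_polyK] at h1
    exact Polynomial.coe_injective k h1
  have hsurj : Function.Surjective ψ := by
    rintro ⟨y, hy⟩
    have hy' := hy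
    rw [Algebra.adjoin_singleton_eq_range_aeval] at hy'
    obtain ⟨p, hp⟩ := hy'
    refine ⟨p, Subtype.ext ?_⟩
    change algebraMap (Polynomial k) k⟦X⟧ p = y
    rw [← hp]
    have h1 : IsScalarTower.toAlgHom k (Polynomial k) k⟦X⟧ =
        Polynomial.aeval (X : k⟦X⟧) := by
      apply Polynomial.algHom_ext
      rw [Polynomial.aeval_X]
      change algebraMap (Polynomial k) k⟦X⟧ Polynomial.X = X
      rw [algebraMap_polyK, Polynomial.coe_X]
    exact congrArg (fun φ : Polynomial k →ₐ[k] k⟦X⟧ => φ p) h1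
  constructor
  · intro h
    exact h.ringHom_of_comp_eq ψ (RingHom.id k⟦X⟧) hinj (RingHom.ext fun _ => rfl)
  · intro h
    exact IsAlgebraic.of_ringHom_of_comp_eq (a := f) ψ (RingHom.id k⟦X⟧) h hsurj
      Function.injective_id (RingHom.ext fun _ => rfl)

/-- `f(X^e)` algebraic implies `f` algebraic -/
lemma alg_of_expand {k : Type*} [Field k] {f : k⟦X⟧} {e : ℕ} (he : e ≠ 0)
    (h : IsAlgebraic (Polynomial k) (PowerSeries.expand e he f)) : IsAlgebraic (Polynomial k) f := by
  rw [alg_poly_iff] at h ⊢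
  let A := Algebra.adjoin k {(X : k⟦X⟧)}
  let φ : k⟦X⟧ →ₐ[k] k⟦X⟧ := PowerSeries.expand e he
  have hφ : Function.Injective φ := by
    intro x y hxy
    ext n
    have := congrArg (coeff (e * n)) hxy
    simpa [φ] using this
  have hmap : A.map φ = Algebra.adjoin k {(X : k⟦X⟧) ^ e} := by
    rw [AlgHom.map_adjoin, Set.image_singleton]
    congr 2
    exact expand_X e he
  have hle : A.map φ ≤ A := by
    rw [hmap]
    exact Algebra.adjoin_le (Set.singleton_subset_iff.2
      (pow_mem (Algebra.subset_adjoin (Set.mem_singleton (X : k⟦X⟧))) e))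
  have halg : ∀ y ∈ A, IsAlgebraic (A.map φ) y := by
    intro y hy
    induction hy using Algebra.adjoin_induction with
    | mem y hy =>
      rw [Set.mem_singleton_iff] at hy
      subst hy
      have hX : (X : k⟦X⟧) ^ e ∈ A.map φ := by
        rw [hmap]; exact Algebra.subset_adjoin (Set.mem_singleton _)
      refine ⟨Polynomial.X ^ e - Polynomial.C ⟨X ^ e, hX⟩,
        (Polynomial.monic_X_pow_sub_C _ he).ne_zero, ?_⟩
      rw [map_sub, map_pow, Polynomial.aeval_X, Polynomial.aeval_C]
      exact sub_self _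
    | algebraMap c =>
      have : algebraMap k k⟦X⟧ c = algebraMap (A.map φ) k⟦X⟧ (algebraMap k (A.map φ) c) := rfl
      rw [this]
      exact isAlgebraic_algebraMap _
    | add a b _ _ ha hb => exact ha.add hb
    | mul a b _ _ ha hb => exact ha.mul hb
  letI : Algebra (A.map φ) A := (Subalgebra.inclusion hle).toRingHom.toAlgebra
  haveI : IsScalarTower (A.map φ) A k⟦X⟧ := IsScalarTower.of_algebraMap_eq fun _ => rfl
  haveI : Algebra.IsAlgebraic (A.map φ) A := by
    refine ⟨fun y => ?_⟩
    have h1 := halg y.1 y.2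
    have h2 : (y : k⟦X⟧) = algebraMap A k⟦X⟧ y := rfl
    rw [h2] at h1
    exact (isAlgebraic_algebraMap_iff Subtype.val_injective).1 h1
  have h1 : IsAlgebraic (A.map φ) (φ f) := IsAlgebraic.restrictScalars (A.map φ) h
  let ψ : A ≃ₐ[k] A.map φ := A.equivMapOfInjective φ hφ
  exact IsAlgebraic.of_ringHom_of_comp_eq (a := f) (ψ : A →+* A.map φ) (φ : k⟦X⟧ →+* k⟦X⟧) h1
    ψ.surjective hφ (RingHom.ext fun _ => rfl)

end Run7.h131.LL
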