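import Mathlib
import Pool.Agent.Run7.h131.LL.Base
import Pool.Agent.Run7.h131.LL.Ros
import Pool.Agent.Run7.h131.LL.Ax

/-!
# Exponentially algebraic power series: from derivations to the rank form
-/

set_option autoImplicit false
open PowerSeries

namespace Run7.h131.LL

section field

variable {k L : Type*} [Field k] [Field L] [CharZero L] [Algebra k L]

open scoped IntermediateField.algebraAdjoinAdjoin in
/-- derivations detect algebraicity -/
theorem alg_of_der {S : Set L} {x : L}
    (h : ∀ D : Derivation k L L, (∀ y ∈ S, D y = 0) → D x = 0) :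
    IsAlgebraic (Algebra.adjoin k S) x := by
  by_contra hx
  have htr : Transcendental (IntermediateField.adjoin k S) x := by
    intro hE
    apply hx
    exact (IsFractionRing.isAlgebraic_iff (Algebra.adjoin k S) (IntermediateField.adjoin k S) L).2 hE
  obtain ⟨D, hD, -⟩ := exists_pder htr
  have hk : ∀ e : IntermediateField.adjoin k S, D (e : L) = 0 := fun e => D.map_algebraMap e
  have h1 := h (reLin D (fun c => hk (algebraMap k (IntermediateField.adjoin k S) c)))
    (fun y hy => hk ⟨y, IntermediateField.subset_adjoin k S hy⟩)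
  have h2 : D x = 0 := h1
  rw [hD] at h2
  exact one_ne_zero h2

end field

variable {k : Type*} [Field k]

lemma alg_transfer_iff {S : Set k⟦X⟧} {x : k⟦X⟧} :
    IsAlgebraic (Algebra.adjoin k S) x ↔ IsAlgebraic (Algebra.adjoin k (jA '' S)) (jj x) := by
  refine ⟨alg_transfer, fun h => ?_⟩
  let A := Algebra.adjoin k S
  have hinj : Function.Injective (jA (k := k)) := jj_inj
  have e : A.map jA = Algebra.adjoin k (jA '' S) := AlgHom.map_adjoin _ _
  rw [← e] at h
  let φ : A ≃ₐ[k] A.map jA := A.equivMapOfInjective jA hinj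
  exact IsAlgebraic.of_ringHom_of_comp_eq (a := x) (φ : A →+* A.map jA)
    (algebraMap k⟦X⟧ (FL k)) h φ.surjective hinj (RingHom.ext fun _ => rfl)

variable [CharZero k]

theorem alg_iff_der {S : Set k⟦X⟧} {x : k⟦X⟧} : IsAlgebraic (Algebra.adjoin k S) x ↔
    ∀ D : Derivation k (FL k) (FL k), (∀ y ∈ S, D (jj y) = 0) → D (jj x) = 0 := by
  rw [alg_transfer_iff]
  constructor
  · intro h D hD
    refine alg_kill_adjoin D _ ?_ h
    rintro _ ⟨y, hy, rfl⟩
    exact hD y hy
  · intro h
    apply alg_of_der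
    intro D hD
    exact h D fun y hy => hD _ ⟨y, hy, rfl⟩

/-- `f` is algebraic over `k(X, S)` -/
def AO (S : Set k⟦X⟧) (f : k⟦X⟧) : Prop := IsAlgebraic (Algebra.adjoin k (insert X S)) f

theorem AO_iff {S : Set k⟦X⟧} {x : k⟦X⟧} : AO S x ↔
    ∀ D : Derivation k (FL k) (FL k), D (jj X) = 0 → (∀ y ∈ S, D (jj y) = 0) → D (jj x) = 0 := by
  rw [AO, alg_iff_der]
  constructor
  · intro h D h1 h2
    refine h D ?_
    rintro y (rfl | hy)
    · exact h1
    · exact h2 y hy
  · intro h D hD
    exact h D (hD _ (Set.mem_insert _ _)) fun y hy => hD _ (Set.mem_insert_of_mem _ hy)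

lemma AO.mem {S : Set k⟦X⟧} {x : k⟦X⟧} (h : x ∈ S) : AO S x :=
  AO_iff.2 fun _ _ h2 => h2 x h

lemma AO.trans {S T : Set k⟦X⟧} {x : k⟦X⟧} (h : AO S x) (hS : ∀ y ∈ S, AO T y) : AO T x := by
  rw [AO_iff] at h ⊢
  intro D h1 h2
  exact h D h1 fun y hy => AO_iff.1 (hS y hy) D h1 h2

lemma AO.mono {S T : Set k⟦X⟧} {x : k⟦X⟧} (h : AO S x) (hS : S ⊆ T) : AO T x :=
  h.trans fun _ hy => AO.mem (hS hy)

/-- `b = c exp a` with a nonzero constant `c` -/
def EP (a b : k⟦X⟧) : Prop := constantCoeff b ≠ 0 ∧ d⁄dX k b = b * d⁄dX k a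

lemma EP.ne {a b : k⟦X⟧} (h : EP a b) : jj b ≠ 0 := by
  intro h0
  rw [jj_eq_zero] at h0
  exact h.1 (by rw [h0, map_zero])

section rel

variable {ι : Type*} [Fintype ι]

/-- a linear relation between the exponents gives a relation between the forms -/
lemma om_rel {y b : ι → k⟦X⟧} (hp : ∀ i, EP (y i) (b i)) (m : ι → ℤ)
    (hm : ∑ i, (m i : k⟦X⟧) * d⁄dX k (y i) = 0) (D : Derivation k (FL k) (FL k)) :
    ∑ i, (m i : FL k) * om (jj (y i)) (jj (b i)) D = 0 := by
  have h1 : DD (∑ i, (m i : FL k) * jj (y i)) = 0 := by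
    rw [map_sum, ← map_zero (jj (k := k)), ← hm, map_sum]
    refine Finset.sum_congr rfl fun i _ => ?_
    have h0 : DD ((m i : ℤ) : FL k) = 0 := Derivation.map_intCast _ _
    rw [map_mul jj, map_intCast, Derivation.leibniz, smul_eq_mul, smul_eq_mul, DD_jj, h0,
      mul_zero, add_zero]
  have h2 : DD (∏ i, jj (b i) ^ m i) = 0 := by
    have h3 : DD (∏ i, jj (b i) ^ m i) / ∏ i, jj (b i) ^ m i = 0 := by
      rw [logder_prod _ _ _ fun i _ => zpow_ne_zero _ (hp i).ne,
        ← map_zero (jj (k := k)), ← hm, map_sum]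
      refine Finset.sum_congr rfl fun i _ => ?_
      rw [logder_zpow _ (hp i).ne, map_mul, map_intCast, DD_jj, (hp i).2, map_mul,
        mul_div_cancel_left₀ _ (hp i).ne]
    rcases div_eq_zero_iff.1 h3 with h | h
    · exact h
    · exact absurd h (Finset.prod_ne_zero_iff.2 fun i _ => zpow_ne_zero _ (hp i).ne)
  obtain ⟨c, hc⟩ := const_of_DD h1
  obtain ⟨c', hc'⟩ := const_of_DD h2
  have h3 : D (∑ i, (m i : FL k) * jj (y i)) = 0 := by rw [hc, D.map_algebraMap]
  have h4 : D (∏ i, jj (b i) ^ m i) = 0 := by rw [hc', D.map_algebraMap]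
  have h5 : D (∏ i, jj (b i) ^ m i) / ∏ i, jj (b i) ^ m i = 0 := by rw [h4, zero_div]
  rw [logder_prod _ _ _ fun i _ => zpow_ne_zero _ (hp i).ne] at h5
  rw [map_sum] at h3
  have h6 : ∑ i, (m i : FL k) * om (jj (y i)) (jj (b i)) D =
      ∑ i, D (jj (b i) ^ m i) / jj (b i) ^ m i - ∑ i, D ((m i : FL k) * jj (y i)) := by
    rw [← Finset.sum_sub_distrib]
    refine Finset.sum_congr rfl fun i _ => ?_
    rw [logder_zpow _ (hp i).ne, Derivation.leibniz, smul_eq_mul, smul_eq_mul]
    have : D ((m i : ℤ) : FL k) = 0 := Derivation.map_intCast _ _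
    rw [this, mul_zero, add_zero, om]
    ring
  rw [h6, h5, h3, sub_zero]

end rel

/-- **The rank form.** -/
theorem rank_form {N : ℕ} (y b : Fin N → k⟦X⟧) (hp : ∀ i, EP (y i) (b i))
    (hK : ∀ D : Derivation k (FL k) (FL k), D (jj X) = 0 →
      (∀ i, D (jj (b i)) = jj (b i) * D (jj (y i))) → ∀ i, D (jj (y i)) = 0) :
    ∃ (n : ℕ) (a' b' g : Fin n → k⟦X⟧), (∀ i, EP (a' i) (b' i)) ∧
      (∀ m : Fin n → ℤ, ∑ i, (m i : k⟦X⟧) * d⁄dX k (a' i) = 0 → m = 0) ∧
      (∀ i, AO (Set.range g) (a' i)) ∧ (∀ i, AO (Set.range g) (b' i)) ∧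
      (∀ i, AO (Set.range g) (y i)) ∧ (∀ i, AO (Set.range g) (b i)) := by
  classical
  -- a maximal independent subfamily
  let P : Finset (Fin N) → Prop := fun I => ∀ m : Fin N → ℤ, (∀ i, i ∉ I → m i = 0) →
    ∑ i, (m i : k⟦X⟧) * d⁄dX k (y i) = 0 → m = 0
  have hP0 : P ∅ := fun m hm _ => funext fun i => hm i (by simp)
  obtain ⟨I, hI, hImax⟩ : ∃ I, P I ∧ ∀ J, P J → J.card ≤ I.card := by
    obtain ⟨I, hI, hmax⟩ := Finset.exists_max_image (Finset.univ.filter P) Finset.card
      ⟨∅, by simp [hP0]⟩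
    exact ⟨I, (Finset.mem_filter.1 hI).2, fun J hJ => hmax J (by simp [hJ])⟩
  -- a minimal generating subfamily
  let w : Fin N ⊕ Fin N → k⟦X⟧ := Sum.elim y b
  let Q : Finset (Fin N ⊕ Fin N) → Prop := fun T => ∀ s, AO (w '' (T : Set (Fin N ⊕ Fin N))) (w s)
  have hQ0 : Q Finset.univ := fun s => AO.mem ⟨s, by simp, rfl⟩
  obtain ⟨T, hT, hTmin⟩ : ∃ T, Q T ∧ ∀ J, Q J → T.card ≤ J.card := by
    obtain ⟨I, hI, hmax⟩ := Finset.exists_min_image (Finset.univ.filter Q) Finset.card
      ⟨Finset.univ, by simp [hQ0]⟩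
    exact ⟨I, (Finset.mem_filter.1 hI).2, fun J hJ => hmax J (by simp [hJ])⟩
  -- dual derivations
  have hdual : ∀ t : T, ∃ D : Derivation k (FL k) (FL k), D (jj X) = 0 ∧
      ∀ s : T, D (jj (w s)) = if s = t then 1 else 0 := by
    rintro ⟨t, ht⟩
    have hnot : ¬ AO (w '' ((T.erase t : Finset _) : Set (Fin N ⊕ Fin N))) (w t) := by
      intro hA
      have hQ' : Q (T.erase t) := by
        intro s
        refine (hT s).trans ?_
        rintro _ ⟨u, hu, rfl⟩
        by_cases hut : u = t
        · rw [hut]; exact hA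
        · exact AO.mem ⟨u, by simpa [hut] using hu, rfl⟩
      have := hTmin _ hQ'
      rw [Finset.card_erase_of_mem ht] at this
      have h0 : 0 < T.card := Finset.card_pos.2 ⟨t, ht⟩
      omega
    rw [AO_iff] at hnot
    push Not at hnot
    obtain ⟨D, hX, hD, hne⟩ := hnot
    refine ⟨(D (jj (w t)))⁻¹ • D, by rw [Derivation.smul_apply, hX, smul_zero], ?_⟩
    rintro ⟨s, hs⟩
    rw [Derivation.smul_apply, smul_eq_mul]
    by_cases hst : s = t
    · subst hst
      rw [inv_mul_cancel₀ hne, if_pos rfl]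
    · rw [if_neg (fun h => hst (congrArg Subtype.val h)),
        hD (w s) ⟨s, by simp [hst, hs], rfl⟩, mul_zero]
  choose Dt hDX hDt using hdual
  -- the count
  have hcard : T.card ≤ I.card := by
    let Φ : (T → FL k) →ₗ[FL k] (I → FL k) :=
      { toFun := fun c i => ∑ t, c t * om (jj (y i)) (jj (b i)) (Dt t)
        map_add' := fun c c' => by
          ext i; simp only [Pi.add_apply, add_mul, Finset.sum_add_distrib]
        map_smul' := fun r c => by
          ext i
          simp only [Pi.smul_apply, smul_eq_mul, RingHom.id_apply, Finset.mul_sum, mul_assoc] }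
    have hΦ : Function.Injective Φ := by
      rw [← LinearMap.ker_eq_bot, LinearMap.ker_eq_bot']
      intro c hc
      let δ : Derivation k (FL k) (FL k) := ∑ t, c t • Dt t
      have hδ : ∀ x, δ x = ∑ t, c t * Dt t x := fun x => by
        have h1 := congrFun (map_sum (Derivation.coeFnAddMonoidHom (R := k) (A := FL k)
          (M := FL k)) (fun t => c t • Dt t) Finset.univ) x
        rw [Finset.sum_apply] at h1
        exact h1
      have hom : ∀ i, om (jj (y i)) (jj (b i)) δ = ∑ t, c t * om (jj (y i)) (jj (b i)) (Dt t) := by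
        intro i
        simp only [om, hδ, Finset.sum_div, ← Finset.sum_sub_distrib]
        refine Finset.sum_congr rfl fun t _ => ?_
        ring
      have hδX : δ (jj X) = 0 := by
        rw [hδ]; exact Finset.sum_eq_zero fun t _ => by rw [hDX, mul_zero]
      have hI0 : ∀ i ∈ I, om (jj (y i)) (jj (b i)) δ = 0 := by
        intro i hi
        rw [hom]
        exact congrFun hc ⟨i, hi⟩
      have hall : ∀ i, om (jj (y i)) (jj (b i)) δ = 0 := by
        intro j
        by_cases hj : j ∈ I
        · exact hI0 j hj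
        have hnP : ¬ P (insert j I) := by
          intro h
          have := hImax _ h
          rw [Finset.card_insert_of_notMem hj] at this
          omega
        simp only [P] at hnP
        push Not at hnP
        obtain ⟨m, hm, hrel, hne⟩ := hnP
        have hmj : m j ≠ 0 := by
          intro h0
          apply hne
          refine hI m (fun i hi => ?_) hrel
          by_cases hij : i = j
          · rw [hij]; exact h0
          · exact hm i (by simp [hij, hi])
        have h1 := om_rel hp m hrel δ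
        rw [Finset.sum_eq_single j] at h1
        · have hmj' : (m j : FL k) ≠ 0 := by exact_mod_cast hmj
          exact (mul_eq_zero.1 h1).resolve_left hmj'
        · intro i _ hij
          by_cases hi : i ∈ I
          · rw [hI0 i hi, mul_zero]
          · rw [hm i (by simp [hij, hi]), Int.cast_zero, zero_mul]
        · intro h; exact absurd (Finset.mem_univ j) h
      have hb : ∀ i, δ (jj (b i)) = jj (b i) * δ (jj (y i)) := by
        intro i
        have h1 := hall i
        rw [om, sub_eq_zero, div_eq_iff (hp i).ne] at h1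
        rw [h1, mul_comm]
      have hy0 := hK δ hδX hb
      have hw0 : ∀ s, δ (jj (w s)) = 0 := by
        rintro (i | i)
        · exact hy0 i
        · change δ (jj (b i)) = 0
          rw [hb, hy0, mul_zero]
      ext t
      have h1 := hw0 t
      rw [hδ, Finset.sum_eq_single t] at h1
      · rw [hDt, if_pos rfl, mul_one] at h1
        exact h1
      · intro s _ hst
        rw [hDt, if_neg (Ne.symm hst), mul_zero]
      · intro h; exact absurd (Finset.mem_univ t) h
    have h1 := LinearMap.finrank_le_finrank_of_injective hΦ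
    simpa using h1
  -- conclusion
  let n := I.card
  let eI : Fin n ≃ I := (Fintype.equivFinOfCardEq (by simp [n])).symm
  obtain ⟨g, hg⟩ : ∃ g : Fin n → k⟦X⟧, w '' (T : Set (Fin N ⊕ Fin N)) ⊆ Set.range g := by
    let eT : Fin T.card ≃ T := (Fintype.equivFinOfCardEq (by simp)).symm
    refine ⟨fun i => if h : (i : ℕ) < T.card then w (eT ⟨i, h⟩) else 0, ?_⟩
    rintro _ ⟨t, ht, rfl⟩
    let j := eT.symm ⟨t, ht⟩
    refine ⟨⟨j, j.2.trans_le hcard⟩, ?_⟩
    simp [j]
  have hAg : ∀ s, AO (Set.range g) (w s) := fun s => (hT s).mono hg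
  refine ⟨n, fun i => y (eI i), fun i => b (eI i), g, fun i => hp _, ?_,
    fun i => hAg (Sum.inl _), fun i => hAg (Sum.inr _), fun i => hAg (Sum.inl i),
    fun i => hAg (Sum.inr i)⟩
  intro m hm
  let m' : Fin N → ℤ := fun i => if h : i ∈ I then m (eI.symm ⟨i, h⟩) else 0
  have h1 : ∑ i, (m' i : k⟦X⟧) * d⁄dX k (y i) = 0 := by
    rw [← hm, ← Finset.sum_subset (Finset.subset_univ I), ← Finset.sum_coe_sort I,
      ← Equiv.sum_comp eI]
    · refine Finset.sum_congr rfl fun i _ => ?_
      simp [m']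
    · intro i _ hi
      simp [m', hi]
  have h2 := hI m' (fun i hi => by simp [m', hi]) h1
  ext i
  have h3 := congrFun h2 (eI i)
  simpa [m'] using h3

end Run7.h131.LL
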