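import Mathlib
import Pool.Agent.Run7.h131.LL.SpecC
import Pool.Agent.Run7.h131.LL.Tow

/-!
# Specialisation of the constants to a number field
-/

set_option autoImplicit false
open PowerSeries

namespace Run7.h131.LL

/-- finitely generated algebras have points in number fields -/
theorem exists_point {k : Type*} [Field k] [CharZero k] (S : Finset k) :
    ∃ (K : Type) (_ : Field K) (_ : NumberField K),
      Nonempty (Algebra.adjoin ℚ (S : Set k) →+* K) := by
  let A := Algebra.adjoin ℚ (S : Set k)
  obtain ⟨m, hm⟩ := Ideal.exists_maximal A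
  haveI : Algebra.FiniteType ℚ A := A.fg_iff_finiteType.1 (Subalgebra.fg_adjoin_finset S)
  letI : Field (A ⧸ m) := Ideal.Quotient.field m
  haveI : Algebra.FiniteType ℚ (A ⧸ m) :=
    Algebra.FiniteType.of_surjective (Ideal.Quotient.mkₐ ℚ m) (Ideal.Quotient.mkₐ_surjective ℚ m)
  haveI : Module.Finite ℚ (A ⧸ m) := finite_of_finite_type_of_isJacobsonRing ℚ (A ⧸ m)
  let φ : (A ⧸ m) →ₐ[ℚ] AlgebraicClosure ℚ := IsAlgClosed.lift
  let K : IntermediateField ℚ (AlgebraicClosure ℚ) := φ.fieldRange
  let ψ : (A ⧸ m) →ₐ[ℚ] K := φ.rangeRestrict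
  have hψ : Function.Surjective ψ := φ.rangeRestrict_surjective
  haveI : Module.Finite ℚ K := Module.Finite.of_surjective ψ.toLinearMap hψ
  haveI : NumberField K := { to_charZero := inferInstance, to_finiteDimensional := by
                               convert ‹Module.Finite ℚ K› }
  exact ⟨K, inferInstance, inferInstance, ⟨(ψ : (A ⧸ m) →+* K).comp (Ideal.Quotient.mk m)⟩⟩

section mapping

variable {R k : Type*} [CommRing R] [Field k] {ι : Type*}

/-- the rows of the Jacobian over a commutative ring -/
noncomputable def rowR {R A : Type*} [CommRing R] [CommRing A] [Algebra R A] (z f : A)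
    (a b : ι → A) (P : MvPolynomial (Vr ι) R) : Option ι → A
  | none => MvPolynomial.aeval (vv z f a b) (MvPolynomial.pderiv (some (Sum.inl none)) P)
  | some i => MvPolynomial.aeval (vv z f a b) (MvPolynomial.pderiv (some (Sum.inl (some i))) P) +
      b i * MvPolynomial.aeval (vv z f a b) (MvPolynomial.pderiv (some (Sum.inr i)) P)

lemma aeval_map_map {σ : Type*} (φ : R →+* k) (w : σ → R⟦X⟧) (P : MvPolynomial σ R) :
    MvPolynomial.aeval (fun v => map φ (w v)) (MvPolynomial.map φ P) =
      map φ (MvPolynomial.aeval w P) := by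
  induction P using MvPolynomial.induction_on with
  | C c =>
    rw [MvPolynomial.map_C, MvPolynomial.aeval_C, MvPolynomial.aeval_C]
    change C (φ c) = map φ (C c)
    rw [map_C]
  | add p q hp hq => simp only [map_add, hp, hq]
  | mul_X p i hp => simp only [map_mul, MvPolynomial.map_X, MvPolynomial.aeval_X, hp]

lemma vv_map (φ : R →+* k) (f : R⟦X⟧) (a b : ι → R⟦X⟧) :
    vv (X : k⟦X⟧) (map φ f) (fun i => map φ (a i)) (fun i => map φ (b i)) =
      fun v => map φ (vv X f a b v) := by
  ext1 v
  rcases v with _ | (_ | i) | i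
  · change X = map φ X
    rw [map_X]
  all_goals rfl

lemma row_map (φ : R →+* k) (f : R⟦X⟧) (a b : ι → R⟦X⟧) (P : MvPolynomial (Vr ι) R)
    (o : Option ι) :
    row X (map φ f) (fun i => map φ (a i)) (fun i => map φ (b i)) (MvPolynomial.map φ P) o =
      map φ (rowR X f a b P o) := by
  cases o with
  | none => simp only [row, rowR, MvPolynomial.pderiv_map, vv_map, aeval_map_map]
  | some i =>
    simp only [row, rowR, MvPolynomial.pderiv_map, vv_map, aeval_map_map, map_add, map_mul]

lemma der_map (φ : R →+* k) (f : R⟦X⟧) : map φ (d⁄dX R f) = d⁄dX k (map φ f) := by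
  ext n
  rw [coeff_map, coeff_derivative, coeff_derivative, coeff_map, map_mul, map_add, map_natCast,
    map_one]

end mapping

section spec

variable {k : Type*} [Field k] [CharZero k]

/-- lift to the subalgebra -/
noncomputable def liftA {A : Subalgebra ℚ k} (U : k⟦X⟧) (h : U ∈ PA A) : A⟦X⟧ :=
  PowerSeries.mk fun n => ⟨coeff n U, h n⟩

lemma map_liftA {A : Subalgebra ℚ k} (U : k⟦X⟧) (h : U ∈ PA A) :
    map (A.val : A →+* k) (liftA U h) = U := by
  ext n
  rw [coeff_map, liftA, coeff_mk]; rfl

lemma det_chain {K : Type*} [Field K] [CharZero K] {n : ℕ} (f : K⟦X⟧) (a b : Fin n → K⟦X⟧)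
    (P : Option (Fin n) → MvPolynomial (Vr (Fin n)) K)
    (hP : ∀ o, MvPolynomial.aeval (vv X f a b) (P o) = 0)
    (hdet : (Matrix.of fun o o' => row X f a b (P o) o').det ≠ 0)
    (D : Derivation K (FL K) (FL K)) (hX : D (jj X) = 0)
    (hD : ∀ i, D (jj (b i)) = jj (b i) * D (jj (a i))) :
    D (jj f) = 0 ∧ ∀ i, D (jj (a i)) = 0 := by
  classical
  have chain : ∀ Q : MvPolynomial (Vr (Fin n)) K,
      D (jj (MvPolynomial.aeval (vv X f a b) Q)) =
        ∑ o, jj (row X f a b Q o) * D (jj (uu f a o)) := by
    intro Q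
    induction Q using MvPolynomial.induction_on with
    | C c =>
      rw [MvPolynomial.aeval_C]
      have e1 : jj (algebraMap K K⟦X⟧ c) = algebraMap K (FL K) c := jj_C c
      rw [e1, D.map_algebraMap]
      symm
      refine Finset.sum_eq_zero fun o _ => ?_
      rw [row_C, map_zero, zero_mul]
    | add p q hp hq =>
      rw [map_add, map_add, map_add, hp, hq, ← Finset.sum_add_distrib]
      exact Finset.sum_congr rfl fun o _ => by rw [row_add, map_add, add_mul]
    | mul_X p v hp =>
      rw [map_mul, map_mul, Derivation.leibniz, smul_eq_mul, smul_eq_mul, hp,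
        MvPolynomial.aeval_X]
      have hv : D (jj (vv X f a b v)) = ∑ o,
          jj (row X f a b (MvPolynomial.X v : MvPolynomial (Vr (Fin n)) K) o) *
          D (jj (uu f a o)) := by
        rcases v with _ | (_ | i) | i
        · change D (jj X) = _
          rw [hX]
          symm
          refine Finset.sum_eq_zero fun o _ => ?_
          cases o with
          | none => simp [row, MvPolynomial.pderiv_X]
          | some i => simp [row, MvPolynomial.pderiv_X]
        · change D (jj f) = _
          rw [Fintype.sum_option]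
          simp [row, MvPolynomial.pderiv_X, uu]
        · change D (jj (a i)) = _
          rw [Fintype.sum_option, Finset.sum_eq_single i]
          · simp [row, MvPolynomial.pderiv_X, uu]
          · intro j _ hj
            simp [row, MvPolynomial.pderiv_X, Pi.single_apply, hj]
          · intro h; exact absurd (Finset.mem_univ i) h
        · change D (jj (b i)) = _
          rw [hD, Fintype.sum_option, Finset.sum_eq_single i]
          · simp [row, MvPolynomial.pderiv_X, uu]
          · intro j _ hj
            simp [row, MvPolynomial.pderiv_X, Pi.single_apply, hj]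
          · intro h; exact absurd (Finset.mem_univ i) h
      rw [hv, Finset.mul_sum, Finset.mul_sum, ← Finset.sum_add_distrib]
      refine Finset.sum_congr rfl fun o _ => ?_
      rw [row_mul, MvPolynomial.aeval_X, map_add, map_mul, map_mul]
      ring
  let M : Matrix (Option (Fin n)) (Option (Fin n)) (FL K) :=
    (Matrix.of fun o o' => row X f a b (P o) o').map jj
  have hM : M.mulVec (fun o => D (jj (uu f a o))) = 0 := by
    ext o
    have h1 := chain (P o)
    rw [hP, map_zero, map_zero] at h1
    change ∑ o', jj (row X f a b (P o) o') * D (jj (uu f a o')) = 0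
    exact h1.symm
  have hMd : M.det ≠ 0 := by
    have e : M.det = jj (Matrix.of fun o o' => row X f a b (P o) o').det := by
      rw [RingHom.map_det]; rfl
    rw [e, Ne, jj_eq_zero]
    exact hdet
  have h0 := Matrix.eq_zero_of_mulVec_eq_zero hMd hM
  exact ⟨congrFun h0 none, fun i => congrFun h0 (some i)⟩

/-- **Specialisation of the constants.** -/
theorem spec_sys {n : ℕ} {f : k⟦X⟧} {a b g : Fin n → k⟦X⟧} (h : ESys f a b g) (f₀ : ℚ⟦X⟧)
    (hf : f = map (algebraMap ℚ k) f₀) :
    ∃ (K : Type) (_ : Field K) (_ : NumberField K) (n : ℕ) (a' b' g' : Fin n → K⟦X⟧),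
      ESys (map (algebraMap ℚ K) f₀) a' b' g' := by
  classical
  obtain ⟨E, hEz, hE⟩ := h.dual
  obtain ⟨P, hP, hdet⟩ := h.system E hEz hE
  obtain ⟨r, W, hW0, hW⟩ := split_order hdet
  let δ : k := constantCoeff W
  let S : Finset k :=
    (Finset.univ.biUnion fun o => (P o).support.image fun m => (P o).coeff m) ∪
    (Finset.univ.biUnion fun o => (Finset.range (r + 1)).image fun m => coeff m (uu f a o)) ∪
    (Finset.univ.image fun i => constantCoeff (b i)) ∪
    (Finset.univ.image fun i => (constantCoeff (b i))⁻¹) ∪ {δ⁻¹}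
  obtain ⟨K, _, _, ⟨ρ⟩⟩ := exists_point S
  let A := Algebra.adjoin ℚ (S : Set k)
  have hSA : ∀ x ∈ S, x ∈ A := fun x hx => Algebra.subset_adjoin hx
  have hPA : ∀ o m, (P o).coeff m ∈ A := by
    intro o m
    by_cases hm : m ∈ (P o).support
    · apply hSA
      simp only [S, Finset.mem_union, Finset.mem_biUnion, Finset.mem_image, Finset.mem_univ,
        true_and]
      exact Or.inl (Or.inl (Or.inl (Or.inl ⟨o, m, hm, rfl⟩)))
    · rw [MvPolynomial.notMem_support_iff.1 hm]; exact zero_mem _
  have huA : ∀ o, ∀ m ≤ r, coeff m (uu f a o) ∈ A := by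
    intro o m hm
    apply hSA
    simp only [S, Finset.mem_union, Finset.mem_biUnion, Finset.mem_image, Finset.mem_univ,
      true_and]
    exact Or.inl (Or.inl (Or.inl (Or.inr ⟨o, m, Finset.mem_range.2 (by omega), rfl⟩)))
  have hbA : ∀ i, constantCoeff (b i) ∈ A := by
    intro i
    apply hSA
    simp only [S, Finset.mem_union, Finset.mem_biUnion, Finset.mem_image, Finset.mem_univ,
      true_and]
    exact Or.inl (Or.inl (Or.inr ⟨i, rfl⟩))
  have hbA' : ∀ i, (constantCoeff (b i))⁻¹ ∈ A := by
    intro i
    apply hSA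
    simp only [S, Finset.mem_union, Finset.mem_biUnion, Finset.mem_image, Finset.mem_univ,
      true_and]
    exact Or.inl (Or.inr ⟨i, rfl⟩)
  have hδA : δ⁻¹ ∈ A := hSA _ (by simp [S])
  have hdc : coeff r (matC P (uu f a) b).det = δ := by
    have : (matC P (uu f a) b).det = X ^ r * W := hW
    rw [this, coeff_X_pow_mul', if_pos le_rfl, Nat.sub_self, coeff_zero_eq_constantCoeff_apply]
  obtain ⟨hu, hb⟩ := sol_coeffs A P (uu f a) b r h.ode hPA huA hbA hP
    (by change X ^ r ∣ (matC P (uu f a) b).det
        have : (matC P (uu f a) b).det = X ^ r * W := hW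
        rw [this]; exact dvd_mul_right _ _) (by rw [hdc]; exact hW0) (by rw [hdc]; exact hδA)
  -- lifts
  let v : A →+* k := A.val
  have hv : Function.Injective v := Subtype.val_injective
  have hmv : Function.Injective (map v) := map_injective _ hv
  let uA : Option (Fin n) → A⟦X⟧ := fun o => liftA (uu f a o) (hu o)
  let bA : Fin n → A⟦X⟧ := fun i => liftA (b i) (hb i)
  have huA' : ∀ o, map v (uA o) = uu f a o := fun o => map_liftA _ _
  have hbA'' : ∀ i, map v (bA i) = b i := fun i => map_liftA _ _
  have hPlift : ∀ o, ∃ Q : MvPolynomial (Vr (Fin n)) A, MvPolynomial.map v Q = P o := by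
    intro o
    have h1 : P o ∈ Set.range (MvPolynomial.map (σ := Vr (Fin n)) v) := by
      rw [MvPolynomial.mem_range_map_iff_coeffs_subset]
      intro c hc
      rw [Finset.mem_coe, MvPolynomial.mem_coeffs_iff] at hc
      obtain ⟨m, -, hm⟩ := hc
      exact ⟨⟨c, hm ▸ hPA o m⟩, rfl⟩
    exact h1
  choose Q hQ using hPlift
  -- specialised data
  let f' : K⟦X⟧ := map ρ (uA none)
  let a' : Fin n → K⟦X⟧ := fun i => map ρ (uA (some i))
  let b' : Fin n → K⟦X⟧ := fun i => map ρ (bA i)
  have hf' : f' = map (algebraMap ℚ K) f₀ := by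
    ext m
    rw [coeff_map, coeff_map]
    have h1 : coeff m (uA none) = algebraMap ℚ A (coeff m f₀) := by
      apply hv
      have h2 := congrArg (coeff m) (huA' none)
      rw [coeff_map] at h2
      rw [h2]
      change coeff m f = _
      rw [hf, coeff_map]; rfl
    rw [h1, ← RingHom.comp_apply]
    exact congrFun (congrArg DFunLike.coe (Subsingleton.elim (ρ.comp (algebraMap ℚ A))
      (algebraMap ℚ K))) _
  have hsysA : ∀ o, MvPolynomial.aeval (vv X (uA none) (fun i => uA (some i)) bA) (Q o) = 0 := by
    intro o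
    apply hmv
    rw [← aeval_map_map, hQ, map_zero, ← vv_map]
    simp only [huA', hbA'']
    exact hP o
  have hsys : ∀ o, MvPolynomial.aeval (vv X f' a' b') (MvPolynomial.map ρ (Q o)) = 0 := by
    intro o
    rw [vv_map, aeval_map_map, hsysA, map_zero]
  let MA : Matrix (Option (Fin n)) (Option (Fin n)) A⟦X⟧ := Matrix.of fun o o' =>
    rowR X (uA none) (fun i => uA (some i)) bA (Q o) o'
  have hMv : map v MA.det = (matC P (uu f a) b).det := by
    rw [RingHom.map_det]
    congr 1
    ext1 o o'
    rw [RingHom.mapMatrix_apply, Matrix.map_apply]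
    simp only [MA, Matrix.of_apply, matC]
    rw [← row_map, hQ]
    simp only [huA', hbA'']
  have hMρ : map ρ MA.det = (Matrix.of fun o o' =>
      row X f' a' b' (MvPolynomial.map ρ (Q o)) o').det := by
    rw [RingHom.map_det]
    congr 1
    ext1 o o'
    rw [RingHom.mapMatrix_apply, Matrix.map_apply]
    simp only [MA, Matrix.of_apply]
    rw [← row_map]
  have hdet' : (Matrix.of fun o o' => row X f' a' b' (MvPolynomial.map ρ (Q o)) o').det ≠ 0 := by
    rw [← hMρ]
    intro h0
    have h1 : ρ (coeff r MA.det) = 0 := by rw [← coeff_map, h0, map_zero]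
    have h2 : v (coeff r MA.det) = δ := by rw [← coeff_map, hMv, hdc]
    have h3 : coeff r MA.det * ⟨δ⁻¹, hδA⟩ = 1 := by
      apply hv
      rw [map_mul, h2, map_one]
      exact mul_inv_cancel₀ hW0
    have h4 := congrArg ρ h3
    rw [map_mul, h1, zero_mul, map_one] at h4
    exact zero_ne_one h4
  have hEP : ∀ i, EP (a' i) (b' i) := by
    intro i
    constructor
    · intro h0
      have h1 : ρ (constantCoeff (bA i)) = 0 := by
        rw [← coeff_zero_eq_constantCoeff_apply, ← coeff_map, coeff_zero_eq_constantCoeff_apply]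
        exact h0
      have h3 : constantCoeff (bA i) * ⟨(constantCoeff (b i))⁻¹, hbA' i⟩ = 1 := by
        apply hv
        have h2 : v (constantCoeff (bA i)) = constantCoeff (b i) := by
          rw [← coeff_zero_eq_constantCoeff_apply, ← coeff_map, hbA'',
            coeff_zero_eq_constantCoeff_apply]
        rw [map_mul, h2, map_one]
        exact mul_inv_cancel₀ (h.ne i)
      have h4 := congrArg ρ h3
      rw [map_mul, h1, zero_mul, map_one] at h4
      exact zero_ne_one h4
    · have h1 : d⁄dX A (bA i) = bA i * d⁄dX A (uA (some i)) := by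
        apply hmv
        rw [map_mul, der_map, der_map, hbA'', huA']
        exact h.ode i
      have h2 := congrArg (map ρ) h1
      rw [map_mul, der_map, der_map] at h2
      exact h2
  have hker := det_chain f' a' b' _ hsys hdet'
  obtain ⟨n', a'', b'', g'', h1, h2, h3, h4, h5, h6⟩ := rank_form a' b' hEP
    (fun D hX hD => (hker D hX hD).2)
  refine ⟨K, inferInstance, inferInstance, n', a'', b'', g'', ?_⟩
  rw [← hf']
  refine ⟨fun i => (h1 i).2, fun i => (h1 i).1, h2, ?_, h3, h4⟩
  have h7 : AO (Set.range a' ∪ Set.range b') f' := by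
    rw [AO_iff]
    intro D hX hD
    refine (hker D hX fun i => ?_).1
    rw [hD (b' i) (Or.inr ⟨i, rfl⟩), hD (a' i) (Or.inl ⟨i, rfl⟩), mul_zero]
  refine h7.trans ?_
  rintro y (⟨i, rfl⟩ | ⟨i, rfl⟩)
  · exact h5 i
  · exact h6 i

end spec

end Run7.h131.LL
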