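import Mathlib
import Pool.Agent.Run7.h131.LL.Spc

/-!
# The theorem over an arbitrary field of constants, and the two classes of examples
-/

set_option autoImplicit false
open PowerSeries NumberField

namespace Run7.h131.LL

lemma alg_numberField {K : Type} [Field K] [NumberField K] {f : ℚ⟦X⟧} {n : ℕ}
    {a b g : Fin n → K⟦X⟧} (h : ESys (map (algebraMap ℚ K) f) a b g) (e : ℕ) (he : e ≠ 0)
    {f₁ : ℚ⟦X⟧} (hf : f = PowerSeries.expand e he f₁) (h3 : P3 f₁) :
    IsAlgebraic (Polynomial ℚ) f₁ := by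
  let K' := IntermediateField.normalClosure ℚ K (AlgebraicClosure K)
  haveI : NumberField K' := { to_charZero := inferInstance, to_finiteDimensional := by
                                have : FiniteDimensional ℚ K' := inferInstance
                                convert this }
  haveI : Algebra.IsAlgebraic ℚ (AlgebraicClosure K) :=
    Algebra.IsAlgebraic.trans ℚ K (AlgebraicClosure K)
  haveI : IsAlgClosure ℚ (AlgebraicClosure K) := ⟨inferInstance, inferInstance⟩
  haveI : Normal ℚ (AlgebraicClosure K) := IsAlgClosure.normal ℚ (AlgebraicClosure K)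
  haveI : Normal ℚ K' := normalClosure.normal ℚ K (AlgebraicClosure K)
  haveI : IsGalois ℚ K' := { }
  have h1 := h.baseChange (k' := K')
  have e1 : map (algebraMap K K') (map (algebraMap ℚ K) f) = map (algebraMap ℚ K') f := by
    refine PowerSeries.ext fun m => ?_
    rw [coeff_map, coeff_map, coeff_map, ← RingHom.comp_apply]
    exact RingHom.congr_fun (Subsingleton.elim ((algebraMap K K').comp
      (algebraMap ℚ K)) (algebraMap ℚ K')) (coeff m f)
  rw [e1] at h1
  have h2 : H497R2.OmInt (map (algebraMap ℚ K') f) := by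
    rw [hf, map_expand]
    exact OmInt.expand (OmInt_of_P3 h3) e he
  have h4 := core (frob_freq K') h1 h2
  have h5 := alg_descend K' h4
  rw [hf] at h5
  exact alg_of_expand he h5

/-- **The Lam–Litt conjecture for exponentially algebraic functions**, main implication. -/
theorem alg_final {k : Type*} [Field k] [CharZero k] {f : ℚ⟦X⟧} (e : ℕ) (he : e ≠ 0) {n : ℕ}
    {a b g : Fin n → k⟦X⟧}
    (h : ESys (PowerSeries.expand e he (map (algebraMap ℚ k) f)) a b g) (h3 : P3 f) :
    IsAlgebraic (Polynomial ℚ) f := by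
  obtain ⟨K, _, _, n', a', b', g', h'⟩ := spec_sys h (PowerSeries.expand e he f)
    (by rw [map_expand])
  exact alg_numberField h' e he rfl h3

section classes

variable {k : Type*} [Field k] [CharZero k]

/-- elementary towers -/
theorem tower_rank {N : ℕ} (θ : Fin N → k⟦X⟧)
    (hθ : ∀ i, AO (θ '' {j | j < i}) (θ i) ∨ (∃ u, AO (θ '' {j | j < i}) u ∧ EP u (θ i)) ∨
      ∃ u, AO (θ '' {j | j < i}) u ∧ EP (θ i) u) :
    ∃ (n : ℕ) (a' b' g : Fin n → k⟦X⟧), (∀ i, EP (a' i) (b' i)) ∧
      (∀ m : Fin n → ℤ, ∑ i, (m i : k⟦X⟧) * d⁄dX k (a' i) = 0 → m = 0) ∧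
      (∀ i, AO (Set.range g) (a' i)) ∧ (∀ i, AO (Set.range g) (b' i)) ∧
      (∀ i, AO (Set.range g) (θ i)) := by
  have hone : EP (0 : k⟦X⟧) 1 := ⟨by simp, by simp⟩
  have hpair : ∀ i, ∃ y b : k⟦X⟧, EP y b ∧ ∀ D : Derivation k (FL k) (FL k), D (jj X) = 0 →
      (∀ j < i, D (jj (θ j)) = 0) →
      (D (jj b) = jj b * D (jj y) → D (jj y) = 0 ∧ D (jj (θ i)) = 0) := by
    intro i
    rcases hθ i with h | ⟨u, hu, hp⟩ | ⟨u, hu, hp⟩
    · refine ⟨0, 1, hone, fun D hX hD _ => ⟨by rw [map_zero, map_zero], ?_⟩⟩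
      refine AO_iff.1 h D hX ?_
      rintro _ ⟨j, hj, rfl⟩
      exact hD j hj
    · refine ⟨u, θ i, hp, fun D hX hD hb => ?_⟩
      have h1 : D (jj u) = 0 := by
        refine AO_iff.1 hu D hX ?_
        rintro _ ⟨j, hj, rfl⟩
        exact hD j hj
      exact ⟨h1, by rw [hb, h1, mul_zero]⟩
    · refine ⟨θ i, u, hp, fun D hX hD hb => ?_⟩
      have h1 : D (jj u) = 0 := by
        refine AO_iff.1 hu D hX ?_
        rintro _ ⟨j, hj, rfl⟩
        exact hD j hj
      rw [h1] at hb
      have h2 := (mul_eq_zero.1 hb.symm).resolve_left hp.ne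
      exact ⟨h2, h2⟩
  choose y b hyb hD using hpair
  have key : ∀ D : Derivation k (FL k) (FL k), D (jj X) = 0 →
      (∀ i, D (jj (b i)) = jj (b i) * D (jj (y i))) → ∀ i, D (jj (y i)) = 0 ∧ D (jj (θ i)) = 0 := by
    intro D hX hb i
    induction i using WellFoundedLT.induction with
    | _ i ih => exact hD i D hX (fun j hj => (ih j hj).2) (hb i)
  obtain ⟨n, a', b', g, h1, h2, h3, h4, h5, h6⟩ := rank_form y b hyb
    (fun D hX hb i => (key D hX hb i).1)
  refine ⟨n, a', b', g, h1, h2, h3, h4, fun i => ?_⟩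
  have h7 : AO (Set.range y ∪ Set.range b) (θ i) := by
    rw [AO_iff]
    intro D hX hD'
    refine (key D hX (fun j => ?_) i).2
    rw [hD' (b j) (Or.inr ⟨j, rfl⟩), hD' (y j) (Or.inl ⟨j, rfl⟩), mul_zero]
  refine h7.trans ?_
  rintro x (⟨j, rfl⟩ | ⟨j, rfl⟩)
  · exact h5 j
  · exact h6 j

end classes

end Run7.h131.LL
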