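import Mathlib
import Pool.Agent.Run7.h131.LL.Fin

/-!
# Functions defined implicitly by exponential polynomial equations
-/

set_option autoImplicit false
open PowerSeries

namespace Run7.h131.LL

variable {k : Type*} [Field k] [CharZero k] {n : ℕ}

/-- the point `(X, y, b)` -/
noncomputable def pt (y b : Fin n → k⟦X⟧) (o : Option (Fin n ⊕ Fin n)) : k⟦X⟧ := o.elim X (Sum.elim y b)

/-- the total derivative of `P(X, y, exp y)` with respect to `y_i` -/
noncomputable def tot (y b : Fin n → k⟦X⟧) (P : MvPolynomial (Option (Fin n ⊕ Fin n)) k)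
    (i : Fin n) : k⟦X⟧ :=
  MvPolynomial.aeval (pt y b) (MvPolynomial.pderiv (some (Sum.inl i)) P) +
    b i * MvPolynomial.aeval (pt y b) (MvPolynomial.pderiv (some (Sum.inr i)) P)

lemma tot_chain (y b : Fin n → k⟦X⟧) (D : Derivation k (FL k) (FL k)) (hX : D (jj X) = 0)
    (hD : ∀ i, D (jj (b i)) = jj (b i) * D (jj (y i)))
    (P : MvPolynomial (Option (Fin n ⊕ Fin n)) k) :
    D (jj (MvPolynomial.aeval (pt y b) P)) = ∑ i, jj (tot y b P i) * D (jj (y i)) := by
  classical
  induction P using MvPolynomial.induction_on with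
  | C c =>
    rw [MvPolynomial.aeval_C]
    have e1 : jj (algebraMap k k⟦X⟧ c) = algebraMap k (FL k) c := jj_C c
    rw [e1, D.map_algebraMap]
    symm
    refine Finset.sum_eq_zero fun i _ => ?_
    simp [tot]
  | add p q hp hq =>
    rw [map_add, map_add, map_add, hp, hq, ← Finset.sum_add_distrib]
    refine Finset.sum_congr rfl fun i _ => ?_
    simp only [tot, map_add, map_mul]
    ring
  | mul_X p v hp =>
    rw [map_mul, map_mul, Derivation.leibniz, smul_eq_mul, smul_eq_mul, hp,
      MvPolynomial.aeval_X]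
    have hv : D (jj (pt y b v)) = ∑ i, jj (tot y b (MvPolynomial.X v) i) * D (jj (y i)) := by
      rcases v with _ | i | i
      · change D (jj X) = _
        rw [hX]
        symm
        refine Finset.sum_eq_zero fun i _ => ?_
        simp [tot, MvPolynomial.pderiv_X]
      · change D (jj (y i)) = _
        rw [Finset.sum_eq_single i]
        · simp [tot, MvPolynomial.pderiv_X]
        · intro j _ hj
          simp [tot, MvPolynomial.pderiv_X, Pi.single_apply, hj]
        · intro h; exact absurd (Finset.mem_univ i) h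
      · change D (jj (b i)) = _
        rw [hD, Finset.sum_eq_single i]
        · simp [tot, MvPolynomial.pderiv_X]
        · intro j _ hj
          simp [tot, MvPolynomial.pderiv_X, Pi.single_apply, hj]
        · intro h; exact absurd (Finset.mem_univ i) h
    rw [hv, Finset.mul_sum, Finset.mul_sum, ← Finset.sum_add_distrib]
    refine Finset.sum_congr rfl fun i _ => ?_
    simp only [tot, MvPolynomial.pderiv_mul, map_add, map_mul, MvPolynomial.aeval_X]
    ring

/-- nondegenerate systems -/
theorem implicit_rank (y b : Fin n → k⟦X⟧) (P : Fin n → MvPolynomial (Option (Fin n ⊕ Fin n)) k)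
    (hp : ∀ i, EP (y i) (b i)) (hP : ∀ j, MvPolynomial.aeval (pt y b) (P j) = 0)
    (hdet : (Matrix.of fun j i => tot y b (P j) i).det ≠ 0) :
    ∃ (n' : ℕ) (a' b' g : Fin n' → k⟦X⟧), (∀ i, EP (a' i) (b' i)) ∧
      (∀ m : Fin n' → ℤ, ∑ i, (m i : k⟦X⟧) * d⁄dX k (a' i) = 0 → m = 0) ∧
      (∀ i, AO (Set.range g) (a' i)) ∧ (∀ i, AO (Set.range g) (b' i)) ∧
      (∀ i, AO (Set.range g) (y i)) ∧ (∀ i, AO (Set.range g) (b i)) := by
  apply rank_form y b hp
  intro D hX hD
  let M : Matrix (Fin n) (Fin n) (FL k) := (Matrix.of fun j i => tot y b (P j) i).map jj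
  have hM : M.mulVec (fun i => D (jj (y i))) = 0 := by
    ext j
    have h1 := tot_chain y b D hX hD (P j)
    rw [hP, map_zero, map_zero] at h1
    change ∑ i, jj (tot y b (P j) i) * D (jj (y i)) = 0
    exact h1.symm
  have hMd : M.det ≠ 0 := by
    have e : M.det = jj (Matrix.of fun j i => tot y b (P j) i).det := by
      rw [RingHom.map_det]; rfl
    rw [e, Ne, jj_eq_zero]
    exact hdet
  have h0 := Matrix.eq_zero_of_mulVec_eq_zero hMd hM
  exact fun i => congrFun h0 i

end Run7.h131.LL
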